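import Pool.Agent.Helper94.KC.Goals

/-!
# Project KC (MP_bf413e_co): statements of the packets, with proofs.  Part C

Main result: `StmtTC`, all 5-colourings of a triangulation of a closed surface of minimum degree
`≥ 6` and of large edge-width are Kempe equivalent.  All homology is mod 2, sets of edges and of
triangles with symmetric difference.
-/

set_option autoImplicit false

namespace Pool.Agent.Helper94.KC

open scoped Classical
open Finset

/-! ### definitions -/

/-- the number of triangles with exactly `k` vertices in `W` -/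
noncomputable def tk {V : Type} (T : Finset (Finset V)) (W : Finset V) (k : ℕ) : ℕ :=
  (T.filter (fun t => (t ∩ W).card = k)).card

/-- the edges inside `W` -/
noncomputable def edW {V : Type} [Fintype V] (T : Finset (Finset V)) (W : Finset V) :
    Finset (Finset V) := (ed T).filter (fun e => e ⊆ W)

/-- the triangles inside `W` -/
noncomputable def trW {V : Type} (T : Finset (Finset V)) (W : Finset V) : Finset (Finset V) :=
  T.filter (fun t => t ⊆ W)

/-- the graph with edge set `F` -/
def gr {V : Type} (F : Finset (Finset V)) : SimpleGraph V where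
  Adj u v := u ≠ v ∧ ({u, v} : Finset V) ∈ F
  symm := ⟨by
    rintro u v ⟨h, h1⟩
    exact ⟨h.symm, by rwa [Finset.pair_comm]⟩⟩
  loopless := ⟨fun x h => h.1 rfl⟩

/-- the subgraph on `W` is connected (or empty) -/
def ConW {V : Type} [Fintype V] (T : Finset (Finset V)) (W : Finset V) : Prop :=
  ∀ u ∈ W, ∀ v ∈ W, (gr (edW T W)).Reachable u v

/-- the Euler characteristic of the full subcomplex on `W` -/
noncomputable def chiW {V : Type} [Fintype V] (T : Finset (Finset V)) (W : Finset V) : ℤ :=
  W.card - (edW T W).card + (trW T W).card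

/-- `w` is a shortest cycle which does not bound -/
structure Shortest {V : Type} [Fintype V] (T : Finset (Finset V)) {x : V}
    (w : (sk T).Walk x x) : Prop where
  cyc : w.IsCycle
  nb : ¬ Bounds T (wed w)
  min : ∀ z ⊆ ed T, Even2 z → ¬ Bounds T z → w.length ≤ z.card

/-! ### mod 2 calculus -/

/-- PACKET EV (mod 2 calculus).
Proof.  (1), (2): the parity of the number of elements with a property is additive under symmetric
difference.  (3): for a vertex `v` the number of pairs (edge `e ∋ v` in `bd T D`, triangle `t ∈ D`,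
`e ⊆ t`) is congruent to the number of these edges, and every `t ∋ v` has exactly two edges at `v`,
all of them in `ed T`.  (4) the edges of a cycle (`IsCycle`) are different, and every vertex of the
support is in exactly two of them (`Mathlib`: `SimpleGraph.Walk.IsTrail.even_countP_edges_iff`, or
`IsCycle.ncard_neighborSet_toSubgraph_eq_two`).  (5) every edge is in exactly two triangles of `T`.
(6) `D` contains with `t` all triangles which share an edge with `t`; go around the vertices
(`link`), and along edges (`conn`): if `D` is nonempty, all triangles are in `D`. -/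
def StmtEV : Prop := ∀ (V : Type) [Fintype V] (T : Finset (Finset V)), Surf T →
  (∀ D D', bd T (symmDiff D D') = symmDiff (bd T D) (bd T D')) ∧
  (∀ z z' : Finset (Finset V), Even2 z → Even2 z' → Even2 (symmDiff z z')) ∧
  (∀ D ⊆ T, Even2 (bd T D)) ∧
  (∀ (x : V) (w : (sk T).Walk x x), w.IsCycle → Even2 (wed w) ∧ (wed w).card = w.length ∧
    wed w ⊆ ed T) ∧
  bd T T = ∅ ∧ (∀ D ⊆ T, bd T D = ∅ → D = ∅ ∨ D = T)

/-- PACKET CY (an even set of edges contains a cycle).
Proof.  Consider the graph `gr z`; every vertex of it has degree 0 or at least 2, and it has an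
edge.  So it is not a forest (a finite forest with an edge has a vertex of degree 1; e.g. take a
longest path in `gr z`: its last vertex has another neighbour, which is on the path), and it contains
a cycle (`IsCycle`), which is a cycle of `sk T` (map the walk, `gr z ≤ sk T`). -/
def StmtCY : Prop := ∀ (V : Type) [Fintype V] (T : Finset (Finset V)), Surf T →
  ∀ z ⊆ ed T, Even2 z → z.Nonempty → ∃ (x : V) (w : (sk T).Walk x x), w.IsCycle ∧ wed w ⊆ z

/-- PACKET CN2 (an even set which does not bound contains a cycle which does not bound; may assume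
EV, CY).
Proof.  Induction on `#z`: `z` is nonempty (`∅` bounds); let `w` be a cycle with `wed w ⊆ z`.  If
`wed w` bounds, then `z \ wed w = symmDiff z (wed w)` is even, smaller, and does not bound. -/
def StmtCN2 : Prop := ∀ (V : Type) [Fintype V] (T : Finset (Finset V)), Surf T →
  ∀ z ⊆ ed T, Even2 z → ¬ Bounds T z →
  ∃ (x : V) (w : (sk T).Walk x x), w.IsCycle ∧ wed w ⊆ z ∧ ¬ Bounds T (wed w)

/-- PACKET RK (rank count for a connected 2-complex with vertex set `W`, edge set `F`, set of
triangles `D`).
Proof.  Linear algebra over `ZMod 2`.  The coboundary map `(W → ZMod 2) → (F → ZMod 2)`,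
`h ↦ (e = {u, v} ↦ h u + h v)`, has the constants as kernel (connectedness, `W` nonempty), so its
rank is `#W - 1`; the incidence map `(F → ZMod 2) → (W → ZMod 2)` is its transpose, so it has the
same rank and its kernel (the even sets `z ⊆ F`) has dimension `#F - #W + 1`.  The boundary map
`(D → ZMod 2) → (F → ZMod 2)` has its image in this kernel (EV (3)).  (1) If the image is the kernel,
`#F - #W + 1 ≤ #D`.  (2) If the boundary map is injective and `#D = #F - #W + 1`, the image is the
kernel. -/
def StmtRK : Prop := ∀ (V : Type) [Fintype V] (T : Finset (Finset V)), Surf T →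
  ∀ (W : Finset V) (F D : Finset (Finset V)), W.Nonempty → F ⊆ ed T → (∀ e ∈ F, e ⊆ W) →
  D ⊆ T → (∀ t ∈ D, ∀ e ∈ ed T, e ⊆ t → e ∈ F) → (∀ u ∈ W, ∀ v ∈ W, (gr F).Reachable u v) →
  ((∀ z ⊆ F, Even2 z → ∃ D' ⊆ D, bd T D' = z) → F.card + 1 ≤ W.card + D.card) ∧
  (W.card + D.card = F.card + 1 → (∀ D' ⊆ D, bd T D' = ∅ → D' = ∅) →
    ∀ z ⊆ F, Even2 z → ∃ D' ⊆ D, bd T D' = z)

/-! ### counting -/

/-- PACKET CN (double counting).
Proof.  Let `e₂ = #(edW T W)`, `e₁` the number of edges with exactly one end in `W`, `t_k = tk T W k`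
(`t₃ = #(trW T W)`).  `∑_{x ∈ W} dg T x = 2 e₂ + e₁`.  Every edge is in exactly two triangles (`two`);
counting the pairs (edge inside `W`, triangle): `2 e₂ = 3 t₃ + t₂`; counting the pairs (edge with one
end in `W`, triangle): `2 e₁ = 2 t₁ + 2 t₂`.  So `∑ (dg T x - 6) = 2 e₂ + t₁ + t₂ - 6 #W`, and
`6 chiW = 6 #W - 6 e₂ + 6 t₃ = 6 #W - 2 e₂ - 2 t₂`. -/
def StmtCN : Prop := ∀ (V : Type) [Fintype V] (T : Finset (Finset V)), Surf T →
  ∀ W : Finset V, (tk T W 1 : ℤ) = 6 * chiW T W + tk T W 2 + ∑ x ∈ W, ((dg T x : ℤ) - 6)

/-- PACKET XN (a stuck set has negative Euler characteristic; may assume CN, L1).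
Proof.  Let `x ∈ W`, `r = dR (sk T) (univ \ W) x ≤ dg T x - 5`.  The triangles `t ∋ x` with
`(t ∩ W).card = 1` are the link edges of `lk T x` between two vertices outside `W`.  If `r = 0` there
are none.  If `r ≥ 1`: at most `r - 1` (the sum of the link degrees of the `r` vertices outside `W` is
`2 r`, and it is twice the number of these link edges plus the number of link edges between `W` and its
complement, which is positive because the link is connected, and even by L1).  So in both cases the
number is at most `dg T x - 6` and summing over `x ∈ W` we get the second claim.  By CN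
`6 chiW + tk T W 2 ≤ 0`, and `tk T W 2 > 0`: some `x ∈ W` has a neighbour outside `W` (`conn`) and one
inside, and the link of `x` is connected, so there is a link edge between `W` and its complement. -/
def StmtXN : Prop := ∀ (V : Type) [Fintype V] (T : Finset (Finset V)), Surf T →
  (∀ v, 6 ≤ dg T v) → ∀ W : Finset V, W.Nonempty → W ≠ univ → (∀ x ∈ W, 5 ≤ dR (sk T) W x) →
  chiW T W < 0 ∧ (tk T W 1 : ℤ) ≤ ∑ x ∈ W, ((dg T x : ℤ) - 6)

/-- PACKET MM (number of hubs; may assume CN).
Proof.  CN for `W = univ`: `0 = 6 chi + ∑ (dg - 6)`; all summands are `≥ 0`. -/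
def StmtMM : Prop := ∀ (V : Type) [Fintype V] (T : Finset (Finset V)), Surf T →
  (∀ v, 6 ≤ dg T v) →
  ((univ.filter (fun v => 7 ≤ dg T v)).card : ℤ) ≤ -6 * chi T ∧
  ∀ W : Finset V, ∑ x ∈ W, ((dg T x : ℤ) - 6) ≤ -6 * chi T

/-! ### the shortest cycle which does not bound -/

/-- PACKET MZ (may assume EV, CN2, RK).
Proof.  If all even sets bound, RK (1) for `W = univ`, `F = ed T`, `D = T` gives `1 ≤ chi T`.  So there is
an even set `z ⊆ ed T` which does not bound; take one with the least number of elements; by CN2 it
contains a cycle `w` which does not bound, `#z ≤ #(wed w)`, `#(wed w) = w.length`.  If `w.length < c`,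
`EW` gives a disc with boundary `wed w`. -/
def StmtMZ : Prop := ∀ (V : Type) [Fintype V] (T : Finset (Finset V)), Surf T → chi T ≤ 0 →
  ∀ c : ℕ, EW T c → ∃ (x : V) (w : (sk T).Walk x x), Shortest T w ∧ c ≤ w.length

/-- PACKET AC (the two arcs of a cycle).
Proof.  Rotate the cycle so that it starts at `p`, cut it at `q` (`takeUntil`, `dropUntil`). -/
def StmtAC : Prop := ∀ (V : Type) [Fintype V] (G : SimpleGraph V) (x p q : V) (w : G.Walk x x),
  w.IsCycle → p ∈ w.support → q ∈ w.support → p ≠ q →
  ∃ A B : G.Walk p q, A.IsPath ∧ B.IsPath ∧ A.length + B.length = w.length ∧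
    Disjoint (wed A) (wed B) ∧ wed A ∪ wed B = wed w ∧
    (∀ v, v ∈ w.support ↔ v ∈ A.support ∨ v ∈ B.support) ∧
    (∀ v, v ∈ A.support → v ∈ B.support → v = p ∨ v = q)

/-- PACKET SH (replacing a part of the shortest cycle; may assume EV).
Proof.  (1) `symmDiff (wed w) (symmDiff A y)` is even and does not bound, and has at most
`#(wed w) - #A + #y` elements.  (2) Let `y` be the set of the edges which occur an odd number of times
in `b`; `#y ≤ b.length`, and `symmDiff (wed A) y` and `symmDiff (wed B) y` are even (a vertex different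
from `p, q` is in an even number of the edges of `A`, of `B`, and of `y`; `p` and `q` in an odd number).
Their symmetric difference is `wed w`, so one of them does not bound; say the first:
`w.length ≤ #(wed A) + #y`, so `B.length ≤ b.length`. -/
def StmtSH : Prop := ∀ (V : Type) [Fintype V] (T : Finset (Finset V)), Surf T →
  ∀ (x : V) (w : (sk T).Walk x x), Shortest T w →
  (∀ A ⊆ wed w, ∀ y ⊆ ed T, Even2 (symmDiff A y) → Bounds T (symmDiff A y) → A.card ≤ y.card) ∧
  (∀ (p q : V) (A B b : (sk T).Walk p q), p ≠ q → A.IsPath → B.IsPath →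
    Disjoint (wed A) (wed B) → wed A ∪ wed B = wed w → min A.length B.length ≤ b.length)

/-- PACKET EX (far away points of the shortest cycle; may assume MM, AC, SH).
Proof.  For `p ≠ q` on `w`, one of the two arcs (AC) has length at most `dist p q` (SH (2)).  So for
every vertex `h` the set `S` of the vertices of `w` at distance at most `K` from `h` has at most
`4 K + 1` elements: if `p ∈ S`, all the others are within distance `2 K` from `p` along `w`, and there
are at most `4 K + 1` vertices within distance `2 K` from `p` along the cycle (write them as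
`w.getVert ((j + k) % ℓ)`).  The support of `w` has `w.length` vertices.  Exclude the vertices at
distance `≤ K` from one of the at most `6 N` vertices of degree `≥ 7`: there is `x₁`; exclude in addition
the vertices at distance `≤ 20` from `x₁`: there is `x₂`. -/
def StmtEX : Prop := ∀ (V : Type) [Fintype V] (T : Finset (Finset V)) (N K : ℕ), Surf T →
  (∀ v, 6 ≤ dg T v) → -(N : ℤ) ≤ chi T → ∀ (x : V) (w : (sk T).Walk x x), Shortest T w →
  6 * N * (4 * K + 1) + 100 ≤ w.length →
  ∃ x₁ x₂ : V, x₁ ∈ w.support ∧ x₂ ∈ w.support ∧ 20 < (sk T).dist x₁ x₂ ∧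
    ∀ h, 7 ≤ dg T h → K < (sk T).dist x₁ h ∧ K < (sk T).dist x₂ h

/-! ### discs -/

/-- PACKET DB (cycles in a disc bound; may assume EV, RK).
Proof.  (1) RK (2) for `W = vs D`, `F = ed D`: `D ≠ ∅` as `bd T D = z ≠ ∅`, `#W + #D = #F + 1` by `euler`;
`gr (ed D) = sk D`.  If `D' ⊆ D`, `bd T D' = ∅`, then `D' = ∅` or `D' = T` (EV (6)), and in the second case
`D = T`, `bd T D = ∅`.  (2) Around `x` no edge is in `bd T D`, so link neighbours give triangles on the same
side (`D` or not `D`): if `(lk T x).Adj u v` and `(lk T x).Adj v u'`, the triangles `{x, u, v}` and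
`{x, v, u'}` are the two triangles with the edge `{x, v}`, so both are in `D` or both are not; the link is
connected. -/
def StmtDB : Prop := ∀ (V : Type) [Fintype V] (T : Finset (Finset V)), Surf T →
  ∀ D z : Finset (Finset V), Disc T D z → z.Nonempty →
  (∀ y ⊆ ed D, Even2 y → ∃ D' ⊆ D, bd T D' = y) ∧
  (∀ x, (∀ e ∈ z, x ∉ e) → ∀ t ∈ T, ∀ t' ∈ T, x ∈ t → x ∈ t' → t ∈ D → t' ∈ D)

/-- PACKET IN (cycles in a set with connected complement; may assume EV).
Proof.  Let `bd T D = z`, `U = univ \ W`.  Around a vertex `u ∈ U` no edge is in `z`, so all triangles at `u`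
are in `D`, or none (as in DB (2)); adjacent vertices of `U` have a common triangle; `U` is connected.
So either no triangle with a vertex in `U` is in `D`: take `D' = D`; or all are: take `D' = T \ D`,
`bd T (T \ D) = symmDiff (bd T T) z = z`. -/
def StmtIN : Prop := ∀ (V : Type) [Fintype V] (T : Finset (Finset V)), Surf T →
  ∀ W : Finset V, W ≠ univ → ConW T (univ \ W) → ∀ z ⊆ edW T W, Bounds T z →
  ∃ D' ⊆ trW T W, bd T D' = z

/-- PACKET NB (a stuck set contains a cycle which does not bound; may assume XN, RK, IN, CN2).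
Proof.  By XN `chiW T W < 0`.  If all even `z ⊆ edW T W` bound, then by IN they bound in `trW T W`, and
RK (1) for `W, edW T W, trW T W` gives `1 ≤ chiW T W`.  So some even `z ⊆ edW T W` does not bound; CN2
gives a cycle `w`, all edges of which are inside `W`, so its vertices are in `W`. -/
def StmtNB : Prop := ∀ (V : Type) [Fintype V] (T : Finset (Finset V)), Surf T →
  (∀ v, 6 ≤ dg T v) → ∀ W : Finset V, W.Nonempty → W ≠ univ → ConW T W → ConW T (univ \ W) →
  (∀ x ∈ W, 5 ≤ dR (sk T) W x) →
  ∃ (x : V) (w : (sk T).Walk x x), w.IsCycle ∧ (∀ v ∈ w.support, v ∈ W) ∧ ¬ Bounds T (wed w)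

/-- PACKET DD (a short even set is the boundary of a sum of discs; may assume EV, CY).
Proof.  Induction on `#z`: `z = ∅`: `L = []`.  Otherwise CY gives a cycle `w` with `wed w ⊆ z`,
`w.length = #(wed w) ≤ #z < c`, so there is a disc `D` with boundary `wed w`; apply the induction
hypothesis to `z \ wed w = symmDiff z (wed w)`. -/
def StmtDD : Prop := ∀ (V : Type) [Fintype V] (T : Finset (Finset V)), Surf T →
  ∀ c : ℕ, EW T c → ∀ z ⊆ ed T, Even2 z → z.card < c →
  ∃ L : List (Finset (Finset V)), bd T (L.foldr symmDiff ∅) = z ∧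
    ∀ D ∈ L, ∃ (x : V) (w : (sk T).Walk x x), w.IsCycle ∧ wed w ⊆ z ∧ Disc T D (wed w)

/-- PACKET AR (the shortest cycle crosses a disc quickly; may assume EV, DB, AC, SH).
Proof.  `x` is on no edge of `wed w'`, and a triangle at `x` is in `D`, so all triangles at `x` are in
`D` (DB (2)); call such vertices interior.  If all vertices of `w` were interior, all edges of `w` would
be in `ed D` and `wed w` would bound (DB (1)).  If a vertex is interior and its neighbour `v` on `w` is
not, then `v` is on an edge of `wed w'` (the triangles at the edge are in `D`, so otherwise `v` is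
interior).  So going from `x` along `w` in both directions until we meet the support of `w'` for the
first time we get `p` and `q`; all the vertices between are interior.  If `p = q` all edges of `w` are
in `ed D`, contradiction as before.  So `p ≠ q`; let `A` be the arc of `w` from `p` to `q` through `x`
(AC), `wed A ⊆ ed D`; let `B` be the shorter arc of `w'` from `p` to `q` (AC), `2 B.length ≤ w'.length`.
`symmDiff (wed A) (wed B)` is even, contained in `ed D` (`wed w' = bd T D ⊆ ed D`), so it bounds; by
SH (1) `A.length ≤ B.length`.  `dist x p ≤ A.length`. -/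
def StmtAR : Prop := ∀ (V : Type) [Fintype V] (T : Finset (Finset V)), Surf T →
  ∀ (x₀ : V) (w : (sk T).Walk x₀ x₀), Shortest T w → ∀ x ∈ w.support,
  ∀ (D : Finset (Finset V)) (y : V) (w' : (sk T).Walk y y), w'.IsCycle → Disc T D (wed w') →
  (∃ t ∈ D, x ∈ t) → x ∉ w'.support →
  ∃ p ∈ w'.support, 2 * (sk T).dist x p ≤ w'.length

/-- PACKET FD (may assume EV, DB, DD, AR).
Proof.  Let `U = univ \ W`, `TU = trW T U`, `z = bd T TU`.  Every `e ∈ z` is inside `U` and is in exactly
one triangle of `TU`, so its other triangle has exactly one vertex in `W`; different `e` give different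
triangles (`t \ W = e`), so `#z ≤ tk T W 1 ≤ m < c`.  DD gives the discs `D ∈ L`; `S` their sum; `bd T S = z`,
so `symmDiff S TU` is `∅` or `T` (EV (6)).  For `D ∈ L` with cycle `w_D`, `wed w_D ⊆ z`: the vertices of
`w_D` are in `U` and adjacent to a vertex of `W`.  No triangle `t` with a vertex on the cycle `w₁` is in
`D`: otherwise all the triangles at all the vertices of `w₁` are in `D` (DB (2), consecutive vertices of
`w₁` have a common triangle), so `wed w₁ ⊆ ed D` bounds.  So a triangle `t` at `w₁` is in no `D ∈ L`,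
`t ∉ S`, and `t ∉ TU`; hence `symmDiff S TU = ∅`, `S = TU`.  If `x` is adjacent to a vertex of `W` or in
`W` we are done.  Otherwise the triangles at `x` are in `TU = S`, so in some `D ∈ L`; `x` is not on
`w_D`; AR gives `p` on `w_D` with `2 dist x p ≤ w_D.length ≤ #z ≤ m`, and `p` is adjacent to some
`v ∈ W`. -/
def StmtFD : Prop := ∀ (V : Type) [Fintype V] (T : Finset (Finset V)), Surf T →
  ∀ m c : ℕ, m < c → EW T c → ∀ (x₀ : V) (w : (sk T).Walk x₀ x₀), Shortest T w →
  ∀ x ∈ w.support, ∀ W : Finset V, tk T W 1 ≤ m →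
  ∀ (x₁ : V) (w₁ : (sk T).Walk x₁ x₁), w₁.IsCycle → (∀ v ∈ w₁.support, v ∈ W) →
  ¬ Bounds T (wed w₁) → ∃ v ∈ W, (sk T).dist x v ≤ m + 1

/-! ### deletion sets -/

/-- PACKET BL (deletion in a ball without hubs; may assume GH).
Proof.  Claim: if `v ∉ R`, `dist x v ≤ k`, and some neighbour `u` of `v` is `∉ R`, then all neighbours of
`v` are `∉ R`: if `(lk T v).Adj u u'` and `u' ∈ R`, then `u'` sees `u, v ∉ R`, adjacent in `lk T u'`, so by
GH `u'` is a hub, at distance `≤ k + 1` from `x`, contradiction; `lk T v` is connected (`link`).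
Induction on the distance from `x` (consider a shortest path). -/
def StmtBL : Prop := ∀ (V : Type) [Fintype V] (T : Finset (Finset V)), Surf T →
  ∀ (R : Finset V) (x u : V) (k : ℕ), (∀ y ∈ R, 5 ≤ dR (sk T) R y) → x ∉ R → u ∉ R →
  (sk T).Adj x u → (∀ h, 7 ≤ dg T h → k + 1 < (sk T).dist x h) →
  ∀ y, (sk T).dist x y ≤ k + 1 → y ∉ R

/-- PACKET CO (a connected stuck set with connected complement).
Proof.  Let `R ⊆ univ \ B` be a set with `∀ x ∈ R, 5 ≤ dR (sk T) R x` with the maximal number of
elements; it is nonempty.  `univ \ R` is connected: let `C` be the set of the vertices `∉ R` which are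
not reachable from `B` in the graph on `univ \ R` (`B` is connected, nonempty); `R ∪ C` is disjoint from
`B`; a vertex of `C` has all its neighbours in `R ∪ C`, so at least 6, and a vertex of `R` has at least 5
neighbours in `R ∪ C`; by maximality `C = ∅`.  Let `R₁` be the set of the vertices reachable from
`x₀ ∈ R` in the graph on `R`.  A vertex of `R₁` has the same neighbours in `R₁` and in `R`.  The
complement of `R₁` is connected: `univ \ R` is, and every vertex `y ∈ R \ R₁` is connected in `R \ R₁`
to a vertex adjacent to `univ \ R` (a path of `sk T` from `y` to `B`, up to the first vertex outside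
`R`, has no vertex in `R₁`). -/
def StmtCO : Prop := ∀ (V : Type) [Fintype V] (T : Finset (Finset V)), Surf T →
  (∀ v, 6 ≤ dg T v) → ∀ B : Finset V, B.Nonempty → ConW T B → ¬ Deg4 (sk T) (univ \ B) →
  ∃ W : Finset V, W ⊆ univ \ B ∧ W.Nonempty ∧ ConW T W ∧ ConW T (univ \ W) ∧
    ∀ x ∈ W, 5 ≤ dR (sk T) W x

/-- PACKET DG (may assume XN, MM, NB, FD, BL, CO).
Proof.  Otherwise CO for `B = core i` (connected: the ball of radius 5 of the lattice is connected, and
lattice edges are mapped to edges) gives `W`.  `i 0 = x` and `i (1, 0)` are not in `W`, so by BL (with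
`k = 6 N + 1`) no vertex at distance `≤ 6 N + 2` from `x` is in `W`.  By XN, MM `tk T W 1 ≤ 6 N`; NB gives
the cycle `w₁`, FD (`m = 6 N`) a vertex `v ∈ W` with `dist x v ≤ 6 N + 1`, contradiction. -/
def StmtDG : Prop := ∀ (V : Type) [Fintype V] (T : Finset (Finset V)) (N : ℕ), Surf T →
  (∀ v, 6 ≤ dg T v) → -(N : ℤ) ≤ chi T → EW T (6 * N + 1) →
  ∀ (x₀ : V) (w : (sk T).Walk x₀ x₀), Shortest T w → ∀ x ∈ w.support,
  (∀ h, 7 ≤ dg T h → 6 * N + 2 < (sk T).dist x h) →
  ∀ i : ℤ × ℤ → V, Patch (sk T) i → i (0, 0) = x → Deg4 (sk T) (univ \ core i)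

/-! ### development of a flat ball -/

/-- `f` is a local isomorphism from the ball of radius `n + 1` of the lattice -/
structure Dev {V : Type} [Fintype V] (T : Finset (Finset V)) (n : ℕ) (f : ℤ × ℤ → V) : Prop where
  nb : ∀ p, hn p ≤ n → ∀ v, (sk T).Adj (f p) v ↔ ∃ q, hn (q - p) = 1 ∧ f q = v
  inj : ∀ p, hn p ≤ n → ∀ q q', hn (q - p) = 1 → hn (q' - p) = 1 → f q = f q' → q = q'
  lk : ∀ p, hn p ≤ n → ∀ q q', hn (q - p) = 1 → hn (q' - p) = 1 → hn (q' - q) = 1 →
    (lk T (f p)).Adj (f q) (f q')

/-- PACKET DV (existence of the development; may assume L1).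
Proof.  A frame at a vertex `v` of degree 6 is `s : ZMod 6 → V`, injective, with
`(lk T v).Adj (s j) (s (j + 1))` for all `j`; its values are the neighbours of `v`.  Every pair of
link-adjacent vertices `(a, b)` of the link of `v` extends to exactly one frame with `s 0 = a`,
`s 1 = b` (the link is a cycle of length 6: connected, all degrees 2, six vertices).  Transport in
direction `j` to `v' = s j` (also of degree 6): the frame `s'` at `v'` with `s' (j + 3) = v`,
`s' (j + 2) = s (j + 1)`; then `s' (j + 4) = s (j - 1)` (the neighbours of `v` in the link of `v'` are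
`s (j + 1)` and `s (j - 1)`).  (a) Transport in direction `j` and then `j + 3` is the identity.  (b)
Transport in direction `j` and then `j + 2` is transport in direction `j + 1` (all three vertices
`v, s j, s (j + 1)` have degree 6): both frames are at `s (j + 1)`, and have the value `v` at `j + 4` and
`s j` at `j + 5`.  (b') Taking inverses: `j + 2` and then `j` is also `j + 1`.  (c) The transports in the
directions `0` and `1` commute: `0` then `1` is `0` then (`2` then `0`), which is (`0` then `2`) then `0`,
which is `1` then `0` (the four vertices have degree 6).  Define the frame at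
`(a, b)` by `a` transports in direction `0` (or `3` if `a < 0`) from a frame at `x`, then `b` in direction
`1` (or `4`); the lattice directions are `d 0 = (1, 0), d 1 = (0, 1), d 2 = (-1, 1), d 3 = (-1, 0),
d 4 = (0, -1), d 5 = (1, -1)`.  For `hn p ≤ n + 1` and all `j` the frame at `p + d j` is the transport
of the frame at `p` in direction `j` (if `hn (p + d j) ≤ n + 1`; the path uses only points with
`hn ≤ n + 1`; for `j = 1, 4` by definition, for `j = 0, 3` by commutation, for `j = 2, 5` by (b)), and
`f (p + d j) = s_p j`.  All vertices used are at distance `≤ n + 2` from `x`. -/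
def StmtDV : Prop := ∀ (V : Type) [Fintype V] (T : Finset (Finset V)) (x : V) (n : ℕ), Surf T →
  (∀ y, (sk T).dist x y ≤ n + 2 → dg T y = 6) → ∃ f : ℤ × ℤ → V, f (0, 0) = x ∧ Dev T n f

/-- PACKET GB (Gauss-Bonnet for discs; may assume EV, DB, L1).
Proof.  Let `D` be the disc, `w` the boundary cycle, `ℓ = w.length = #(wed w)`, `n_i` the number of the
vertices of `vs D` not on `w` (all triangles at such a vertex are in `D`, DB (2), and their number is
`dg`, L1).  Every vertex of `w` is in `vs D`.  `3 #D = 2 #(ed D) - ℓ` (edges of `ed D` are in one triangle of `D` if they are in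
`wed w`, otherwise in two), `n_i + ℓ - #(ed D) + #D = 1`, so `#D = 2 n_i + ℓ - 2`.  Counting the pairs
(vertex, triangle of `D`): `3 #D = ∑_{x ∈ vs D} #{t ∈ D : x ∈ t}`.  So
`∑_{x ∈ w} (3 - #{t ∈ D : x ∈ t}) + ∑_{interior} (6 - dg T x) = 3 ℓ + 6 n_i - 3 #D = 6`. -/
def StmtGB : Prop := ∀ (V : Type) [Fintype V] (T : Finset (Finset V)), Surf T →
  (∀ v, 6 ≤ dg T v) → ∀ (x : V) (w : (sk T).Walk x x), w.IsCycle →
  ∀ D, Disc T D (wed w) →
  (∀ v ∈ w.support, ∃ t ∈ D, v ∈ t) ∧
  6 ≤ ∑ v ∈ w.support.toFinset, ((3 : ℤ) - (D.filter (fun t => v ∈ t)).card)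

/-- PACKET ST (straight and corner vertices of a cycle).
Proof.  Around `f p` the triangles are `t_j = {f p, f (p + d j), f (p + d (j + 1))}`, `j : ZMod 6`.
The edge `{f p, f (p + d j)}` is in `t_(j-1)` and `t_j`, and it is in `bd T D` iff exactly one of them is
in `D`; by hypothesis this happens exactly for `q` and `q'`.  So the `j` with `t_j ∈ D` form one of the
two arcs between `q` and `q'`: 3 triangles if `q' - p = -(q - p)`; 2 or 4 if `hn (q' - q) = 2` otherwise
(the directions differ by 2).  (Finite check over the 64 subsets of `ZMod 6`.) -/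
def StmtST : Prop := ∀ (V : Type) [Fintype V] (T : Finset (Finset V)) (n : ℕ) (f : ℤ × ℤ → V),
  Surf T → Dev T n f → ∀ D ⊆ T, ∀ p q q', hn p ≤ n → hn (q - p) = 1 → hn (q' - p) = 1 → q ≠ q' →
  (∀ e ∈ ed T, f p ∈ e → (e ∈ bd T D ↔ e = {f p, f q} ∨ e = {f p, f q'})) →
  (q' + q = p + p → (D.filter (fun t => f p ∈ t)).card = 3) ∧
  (hn (q' - q) = 2 → 2 ≤ (D.filter (fun t => f p ∈ t)).card)

/-- PACKET IJ (the development is injective; may assume GB, ST, AC, EV).
Proof.  Call `(p, q)`, `p ≠ q`, `hn p, hn q ≤ 6`, bad if `f p = f q`, and take a bad pair with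
`ℓ = hn (q - p)` minimal.  There are directions `u = d j`, `u' = d (j + 1)` and `a, b ≥ 0`, `a + b = ℓ`,
`q = p + a u + b u'` (every lattice vector is in a sector).  The lattice path
`p, p + u, .., p + a u, p + a u + u', .., q` is in the ball of radius 6 (a convex set); any two points
of it, except `p, q`, have a smaller distance, so `f` is injective on the path without `q`, and the
image is a closed walk of length `ℓ`; `ℓ ≥ 3` (`ℓ = 1`: `f p ≠ f q` are adjacent; `ℓ = 2`: `Dev.inj` at the
middle point).  It is a cycle `w` of length `≤ 12`, so it bounds a disc `D`.  At the vertices of `w`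
different from `f p` and `f (p + a u)` exactly 3 triangles are in `D` (ST: straight); at `f (p + a u)`
(if `0 < a < ℓ`) at least 2 (ST: `u' - (-u)`, i.e. `hn (u + u') = 2`, and `u ≠ -u'`), at `f p` at least 1
(GB).  So the sum in GB is at most `1 + 2 = 3 < 6`.  If `a = 0` or `b = 0` there is no corner. -/
def StmtIJ : Prop := ∀ (V : Type) [Fintype V] (T : Finset (Finset V)) (f : ℤ × ℤ → V), Surf T →
  (∀ v, 6 ≤ dg T v) → EW T 13 → Dev T 6 f → Patch (sk T) f

/-! ### the main theorem -/

/-- PACKET TC (theorem C; may assume TA, MZ, EX, DG, DV, IJ).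
Proof.  `c = 6 N (4 K + 1) + 100`, `K = 6 N + 20`.  `chi T ≤ 0` (MM: `0 ≤ -6 chi`).  MZ gives the shortest
cycle `w`, EX the points `x₁, x₂`; DV (`n = 6`) and IJ give flat patches `i₁, i₂` with centres `x₁, x₂`
(`EW` is monotone in `c`); their images (radius 6) are disjoint as `dist x₁ x₂ > 20` (the vertex `i p`
is at distance at most `hn p` from `i 0`).  DG and TA. -/
def StmtTC : Prop := ∀ N : ℕ, ∃ c : ℕ, ∀ (V : Type) [Fintype V] (T : Finset (Finset V)),
  Surf T → -(N : ℤ) ≤ chi T → (∀ v, 6 ≤ dg T v) → EW T c → AllEq (sk T)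

end Pool.Agent.Helper94.KC
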