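import Pool.Agent.Helper94.KC.TA
import Pool.Agent.Helper30.KC.GoalsI

/-!
# Project KC (MP_bf413e_co): theorem A' in the form of the project KI
-/

set_option autoImplicit false

namespace Pool.Agent.Helper94.KC

open scoped Classical
open Finset

theorem rs_eq_GS {V : Type} (G : SimpleGraph V) (S : Finset V) :
    Pool.Agent.Helper30.ML.rs G (S : Set V) = Pool.Agent.Helper53.KC.GS G S := by
  ext u v
  rfl

theorem tap : Pool.Agent.Helper30.KC.StmtTAP := by
  intro V _ G i₁ i₂ h1 h2 hd h3 h4
  rw [rs_eq_GS] at h3 h4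
  exact ta' G i₁ i₂ h1 h2 hd h3 h4

end Pool.Agent.Helper94.KC
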