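import Pool.Agent.Helper94.KC.Defs

/-!
# Project KC (MP_bf413e_co): statements of the packets, with proofs.  Part A

Main results of part A: `StmtTA` (two flat patches with 4-degenerate complement: all 5-colourings
are equivalent) and `StmtTB` (triangulated closed surfaces in which every vertex has at most one
neighbour of degree `≥ 7`, with two disjoint flat patches).  Part B (`GoalsC.lean`): `StmtTC`
(all triangulations of minimum degree `≥ 6` and large edge-width).
-/

set_option autoImplicit false

namespace Pool.Agent.Helper94.KC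

open scoped Classical
open Finset

/-! ### Kempe changes -/

/-- PACKET UN (exchange of two colours on a union of Kempe chains).
Proof.  Let `M = {v | f v = a ∨ f v = b}`.  `InChain G f a b` is an equivalence relation on `M`
(reachability in the induced graph), and depends only on `M`.  `S` is a union of classes by the
hypothesis.  Induction on the number of elements of `S`: if `S` is nonempty, `x ∈ S`, let `C ⊆ S` be
the chain of `x` (if `y` is reachable from `x` in the induced graph, then `y ∈ S` by induction along
the walk), `f'` the colouring with the colours exchanged on `C`: `KStep G f f'`.  `f'` has the same set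
`M`, `S \ C` satisfies the hypothesis for `f'`, and exchanging on `S \ C` gives the colouring with the
colours of `f` exchanged on `S` (points of `S` are in `M`). -/
def StmtUN : Prop := ∀ (V : Type) [Fintype V] (G : SimpleGraph V) (f : V → Fin 5) (a b : Fin 5)
  (S : Finset V), (∀ x ∈ S, f x = a ∨ f x = b) →
  (∀ x ∈ S, ∀ y, G.Adj x y → (f y = a ∨ f y = b) → y ∈ S) →
  KEq G f (fun y => if y ∈ S then Equiv.swap a b (f y) else f y)

/-- PACKET KL (Kempe equivalence in a quotient; may assume UN).
Proof.  Induction on the sequence; one step `f, g` at the chain `C` of `x` with colours `a, b` in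
`QG G r`: `S = {v | r v ∈ C}` satisfies the hypotheses of UN for `f ∘ r` (if `u ∈ S`, `G.Adj u v` and
`f (r v)` is `a` or `b`, then `r u = r v` or `(QG G r).Adj (r u) (r v)`, so `r v ∈ C`), and the result of
UN is `g ∘ r`. -/
def StmtKL : Prop := ∀ (V : Type) [Fintype V] (G : SimpleGraph V) (r : V → V) (f g : V → Fin 5),
  KEq (QG G r) f g → KEq G (f ∘ r) (g ∘ r)

/-- PACKET LV (Las Vergnas and Meyniel: in a 4-degenerate graph all 5-colourings are equivalent).
Proof.  For `S : Finset V` let `G_S` be the graph with the edges of `G` inside `S` (the other vertices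
are isolated).  Claim: `Deg4 G S → AllEq G_S`, by induction on `#S`.  (`S = ∅`: change the vertices one
after the other; the chain of an isolated vertex `x` with the colours `f x`, `g x` is `{x}`.)
Let `x ∈ S` have at most 4 neighbours in `S`, `S' = S \ {x}`.  Let `f, g` be proper for `G_S`; they are
proper for `G_S'`, so there is a sequence `f = f_0, f_1, .., f_m = g` of Kempe changes in `G_S'`.  We
construct `F_i`, proper for `G_S`, equivalent to `f` in `G_S`, and equal to `f_i` outside `x`; `F_0 = f`.
Step from `f_i` to `f_{i+1}` with chain `C`, colours `a, b`.  If `x ∈ C` then `C = {x}` (`x` is isolated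
in `G_S'`) and `F_{i+1} = F_i`.  Let `x ∉ C`.  (1) If `F_i x ≠ a, b`, then `C` is a chain for `F_i` in `G_S`
too.  (2) If `F_i x ∈ {a, b}` and at most one neighbour of `x` in `S` has a colour in `{a, b}`: the chain
of `F_i` in `G_S` which contains `C` is `C` or `C ∪ {x}` (a path through `x` would need two such
neighbours).  (3) Otherwise two of the at most 4 neighbours have the same colour (the colour in
`{a, b}` different from `F_i x`), so the neighbours and `x` use at most 4 colours, and there is a
colour `e`, not in `{a, b}`, which is not used; change the colour of `x` to `e` (the chain of `x` for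
`F_i x, e` is `{x}`) and go to (1).  At the end change the colour of `x` from `F_m x` to `g x` (chain
`{x}`).  Note that Kempe changes keep a colouring proper. -/
def StmtLV : Prop := ∀ (V : Type) [Fintype V] (G : SimpleGraph V), Deg4 G univ → AllEq G

/-! ### patches -/

/-- the identification of vertices given by identifications `r k` of points of the patches `i k` -/
noncomputable def comb {V I : Type} (i : I → ℤ × ℤ → V) (r : I → ℤ × ℤ → ℤ × ℤ) (v : V) : V :=
  if h : ∃ kp : I × (ℤ × ℤ), hn kp.2 ≤ 3 ∧ i kp.1 kp.2 = v then
    i h.choose.1 (r h.choose.1 h.choose.2) else v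

/-- PACKET QD (degeneracy of the quotient).
Proof.  By `inj` and disjointness the pair `kp` in the definition of `comb` is unique, so
`comb i r (i k p) = i k (r k p)` for `hn p ≤ 3`, and also for `hn p ≤ 6` (`r k p = p` if `3 < hn p`, and then
`i k p` is not `i k' q` with `hn q ≤ 3`); `comb i r v = v` for the other `v`; in particular `comb` maps
points `i k p` with `hn p ≤ 3` to such points, and `comb i r v = x` with `x` not of this form implies
`v = x`.  Let `R` be nonempty.  If some `x ∈ R` is not fixed by `comb i r`, it has no neighbour in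
`QG` (`comb` is idempotent), done.  So let all `x ∈ R` be fixed.  Case 1: `R` contains a point `i k p`,
`hn p ≤ 5`.  Let `R' = {p ∈ hB 5 : i k p ∈ R}`; its points are fixed by `r k`.  `Good.del` gives `x ∈ R'` with
at most 4 neighbours.  The neighbours `y ∈ R` of `i k x` in `QG`: `y = comb v`, `comb u = i k x`, `G.Adj u v`;
`u = i k p` with `r k p = x` and `hn p ≤ 5` (`p = x` or `hn p ≤ 3`), so by `nb` `v = i k q`, `hn (q - p) = 1`,
`hn q ≤ 6`, `y = i k (r k q)`, and `r k q ∈ R'` or `hn (r k q) = 6`.  So they are at most 4.
Case 2: no such point.  Then `R ⊆ univ \ core (i k)` for the `k` of the last hypothesis; a vertex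
`x ∈ R` with at most 4 neighbours of `G` in `R` has the same neighbours in `QG` (`comb u = x` implies
`u = x` as `x` is in no core). -/
def StmtQD : Prop := ∀ (V : Type) [Fintype V] (G : SimpleGraph V) (I : Type)
  (i : I → ℤ × ℤ → V) (r : I → ℤ × ℤ → ℤ × ℤ), (∀ k, Patch G (i k)) → (∀ k, Good (r k)) →
  (∀ k l p q, k ≠ l → hn p ≤ 6 → hn q ≤ 6 → i k p ≠ i l q) →
  (∃ k, Deg4 G (univ \ core (i k))) →
  Deg4 (QG G (comb i r)) univ ∧ (∀ v, comb i r (comb i r v) = comb i r v) ∧
    ∀ k p, hn p ≤ 6 → comb i r (i k p) = i k (r k p)

/-- PACKET LL (the local lemma; a finite computation, separate organisation).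
For every proper colouring of the ball of radius 3 there is a good identification which respects
the colours. -/
def StmtLL : Prop := ∀ c : ℤ × ℤ → Fin 5,
  (∀ p q, hn p ≤ 3 → hn q ≤ 3 → hn (q - p) = 1 → c p ≠ c q) →
  ∃ r, Good r ∧ ∀ p, hn p ≤ 3 → c (r p) = c p

/-- PACKET TA (may assume KL, LV, QD, LL).
Proof.  Let `f, g` be proper colourings.  LL for `f ∘ i₁` (proper on the ball by `nb`) gives `r₁`, LL for
`g ∘ i₂` gives `r₂`.  (1) Let `I = Unit`, `ρ₁ = comb (fun _ => i₁) (fun _ => r₁)`.  `f ∘ ρ₁ = f` (at the points
`i₁ p`, `hn p ≤ 3`, by LL; the other points are fixed).  If `h` is another proper colouring with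
`h ∘ ρ₁ = h`, then `f` and `h` are proper colourings of `QG G ρ₁`, which is 4-degenerate by QD, so
`KEq (QG G ρ₁) f h` by LV, and `KEq G f h` by KL.  The same for `g` and `ρ₂`.  (2) Let `I = Bool`,
`ρ = comb` for both patches.  `QG G ρ` is 4-degenerate by QD, so it has a proper colouring `h₀` with 5
colours (a 4-degenerate graph is 5-colourable: induction over the subsets `S`).  `h = h₀ ∘ ρ`.  `h` is
proper for `G`: if `G.Adj u v`, then `ρ u ≠ ρ v`: otherwise `u, v` are both in the same patch within
distance 3 (`ρ u = ρ v` and `u ≠ v`), `u = i₁ p`, `v = i₁ q`, `r₁ p = r₁ q`, so `f u = f (i₁ (r₁ p)) = f v`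
(resp. `g`), but `f` is proper.  `h ∘ ρ₁ = h` and `h ∘ ρ₂ = h` because `ρ ∘ ρ₁ = ρ = ρ ∘ ρ₂`.  So
`f ~ h ~ g` (`KEq` is symmetric: a Kempe change can be undone by the same change; or apply (1) to
the pair `h, g`). -/
def StmtTA : Prop := ∀ (V : Type) [Fintype V] (G : SimpleGraph V) (i₁ i₂ : ℤ × ℤ → V),
  Patch G i₁ → Patch G i₂ → (∀ p q, hn p ≤ 6 → hn q ≤ 6 → i₁ p ≠ i₂ q) →
  Deg4 G (univ \ core i₁) → Deg4 G (univ \ core i₂) → AllEq G

/-! ### growth in triangulated surfaces -/

/-- PACKET L1 (basic facts on links).
Proof.  (1) `{w | (lk T v).Adj u w}` corresponds to the two triangles which contain `v` and `u`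
(`two`; each has exactly one further vertex; the two further vertices are different, as otherwise the
triangles would be equal).  (2) If `u, w` are adjacent in the link, both are neighbours of `v`.
(3) The number of pairs `(u, w)`, `u ∈ A`, `w ∉ A`, adjacent in the link, is
`∑_{u ∈ A} 2 - #{(u, w) : u, w ∈ A, adjacent}` for a set `A` of neighbours of `v`, and the last number
is even (symmetric and irreflexive relation). -/
def StmtL1 : Prop := ∀ (V : Type) [Fintype V] (T : Finset (Finset V)), Surf T →
  (∀ v u, (sk T).Adj v u → dR (lk T v) univ u = 2) ∧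
  (∀ v u w, (lk T v).Adj u w → (sk T).Adj v u ∧ (sk T).Adj v w ∧ (sk T).Adj u w) ∧
  (∀ v, ∀ A : Finset V, (∀ u ∈ A, (sk T).Adj v u) →
    Even ((A ×ˢ (univ \ A)).filter (fun q => (lk T v).Adj q.1 q.2)).card)

/-- PACKET GH (a stuck vertex which sees two adjacent deleted vertices is a hub).
Proof.  `dg T x` is the number of neighbours in `R` plus the number of neighbours outside `R`; the
first is at least 5 and the second at least 2 (`u ≠ u'`). -/
def StmtGH : Prop := ∀ (V : Type) [Fintype V] (T : Finset (Finset V)) (R : Finset V) (x u u' : V),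
  5 ≤ dR (sk T) R x → u ∉ R → u' ∉ R → (lk T x).Adj u u' → Surf T → 7 ≤ dg T x

/-- PACKET GL (growth lemma; may assume L1, GH).
Proof.  Let `x ∈ R`, `u, u' ∉ R` be pairwise adjacent by a triangle (`(lk T x).Adj u u'`).  Claim A: if
`u ∉ R`, `x ∈ R`, `(sk T).Adj u x` and `x` has a neighbour outside `R` in `lk T u`, then both neighbours
of `x` in `lk T u` are outside `R`.  Otherwise `x` has exactly one neighbour outside `R` in `lk T u`
(L1: two neighbours); with `A = R ∩ N(u)` the number of link edges between `A` and its complement is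
even, so there is `w ∈ A`, `w ≠ x`, with a neighbour `u'' ∉ R` in `lk T u`; by GH `x` and `w` are hubs
(`(lk T w).Adj u u''`, `(lk T x).Adj u u'`), both are neighbours of `u`: contradiction.  Claim B: all
neighbours of `x` are outside `R`: in `lk T x` the set of the `v ∉ R` which have a neighbour `∉ R` in
`lk T x` contains `u`, and is closed under `lk T x`-neighbours by Claim A (applied to `v` in place of
`u`; adjacency of `v, w` in `lk T x` is adjacency of `x, w` in `lk T v`).  By `link` it contains all
neighbours of `x`.  This contradicts `5 ≤ dR (sk T) R x`.  So: every triangle with two vertices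
outside `R` has all vertices outside `R`.  Hence if `v, v' ∉ R` are adjacent, all link neighbours of
`v'` in `lk T v` are `∉ R`, and so on: all neighbours of `v` are `∉ R` (`link`), so by connectedness
(`conn`) all vertices are `∉ R`. -/
def StmtGL : Prop := ∀ (V : Type) [Fintype V] (T : Finset (Finset V)) (R : Finset V), Surf T →
  (∀ v x y, (sk T).Adj v x → (sk T).Adj v y → 7 ≤ dg T x → 7 ≤ dg T y → x = y) →
  (∀ x ∈ R, 5 ≤ dR (sk T) R x) → (∃ u u', u ∉ R ∧ u' ∉ R ∧ (sk T).Adj u u') → R = ∅

/-- PACKET TB (theorem B; may assume TA, GL).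
Proof.  `Deg4 G (univ \ core i₁)`: let `R ⊆ univ \ core i₁` be nonempty; if every `x ∈ R` had at least 5
neighbours of `G` in `R`, it would have at least 5 neighbours of `sk T` in `R`; `i₁ (0, 0)` and
`i₁ (1, 0)` are adjacent (by `nb` and `G ≤ sk T`) and not in `R`, so `R = ∅` by GL. -/
def StmtTB : Prop := ∀ (V : Type) [Fintype V] (T : Finset (Finset V)) (G : SimpleGraph V)
  (i₁ i₂ : ℤ × ℤ → V), Surf T → G ≤ sk T →
  (∀ v x y, (sk T).Adj v x → (sk T).Adj v y → 7 ≤ dg T x → 7 ≤ dg T y → x = y) →
  Patch G i₁ → Patch G i₂ → (∀ p q, hn p ≤ 6 → hn q ≤ 6 → i₁ p ≠ i₂ q) → AllEq G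

end Pool.Agent.Helper94.KC
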