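import Pool.Agent.Helper53.KC.Goals

/-!
# Packet KC-NUM (project of helper53, MP_8c9d5b_co): the choice of the parameters
-/

set_option autoImplicit false

namespace Pool.Agent.Helper94.KC

open Finset
open Pool.Agent.Helper53.KC

lemma bl_le (m u : ℕ) : bl m u ≤ (m + 1) ^ u := by
  unfold bl
  rw [add_pow]
  apply Finset.sum_le_sum
  intro j hj
  rw [Finset.mem_range] at hj
  have h1 : m.choose j ≤ m ^ j := Nat.choose_le_pow m j
  have h2 : 1 ≤ u.choose j := Nat.choose_pos (by omega)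
  calc m.choose j ≤ m ^ j := h1
    _ = m ^ j * 1 * 1 := by ring
    _ ≤ m ^ j * 1 ^ (u - j) * u.choose j := by
        rw [one_pow]
        exact Nat.mul_le_mul_left _ h2

lemma bl_pos (m u : ℕ) : 1 ≤ bl m u := by
  unfold bl
  calc 1 = m.choose 0 := by simp
    _ ≤ ∑ j ∈ range (u + 1), m.choose j :=
        Finset.single_le_sum (f := fun j => m.choose j) (fun j _ => Nat.zero_le _)
          (Finset.mem_range.mpr (by omega))

lemma blu (hBl : BlStmt) (m u : ℕ) (y q : ℝ) (h1 : (u : ℝ) ≤ y) (h2 : 0 < y) (h3 : y ≤ m)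
    (h4 : (m : ℝ) ≤ y * (2 : ℝ) ^ q) : (bl m u : ℝ) ≤ (2 : ℝ) ^ ((2 + q) * y) := by
  have h5 := hBl m u y h1 h2 h3
  have he : Real.exp 1 < 4 := by
    have := Real.exp_one_lt_d9
    linarith
  have hm : (0 : ℝ) ≤ m := Nat.cast_nonneg m
  have h6 : Real.exp 1 * m / y ≤ (2 : ℝ) ^ (2 + q) := by
    rw [div_le_iff₀ h2, Real.rpow_add (by norm_num)]
    have e1 : (2 : ℝ) ^ (2 : ℝ) = 4 := by
      norm_num
    rw [e1]
    calc Real.exp 1 * m ≤ 4 * m := mul_le_mul_of_nonneg_right he.le hm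
      _ ≤ 4 * (y * (2 : ℝ) ^ q) := by linarith
      _ = 4 * (2 : ℝ) ^ q * y := by ring
  calc (bl m u : ℝ) ≤ (Real.exp 1 * m / y) ^ y := h5
    _ ≤ ((2 : ℝ) ^ (2 + q)) ^ y := Real.rpow_le_rpow (by positivity) h6 h2.le
    _ = (2 : ℝ) ^ ((2 + q) * y) := by rw [← Real.rpow_mul (by norm_num)]

lemma big_pow (s : ℕ) (hs : 256 ≤ s) : (2 * s) ^ 16 ≤ 2 ^ s := by
  induction s, hs using Nat.le_induction with
  | base => norm_num
  | succ s hs ih =>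
    have h1 : 256 * (s + 1) ≤ 257 * s := by omega
    have h2 : (256 * (s + 1)) ^ 16 ≤ (257 * s) ^ 16 := Nat.pow_le_pow_left h1 16
    rw [mul_pow, mul_pow] at h2
    have h3 : 256 ^ 16 * (s + 1) ^ 16 ≤ 256 ^ 16 * (2 * s ^ 16) := by
      refine le_trans h2 ?_
      have h4 : 257 ^ 16 ≤ 256 ^ 16 * 2 := by norm_num
      calc 257 ^ 16 * s ^ 16 ≤ (256 ^ 16 * 2) * s ^ 16 := Nat.mul_le_mul_right _ h4
        _ = 256 ^ 16 * (2 * s ^ 16) := by ring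
    have h5 : (s + 1) ^ 16 ≤ 2 * s ^ 16 := Nat.le_of_mul_le_mul_left h3 (by positivity)
    calc (2 * (s + 1)) ^ 16 = 2 ^ 16 * (s + 1) ^ 16 := by rw [mul_pow]
      _ ≤ 2 ^ 16 * (2 * s ^ 16) := Nat.mul_le_mul_left _ h5
      _ = 2 * (2 * s) ^ 16 := by rw [mul_pow]; ring
      _ ≤ 2 * 2 ^ s := Nat.mul_le_mul_left _ ih
      _ = 2 ^ (s + 1) := by ring

/-- integer sixteenth root -/
lemma root16 (n : ℕ) : ∃ s : ℕ, s ^ 16 ≤ n ∧ n < (s + 1) ^ 16 := by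
  refine ⟨Nat.sqrt (Nat.sqrt (Nat.sqrt (Nat.sqrt n))), ?_, ?_⟩
  · set a := Nat.sqrt n
    set b := Nat.sqrt a
    set c := Nat.sqrt b
    set s := Nat.sqrt c
    have h1 : a ^ 2 ≤ n := Nat.sqrt_le' n
    have h2 : b ^ 2 ≤ a := Nat.sqrt_le' a
    have h3 : c ^ 2 ≤ b := Nat.sqrt_le' b
    have h4 : s ^ 2 ≤ c := Nat.sqrt_le' c
    calc s ^ 16 = (s ^ 2) ^ 8 := by rw [← pow_mul]
      _ ≤ c ^ 8 := Nat.pow_le_pow_left h4 8
      _ = (c ^ 2) ^ 4 := by rw [← pow_mul]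
      _ ≤ b ^ 4 := Nat.pow_le_pow_left h3 4
      _ = (b ^ 2) ^ 2 := by rw [← pow_mul]
      _ ≤ a ^ 2 := Nat.pow_le_pow_left h2 2
      _ ≤ n := h1
  · set a := Nat.sqrt n
    set b := Nat.sqrt a
    set c := Nat.sqrt b
    set s := Nat.sqrt c
    have h1 : n < (a + 1) ^ 2 := Nat.lt_succ_sqrt' n
    have h2 : a < (b + 1) ^ 2 := Nat.lt_succ_sqrt' a
    have h3 : b < (c + 1) ^ 2 := Nat.lt_succ_sqrt' b
    have h4 : c < (s + 1) ^ 2 := Nat.lt_succ_sqrt' c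
    calc n < (a + 1) ^ 2 := h1
      _ ≤ ((b + 1) ^ 2) ^ 2 := Nat.pow_le_pow_left h2 2
      _ = (b + 1) ^ 4 := by rw [← pow_mul]
      _ ≤ ((c + 1) ^ 2) ^ 4 := Nat.pow_le_pow_left h3 4
      _ = (c + 1) ^ 8 := by rw [← pow_mul]
      _ ≤ ((s + 1) ^ 2) ^ 8 := Nat.pow_le_pow_left h4 8
      _ = (s + 1) ^ 16 := by rw [← pow_mul]

/-- the first factor -/
lemma fac1 (n N s : ℕ) (hs : 256 ≤ s) (hn : n < (s + 1) ^ 16) (hn1 : 1 ≤ n)
    (hN : 2 ^ n ≤ n ^ 3 * N) :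
    (bl (2 ^ n) (2 ^ n / (s ^ 4).choose 21) : ℝ) ≤
      (2 : ℝ) ^ ((N : ℝ) / n * ((2 ^ 102 * (Nat.factorial 21 : ℝ)) / s)) := by
  set h := 2 ^ n / (s ^ 4).choose 21 with hh
  have hs0 : (0 : ℝ) < s := by
    have : (0 : ℕ) < s := by omega
    exact_mod_cast this
  have hs1 : (1 : ℝ) ≤ s := by
    have : (1 : ℕ) ≤ s := by omega
    exact_mod_cast this
  have hn0 : (0 : ℝ) < n := by exact_mod_cast hn1
  -- the binomial coefficient
  have hs4 : 42 ≤ s ^ 4 := by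
    calc 42 ≤ 256 ^ 4 := by norm_num
      _ ≤ s ^ 4 := Nat.pow_le_pow_left hs 4
  have hC : ((s : ℝ) ^ 4 / 2) ^ 21 / (Nat.factorial 21 : ℝ) ≤ ((s ^ 4).choose 21 : ℝ) := by
    refine le_trans ?_ (Nat.pow_le_choose 21 (s ^ 4))
    apply div_le_div_of_nonneg_right _ (by positivity)
    apply pow_le_pow_left₀ (by positivity)
    rw [Nat.cast_sub (by omega)]
    push_cast
    have : (42 : ℝ) ≤ (s : ℝ) ^ 4 := by exact_mod_cast hs4
    linarith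
  have hCpos : (0 : ℝ) < ((s ^ 4).choose 21 : ℝ) := lt_of_lt_of_le (by positivity) hC
  have hhle : (h : ℝ) ≤ (2 : ℝ) ^ n / ((s ^ 4).choose 21 : ℝ) := by
    have := @Nat.cast_div_le ℝ _ _ _ (2 ^ n) ((s ^ 4).choose 21)
    rw [hh]
    refine le_trans this (le_of_eq ?_)
    push_cast
    rfl
  have hexp : ((n : ℝ) + 1) * h ≤ (N : ℝ) / n * ((2 ^ 102 * (Nat.factorial 21 : ℝ)) / s) := by
    have hNr : (2 : ℝ) ^ n ≤ (n : ℝ) ^ 3 * N := by exact_mod_cast hN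
    have h5 : (h : ℝ) ≤ (n : ℝ) ^ 3 * N * (2 ^ 21 * (Nat.factorial 21 : ℝ)) / (s : ℝ) ^ 84 := by
      refine le_trans hhle ?_
      rw [div_le_div_iff₀ hCpos (by positivity)]
      have e1 : (s : ℝ) ^ 84 ≤ (2 ^ 21 * (Nat.factorial 21 : ℝ)) * ((s ^ 4).choose 21 : ℝ) := by
        have h6 : ((s : ℝ) ^ 4 / 2) ^ 21 ≤ ((s ^ 4).choose 21 : ℝ) * (Nat.factorial 21 : ℝ) := by
          rw [div_le_iff₀ (by positivity)] at hC
          exact hC
        have e2 : ((s : ℝ) ^ 4 / 2) ^ 21 = (s : ℝ) ^ 84 / 2 ^ 21 := by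
          rw [div_pow, ← pow_mul]
        rw [e2, div_le_iff₀ (by positivity)] at h6
        linarith
      calc (2 : ℝ) ^ n * (s : ℝ) ^ 84
          ≤ ((n : ℝ) ^ 3 * N) * ((2 ^ 21 * (Nat.factorial 21 : ℝ)) * ((s ^ 4).choose 21 : ℝ)) :=
            mul_le_mul hNr e1 (by positivity) (by positivity)
        _ = (n : ℝ) ^ 3 * N * (2 ^ 21 * (Nat.factorial 21 : ℝ)) * ((s ^ 4).choose 21 : ℝ) := by
            ring
    have hn5 : (n : ℝ) ^ 5 ≤ 2 ^ 80 * (s : ℝ) ^ 80 := by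
      have h7 : n ≤ (2 * s) ^ 16 := le_trans hn.le (Nat.pow_le_pow_left (by omega) 16)
      have h8 : n ^ 5 ≤ ((2 * s) ^ 16) ^ 5 := Nat.pow_le_pow_left h7 5
      have e3 : ((2 * s) ^ 16) ^ 5 = 2 ^ 80 * s ^ 80 := by
        rw [← pow_mul, mul_pow]
      rw [e3] at h8
      exact_mod_cast h8
    have hnn : (n : ℝ) + 1 ≤ 2 * n := by
      have : (1 : ℝ) ≤ n := by exact_mod_cast hn1
      linarith
    calc ((n : ℝ) + 1) * h
        ≤ (2 * n) * ((n : ℝ) ^ 3 * N * (2 ^ 21 * (Nat.factorial 21 : ℝ)) / (s : ℝ) ^ 84) :=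
          mul_le_mul hnn h5 (Nat.cast_nonneg _) (by positivity)
      _ = (N : ℝ) / n * ((n : ℝ) ^ 5 * (2 ^ 22 * (Nat.factorial 21 : ℝ)) / (s : ℝ) ^ 84) := by
          field_simp
      _ ≤ (N : ℝ) / n * ((2 ^ 102 * (Nat.factorial 21 : ℝ)) / s) := by
          apply mul_le_mul_of_nonneg_left _ (by positivity)
          rw [div_le_div_iff₀ (by positivity) hs0]
          have h9 : (s : ℝ) ^ 81 ≤ (s : ℝ) ^ 84 := pow_le_pow_right₀ hs1 (by norm_num)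
          calc (n : ℝ) ^ 5 * (2 ^ 22 * (Nat.factorial 21 : ℝ)) * s
              ≤ (2 ^ 80 * (s : ℝ) ^ 80) * (2 ^ 22 * (Nat.factorial 21 : ℝ)) * s := by
                apply mul_le_mul_of_nonneg_right _ hs0.le
                exact mul_le_mul_of_nonneg_right hn5 (by positivity)
            _ = (2 ^ 102 * (Nat.factorial 21 : ℝ)) * (s : ℝ) ^ 81 := by ring
            _ ≤ (2 ^ 102 * (Nat.factorial 21 : ℝ)) * (s : ℝ) ^ 84 :=
                mul_le_mul_of_nonneg_left h9 (by positivity)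
  have h10 : bl (2 ^ n) h ≤ 2 ^ ((n + 1) * h) := by
    calc bl (2 ^ n) h ≤ (2 ^ n + 1) ^ h := bl_le _ _
      _ ≤ (2 ^ (n + 1)) ^ h := by
          apply Nat.pow_le_pow_left
          rw [pow_succ]
          have : 1 ≤ 2 ^ n := Nat.one_le_two_pow
          omega
      _ = 2 ^ ((n + 1) * h) := by rw [← pow_mul]
  calc (bl (2 ^ n) h : ℝ) ≤ (2 : ℝ) ^ ((n + 1) * h) := by exact_mod_cast h10
    _ = (2 : ℝ) ^ (((n : ℝ) + 1) * h) := by
        rw [← Real.rpow_natCast]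
        congr 1
        push_cast
        ring
    _ ≤ _ := Real.rpow_le_rpow_of_exponent_le (by norm_num) hexp

/-- the two other factors -/
lemma fac2 (hBl : BlStmt) (n N s u K : ℕ) (hs : 256 ≤ s) (hn : n < (s + 1) ^ 16) (hn1 : 1 ≤ n)
    (hN : 1 ≤ N) (hK : 1 ≤ K) (hK2 : K ≤ s ^ 6)
    (hu : (u : ℝ) ≤ K * N / (n * (s : ℝ) ^ 6)) :
    (bl (N * (2 * (bl n (s ^ 4)) ^ 2)) u : ℝ) ≤
      (2 : ℝ) ^ ((N : ℝ) / n * (3 * K / s)) := by
  have hs0 : (0 : ℝ) < s := by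
    have : (0 : ℕ) < s := by omega
    exact_mod_cast this
  have hs256 : (256 : ℝ) ≤ s := by exact_mod_cast hs
  have hn0 : (0 : ℝ) < n := by exact_mod_cast hn1
  have hN0 : (0 : ℝ) < N := by exact_mod_cast hN
  have hK0 : (1 : ℝ) ≤ K := by exact_mod_cast hK
  have h2s := big_pow s hs
  have hn2s : n + 1 ≤ 2 ^ s := by
    refine le_trans (Nat.succ_le_of_lt hn) (le_trans (Nat.pow_le_pow_left (by omega) 16) h2s)
  have hs6 : s ^ 6 ≤ 2 ^ s := by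
    refine le_trans ?_ h2s
    calc s ^ 6 ≤ s ^ 16 := Nat.pow_le_pow_right (by omega) (by norm_num)
      _ ≤ (2 * s) ^ 16 := Nat.pow_le_pow_left (by omega) 16
  have hbl : bl n (s ^ 4) ≤ 2 ^ (s ^ 5) := by
    calc bl n (s ^ 4) ≤ (n + 1) ^ (s ^ 4) := bl_le _ _
      _ ≤ (2 ^ s) ^ (s ^ 4) := Nat.pow_le_pow_left hn2s _
      _ = 2 ^ (s ^ 5) := by rw [← pow_mul]; ring_nf
  set B := bl n (s ^ 4) with hB
  have hB1 : 1 ≤ B := bl_pos _ _
  have hB1' : (1 : ℝ) ≤ B := by exact_mod_cast hB1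
  set y : ℝ := K * N / (n * (s : ℝ) ^ 6) with hy
  have hy0 : 0 < y := by positivity
  have hyn : y ≤ ((N * (2 * B ^ 2) : ℕ) : ℝ) := by
    push_cast
    rw [hy, div_le_iff₀ (by positivity)]
    have h11 : (K : ℝ) ≤ (s : ℝ) ^ 6 := by exact_mod_cast hK2
    have h12 : (1 : ℝ) ≤ n := by exact_mod_cast hn1
    have h13 : (1 : ℝ) ≤ 2 * (B : ℝ) ^ 2 := by nlinarith
    calc (K : ℝ) * N ≤ (s : ℝ) ^ 6 * N := mul_le_mul_of_nonneg_right h11 hN0.le
      _ = N * 1 * (1 * (s : ℝ) ^ 6) := by ring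
      _ ≤ N * (2 * (B : ℝ) ^ 2) * (n * (s : ℝ) ^ 6) := by
          apply mul_le_mul
          · exact mul_le_mul_of_nonneg_left h13 hN0.le
          · exact mul_le_mul_of_nonneg_right h12 (by positivity)
          · positivity
          · positivity
  have hq : ((N * (2 * B ^ 2) : ℕ) : ℝ) ≤ y * (2 : ℝ) ^ ((1 : ℝ) + 2 * (s : ℝ) ^ 5 + 2 * s) := by
    have e1 : (2 : ℝ) ^ ((1 : ℝ) + 2 * (s : ℝ) ^ 5 + 2 * s) =
        ((2 ^ (1 + 2 * s ^ 5 + 2 * s) : ℕ) : ℝ) := by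
      have e0 : (1 : ℝ) + 2 * (s : ℝ) ^ 5 + 2 * s = ((1 + 2 * s ^ 5 + 2 * s : ℕ) : ℝ) := by
        push_cast
        rfl
      rw [e0, Real.rpow_natCast]
      push_cast
      rfl
    have h14 : 2 * B ^ 2 * (n * s ^ 6) ≤ 2 ^ (1 + 2 * s ^ 5 + 2 * s) := by
      calc 2 * B ^ 2 * (n * s ^ 6) ≤ 2 * (2 ^ (s ^ 5)) ^ 2 * (2 ^ s * 2 ^ s) := by
            apply Nat.mul_le_mul
            · exact Nat.mul_le_mul_left _ (Nat.pow_le_pow_left hbl 2)
            · exact Nat.mul_le_mul (by omega) hs6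
        _ = 2 ^ (1 + 2 * s ^ 5 + 2 * s) := by
            have e9 : 1 + 2 * s ^ 5 + 2 * s = 1 + s ^ 5 * 2 + (s + s) := by ring
            rw [e9, pow_add, pow_add, pow_add, pow_one, ← pow_mul]
    have h14' : 2 * (B : ℝ) ^ 2 * (n * (s : ℝ) ^ 6) ≤ (2 : ℝ) ^ ((1 : ℝ) + 2 * (s : ℝ) ^ 5 + 2 * s) := by
      rw [e1]
      exact_mod_cast h14
    push_cast
    rw [hy, div_mul_eq_mul_div, le_div_iff₀ (by positivity)]
    calc (N : ℝ) * (2 * (B : ℝ) ^ 2) * (n * (s : ℝ) ^ 6)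
        = 1 * N * (2 * (B : ℝ) ^ 2 * (n * (s : ℝ) ^ 6)) := by ring
      _ ≤ K * N * (2 : ℝ) ^ ((1 : ℝ) + 2 * (s : ℝ) ^ 5 + 2 * s) := by
          apply mul_le_mul _ h14' (by positivity) (by positivity)
          exact mul_le_mul_of_nonneg_right hK0 hN0.le
  refine le_trans (blu hBl _ u y _ hu hy0 hyn hq) ?_
  apply Real.rpow_le_rpow_of_exponent_le (by norm_num)
  have h15 : 2 + ((1 : ℝ) + 2 * (s : ℝ) ^ 5 + 2 * s) ≤ 3 * (s : ℝ) ^ 5 := by
    have h16 : (s : ℝ) * 256 ≤ (s : ℝ) ^ 5 := by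
      calc (s : ℝ) * 256 ≤ s * s := mul_le_mul_of_nonneg_left hs256 hs0.le
        _ = (s : ℝ) ^ 2 := by ring
        _ ≤ (s : ℝ) ^ 5 := pow_le_pow_right₀ (by linarith) (by norm_num)
    linarith
  calc (2 + ((1 : ℝ) + 2 * (s : ℝ) ^ 5 + 2 * s)) * y ≤ (3 * (s : ℝ) ^ 5) * y :=
        mul_le_mul_of_nonneg_right h15 hy0.le
    _ = (N : ℝ) / n * (3 * K / s) := by
        rw [hy]
        field_simp

theorem num (hBl : BlStmt) (hCen : CenStmt) : NumStmt := by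
  intro η hη
  obtain ⟨n₁, hn₁⟩ := hCen.1
  set Cc : ℝ := 2 * (2 ^ 102 * (Nat.factorial 21 : ℝ)) + 99 with hCc
  set s₀ : ℕ := max 256 (⌈Cc / η⌉₊) with hs₀
  refine ⟨max n₁ (max 1 ((s₀ + 1) ^ 16)), ?_⟩
  intro n hn r hcen
  have hnn₁ : n₁ ≤ n := le_trans (le_max_left _ _) hn
  have hn1 : 1 ≤ n := le_trans (le_trans (le_max_left _ _) (le_max_right _ _)) hn
  have hns : (s₀ + 1) ^ 16 ≤ n := le_trans (le_trans (le_max_right _ _) (le_max_right _ _)) hn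
  obtain ⟨hr1, hr2⟩ := hn₁ n hnn₁ r hcen
  obtain ⟨s, hsle, hslt⟩ := root16 n
  have hss : s₀ ≤ s := by
    have h1 : (s₀ + 1) ^ 16 < (s + 1) ^ 16 := lt_of_le_of_lt hns hslt
    have h2 : s₀ + 1 < s + 1 := lt_of_pow_lt_pow_left₀ 16 (Nat.zero_le _) h1
    omega
  have hs : 256 ≤ s := le_trans (le_max_left _ _) hss
  have hsη : Cc / η ≤ s := by
    refine le_trans (Nat.le_ceil _) ?_
    exact_mod_cast le_trans (le_max_right _ _) hss
  set N := n.choose r with hNdef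
  have hN1 : 1 ≤ N := Nat.choose_pos hcen.1
  set t := s ^ 4 with ht
  set Δ₁ := n * s ^ 6 with hΔ₁
  set Δ₂ := s ^ 12 with hΔ₂
  have hs1 : 1 ≤ s := by omega
  have ht42 : 42 ≤ t := by
    calc 42 ≤ 256 ^ 4 := by norm_num
      _ ≤ s ^ 4 := Nat.pow_le_pow_left hs 4
  have hΔ₁1 : 1 ≤ Δ₁ := Nat.mul_pos hn1 (Nat.pow_pos (by omega))
  have hΔ₂1 : 1 ≤ Δ₂ := Nat.pow_pos (by omega)
  have hΔt : 4 * (Δ₂ + t) ≤ n := by
    refine le_trans ?_ hsle
    have h3 : s ^ 4 ≤ s ^ 12 := Nat.pow_le_pow_right hs1 (by norm_num)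
    have h4 : s ^ 16 = s ^ 12 * s ^ 4 := by rw [← pow_add]
    have h5 : 8 ≤ s ^ 4 := by
      rw [ht] at ht42
      omega
    calc 4 * (Δ₂ + t) ≤ 4 * (s ^ 12 + s ^ 12) := by
          rw [hΔ₂, ht]; omega
      _ = s ^ 12 * 8 := by ring
      _ ≤ s ^ 12 * s ^ 4 := Nat.mul_le_mul_left _ h5
      _ = s ^ 16 := h4.symm
  have hrn : r ≤ n := hcen.1
  have hrpos : 0 < r := by omega
  have hrpos' : 0 < r * (n - r + 1) := Nat.mul_pos hrpos (by omega)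
  set u₁ := N / Δ₁ with hu₁
  set a₁ := N * (Δ₁ + r) / (r * (n - r + 1)) with ha₁
  set u₂ := a₁ / Δ₂ with hu₂
  set h := 2 ^ n / t.choose 21 with hh
  refine ⟨t, Δ₁, Δ₂, 21, h, u₁, a₁, u₂, by omega, by omega, hΔ₁1, hΔ₂1, by omega, by omega,
    ?_, ?_, ?_, ?_, ?_⟩
  · have h6 : 0 < t.choose 21 := Nat.choose_pos (by omega)
    rw [mul_comm]
    exact Nat.lt_mul_div_succ _ h6
  · exact Nat.lt_mul_div_succ _ (by omega)
  · rw [mul_comm (a₁ + 1)]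
    exact Nat.lt_mul_div_succ _ hrpos'
  · exact Nat.lt_mul_div_succ _ (by omega)
  · have hs0r : (0 : ℝ) < s := by exact_mod_cast hs1
    have hn0 : (0 : ℝ) < n := by exact_mod_cast hn1
    have hN0 : (0 : ℝ) < N := by exact_mod_cast hN1
    have F1 := fac1 n N s hs hslt hn1 hcen.2
    have hu₁r : (u₁ : ℝ) ≤ (1 : ℕ) * N / (n * (s : ℝ) ^ 6) := by
      have h7 := @Nat.cast_div_le ℝ _ _ _ N Δ₁
      rw [hu₁]
      refine le_trans h7 (le_of_eq ?_)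
      rw [hΔ₁]
      push_cast
      ring
    have F2 := fac2 hBl n N s u₁ 1 hs hslt hn1 hN1 (le_refl 1) (Nat.pow_pos (by omega)) hu₁r
    have ha₁r : (a₁ : ℝ) ≤ 32 * N * (s : ℝ) ^ 6 / n := by
      have h8 := @Nat.cast_div_le ℝ _ _ _ (N * (Δ₁ + r)) (r * (n - r + 1))
      refine le_trans h8 ?_
      have hr1' : (n : ℝ) ≤ 4 * r := by exact_mod_cast hr1
      have hr2' : (n : ℝ) ≤ 4 * ((n - r + 1 : ℕ) : ℝ) := by
        exact_mod_cast (by omega : n ≤ 4 * (n - r + 1))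
      have h9 : (n : ℝ) * n ≤ 16 * ((r * (n - r + 1) : ℕ) : ℝ) := by
        rw [Nat.cast_mul]
        calc (n : ℝ) * n ≤ (4 * r) * (4 * ((n - r + 1 : ℕ) : ℝ)) :=
              mul_le_mul hr1' hr2' hn0.le (by positivity)
          _ = _ := by ring
      have h10 : ((N * (Δ₁ + r) : ℕ) : ℝ) ≤ N * (2 * (n * (s : ℝ) ^ 6)) := by
        rw [Nat.cast_mul]
        apply mul_le_mul_of_nonneg_left _ hN0.le
        rw [hΔ₁]
        push_cast
        have h11 : (r : ℝ) ≤ n * (s : ℝ) ^ 6 := by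
          have h12 : r ≤ n * s ^ 6 := by
            calc r ≤ n * 1 := by omega
              _ ≤ n * s ^ 6 := Nat.mul_le_mul_left _ (Nat.pow_pos (by omega))
          exact_mod_cast h12
        linarith
      have h13 : (0 : ℝ) < ((r * (n - r + 1) : ℕ) : ℝ) := by exact_mod_cast hrpos'
      rw [div_le_div_iff₀ h13 hn0]
      calc ((N * (Δ₁ + r) : ℕ) : ℝ) * n ≤ (N * (2 * (n * (s : ℝ) ^ 6))) * n :=
            mul_le_mul_of_nonneg_right h10 hn0.le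
        _ = (2 * N * (s : ℝ) ^ 6) * ((n : ℝ) * n) := by ring
        _ ≤ (2 * N * (s : ℝ) ^ 6) * (16 * ((r * (n - r + 1) : ℕ) : ℝ)) :=
            mul_le_mul_of_nonneg_left h9 (by positivity)
        _ = 32 * N * (s : ℝ) ^ 6 * ((r * (n - r + 1) : ℕ) : ℝ) := by ring
    have hu₂r : (u₂ : ℝ) ≤ (32 : ℕ) * N / (n * (s : ℝ) ^ 6) := by
      have h14 := @Nat.cast_div_le ℝ _ _ _ a₁ Δ₂
      refine le_trans h14 ?_
      rw [hΔ₂]
      push_cast
      rw [div_le_div_iff₀ (by positivity) (by positivity)]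
      rw [le_div_iff₀ hn0] at ha₁r
      calc (a₁ : ℝ) * (n * (s : ℝ) ^ 6) = (a₁ * n) * (s : ℝ) ^ 6 := by ring
        _ ≤ (32 * N * (s : ℝ) ^ 6) * (s : ℝ) ^ 6 :=
            mul_le_mul_of_nonneg_right ha₁r (by positivity)
        _ = 32 * N * (s : ℝ) ^ 12 := by ring
    have hK32 : 32 ≤ s ^ 6 := by
      calc 32 ≤ 256 ^ 6 := by norm_num
        _ ≤ s ^ 6 := Nat.pow_le_pow_left hs 6
    have F3 := fac2 hBl n N s u₂ 32 hs hslt hn1 hN1 (by norm_num) hK32 hu₂r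
    set L : ℝ := (N : ℝ) / n with hL
    have hL0 : 0 < L := by positivity
    set C1 : ℝ := 2 ^ 102 * (Nat.factorial 21 : ℝ) with hC1
    rw [Nat.cast_mul, Nat.cast_mul, Nat.cast_pow]
    have G1 : ((bl (2 ^ n) h : ℝ)) ^ 2 ≤ (2 : ℝ) ^ (L * (2 * C1 / s)) := by
      calc ((bl (2 ^ n) h : ℝ)) ^ 2 ≤ ((2 : ℝ) ^ (L * (C1 / s))) ^ 2 :=
            pow_le_pow_left₀ (Nat.cast_nonneg _) F1 2
        _ = (2 : ℝ) ^ (L * (2 * C1 / s)) := by
            rw [← Real.rpow_natCast ((2 : ℝ) ^ (L * (C1 / s))) 2, ← Real.rpow_mul (by norm_num)]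
            congr 1
            push_cast
            ring
    calc ((bl (2 ^ n) h : ℝ)) ^ 2 * (bl (N * (2 * (bl n t) ^ 2)) u₁ : ℝ) *
          (bl (N * (2 * (bl n t) ^ 2)) u₂ : ℝ)
        ≤ (2 : ℝ) ^ (L * (2 * C1 / s)) * (2 : ℝ) ^ (L * (3 * (1 : ℕ) / s)) *
          (2 : ℝ) ^ (L * (3 * (32 : ℕ) / s)) := by
          apply mul_le_mul _ F3 (Nat.cast_nonneg _) (by positivity)
          exact mul_le_mul G1 F2 (Nat.cast_nonneg _) (by positivity)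
      _ = (2 : ℝ) ^ (L * (Cc / s)) := by
          rw [← Real.rpow_add (by norm_num), ← Real.rpow_add (by norm_num)]
          congr 1
          rw [hCc]
          push_cast
          ring
      _ ≤ (2 : ℝ) ^ (η * N / n) := by
          apply Real.rpow_le_rpow_of_exponent_le (by norm_num)
          have h15 : Cc / s ≤ η := by
            rw [div_le_iff₀ hs0r]
            rw [div_le_iff₀ hη] at hsη
            linarith
          calc L * (Cc / s) ≤ L * η := mul_le_mul_of_nonneg_left h15 hL0.le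
            _ = η * N / n := by rw [hL]; ring

end Pool.Agent.Helper94.KC
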