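import Mathlib

/-!
# Kempe equivalence of 5-colourings on surfaces (MP_bf413e_co): definitions
-/

set_option autoImplicit false

namespace Pool.Agent.Helper94.KC

open scoped Classical
open Finset

/-! ### Kempe equivalence -/

/-- a proper colouring with five colours -/
def Proper {V : Type} (G : SimpleGraph V) (f : V → Fin 5) : Prop := ∀ u v, G.Adj u v → f u ≠ f v

/-- `y` is in the Kempe chain of `x` for the colours `a`, `b` -/
def InChain {V : Type} (G : SimpleGraph V) (f : V → Fin 5) (a b : Fin 5) (x y : V) : Prop :=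
  ∃ (hx : x ∈ {v | f v = a ∨ f v = b}) (hy : y ∈ {v | f v = a ∨ f v = b}),
    (G.induce {v | f v = a ∨ f v = b}).Reachable ⟨x, hx⟩ ⟨y, hy⟩

/-- a Kempe change: the colours `a` and `b` are exchanged on the chain of `x` -/
def KStep {V : Type} (G : SimpleGraph V) (f g : V → Fin 5) : Prop :=
  ∃ (a b : Fin 5) (x : V), (f x = a ∨ f x = b) ∧
    ∀ y, (InChain G f a b x y → g y = Equiv.swap a b (f y)) ∧ (¬ InChain G f a b x y → g y = f y)

/-- Kempe equivalence -/
def KEq {V : Type} (G : SimpleGraph V) : (V → Fin 5) → (V → Fin 5) → Prop :=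
  Relation.ReflTransGen (KStep G)

/-- all 5-colourings are Kempe equivalent -/
def AllEq {V : Type} (G : SimpleGraph V) : Prop :=
  ∀ f g : V → Fin 5, Proper G f → Proper G g → KEq G f g

/-! ### degeneracy, quotients -/

/-- the number of neighbours of `x` in `R` -/
noncomputable def dR {V : Type} (G : SimpleGraph V) (R : Finset V) (x : V) : ℕ :=
  (R.filter (fun y => G.Adj x y)).card

/-- the subgraph on `S` is 4-degenerate -/
def Deg4 {V : Type} (G : SimpleGraph V) (S : Finset V) : Prop :=
  ∀ R ⊆ S, R.Nonempty → ∃ x ∈ R, dR G R x ≤ 4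

/-- the image of the graph `G` under the map `r` (on the same vertex set) -/
def QG {V : Type} (G : SimpleGraph V) (r : V → V) : SimpleGraph V where
  Adj x y := x ≠ y ∧ ∃ u v, r u = x ∧ r v = y ∧ G.Adj u v
  symm := ⟨by
    rintro x y ⟨h, u, v, hu, hv, huv⟩
    exact ⟨h.symm, v, u, hv, hu, huv.symm⟩⟩
  loopless := ⟨fun x h => h.1 rfl⟩

/-! ### the triangular lattice -/

/-- the norm of the triangular lattice; the neighbours of `p` are the `q` with `hn (q - p) = 1` -/
def hn (p : ℤ × ℤ) : ℕ := max (max p.1.natAbs p.2.natAbs) (p.1 + p.2).natAbs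

/-- the ball of radius `n` -/
noncomputable def hB (n : ℕ) : Finset (ℤ × ℤ) :=
  (Icc (-(n : ℤ)) n ×ˢ Icc (-(n : ℤ)) n).filter (fun p => hn p ≤ n)

/-- a good identification of points of the ball of radius 3: in the quotient of the ball of radius 6
all (blocks of) points of the ball of radius 5 can be deleted one after the other, each having at
most 4 remaining neighbours; the points at distance 6 are never deleted -/
structure Good (r : ℤ × ℤ → ℤ × ℤ) : Prop where
  idem : ∀ p, r (r p) = r p
  out : ∀ p, 3 < hn p → r p = p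
  inn : ∀ p, hn p ≤ 3 → hn (r p) ≤ 3
  del : ∀ R : Finset (ℤ × ℤ), R.Nonempty → (∀ x ∈ R, hn x ≤ 5 ∧ r x = x) →
    ∃ x ∈ R, ((hB 6).filter (fun y => (y ∈ R ∨ hn y = 6) ∧ y ≠ x ∧
      ∃ p q, r p = x ∧ r q = y ∧ hn (q - p) = 1)).card ≤ 4

/-- a flat patch: an embedded ball of radius 6 of the triangular lattice, such that the points at
distance at most 5 have no other neighbours -/
structure Patch {V : Type} (G : SimpleGraph V) (i : ℤ × ℤ → V) : Prop where
  inj : ∀ p q, hn p ≤ 6 → hn q ≤ 6 → i p = i q → p = q
  nb : ∀ p, hn p ≤ 5 → ∀ v, G.Adj (i p) v ↔ ∃ q, hn (q - p) = 1 ∧ i q = v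

/-- the points at distance at most 5 of a patch -/
noncomputable def core {V : Type} (i : ℤ × ℤ → V) : Finset V := (hB 5).image i

/-! ### triangulated surfaces -/

/-- the graph of a set of triangles -/
def sk {V : Type} (T : Finset (Finset V)) : SimpleGraph V where
  Adj u v := u ≠ v ∧ ∃ t ∈ T, u ∈ t ∧ v ∈ t
  symm := ⟨by
    rintro u v ⟨h, t, ht, hu, hv⟩
    exact ⟨h.symm, t, ht, hv, hu⟩⟩
  loopless := ⟨fun x h => h.1 rfl⟩

/-- the link of a vertex -/
def lk {V : Type} (T : Finset (Finset V)) (v : V) : SimpleGraph V where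
  Adj u w := u ≠ w ∧ u ≠ v ∧ w ≠ v ∧ ∃ t ∈ T, v ∈ t ∧ u ∈ t ∧ w ∈ t
  symm := ⟨by
    rintro u w ⟨h, hu, hw, t, ht, h1, h2, h3⟩
    exact ⟨h.symm, hw, hu, t, ht, h1, h3, h2⟩⟩
  loopless := ⟨fun x h => h.1 rfl⟩

/-- `T` is the set of triangles of a triangulation of a closed connected surface with vertex set
`V` -/
structure Surf {V : Type} [Fintype V] (T : Finset (Finset V)) : Prop where
  card : ∀ t ∈ T, t.card = 3
  cover : ∀ v : V, ∃ t ∈ T, v ∈ t
  two : ∀ u v, (sk T).Adj u v → (T.filter (fun t => u ∈ t ∧ v ∈ t)).card = 2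
  link : ∀ v u w, (sk T).Adj v u → (sk T).Adj v w → (lk T v).Reachable u w
  conn : (sk T).Connected

/-- the degree of a vertex -/
noncomputable def dg {V : Type} [Fintype V] (T : Finset (Finset V)) (v : V) : ℕ :=
  dR (sk T) univ v

/-- the edges, as two-element sets -/
noncomputable def ed {V : Type} [Fintype V] (T : Finset (Finset V)) : Finset (Finset V) :=
  univ.filter (fun e => e.card = 2 ∧ ∃ t ∈ T, e ⊆ t)

/-- the Euler characteristic -/
noncomputable def chi {V : Type} [Fintype V] (T : Finset (Finset V)) : ℤ :=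
  Fintype.card V - (ed T).card + T.card

/-- the mod 2 boundary of a set of triangles -/
noncomputable def bd {V : Type} [Fintype V] (T D : Finset (Finset V)) : Finset (Finset V) :=
  (ed T).filter (fun e => Odd (D.filter (fun t => e ⊆ t)).card)

/-- mod 2 cycles: sets of edges such that every vertex is in an even number of them -/
def Even2 {V : Type} (z : Finset (Finset V)) : Prop := ∀ v, Even (z.filter (fun e => v ∈ e)).card

/-- `z` is the boundary of a set of triangles -/
def Bounds {V : Type} [Fintype V] (T z : Finset (Finset V)) : Prop := ∃ D ⊆ T, bd T D = z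

/-- the edge set of a walk -/
noncomputable def wed {V : Type} {G : SimpleGraph V} {x y : V} (w : G.Walk x y) :
    Finset (Finset V) := (w.edges.map (fun e => e.toFinset)).toFinset

/-- the vertices of a set of triangles (or edges) -/
noncomputable def vs {V : Type} [Fintype V] (D : Finset (Finset V)) : Finset V :=
  univ.filter (fun v => ∃ t ∈ D, v ∈ t)

/-- the set of triangles `D` is a closed disc, whose boundary has the edge set `z` -/
structure Disc {V : Type} [Fintype V] (T D z : Finset (Finset V)) : Prop where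
  sub : D ⊆ T
  bdy : bd T D = z
  conn : ∀ u ∈ vs D, ∀ v ∈ vs D, (sk D).Reachable u v
  euler : ((vs D).card : ℤ) - (ed D).card + D.card = 1

/-- edge-width at least `c`: every cycle of length less than `c` is contractible, that is, it
is the boundary of a closed disc -/
def EW {V : Type} [Fintype V] (T : Finset (Finset V)) (c : ℕ) : Prop :=
  ∀ (x : V) (w : (sk T).Walk x x), w.IsCycle → w.length < c → ∃ D, Disc T D (wed w)

end Pool.Agent.Helper94.KC
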