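import Pool.Agent.Helper94.KC.TAS
import Pool.Agent.Helper30.KC.FinI

/-!
# Project KC (MP_bf413e_co): hubs do not percolate, for all subgraphs of the triangulation
-/

set_option autoImplicit false

namespace Pool.Agent.Helper94.KC

open scoped Classical
open Finset
open Pool.Agent.Helper30.KC
open Pool.Agent.Helper30.ML (Mac rs del StmtBR StmtMEY StmtD4 StmtSU)
open Pool.Agent.Helper23.KC (gr_adj dR_mono)
open Pool.Agent.Helper92.KI (del_rs dR_rs)
open Pool.Agent.Helper12.KC (core_conn)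
open Pool.Agent.Helper4.KC (mem_hB)

theorem dR_le {V : Type} {G H : SimpleGraph V} (h : G ≤ H) (S : Finset V) (x : V) :
    dR G S x ≤ dR H S x := by
  apply Finset.card_le_card
  intro y hy
  rw [Finset.mem_filter] at hy ⊢
  exact ⟨hy.1, h hy.2⟩

/-- deletion in a subgraph -/
theorem sgrow {V : Type} [Fintype V] (hD4 : StmtD4) (H G : SimpleGraph V) (hGH : G ≤ H)
    (R S₀ : Finset V) (h5 : ∀ x ∈ R, 5 ≤ dR H R x)
    (hmax : ∀ R' ⊆ S₀, (∀ x ∈ R', 5 ≤ dR H R' x) → R' ⊆ R)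
    (hR : AllEq (rs G (R : Set V))) :
    ∀ (k : ℕ) (S : Finset V), R ⊆ S → S ⊆ S₀ → (S \ R).card = k → AllEq (rs G (S : Set V)) := by
  intro k
  induction k with
  | zero =>
    intro S h1 h2 h3
    rw [Finset.card_eq_zero, Finset.sdiff_eq_empty_iff_subset] at h3
    rw [Finset.Subset.antisymm h3 h1]
    exact hR
  | succ k ih =>
    intro S h1 h2 h3
    have h4 : ¬ ∀ x ∈ S, 5 ≤ dR H S x := by
      intro h
      have h5 := hmax S h2 h
      rw [Finset.sdiff_eq_empty_iff_subset.2 h5] at h3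
      simp at h3
    push Not at h4
    obtain ⟨x, hxS, hx⟩ := h4
    have hxR : x ∉ R := by
      intro hxR
      have h6 := h5 x hxR
      have h7 : dR H R x ≤ dR H S x := dR_mono (fun y hy _ => h1 hy)
      omega
    refine hD4 V (rs G (S : Set V)) x ?_ ?_
    · have h8 := dR_rs G S x
      have h9 := dR_le hGH S x
      omega
    · rw [del_rs]
      refine ih (S.erase x) ?_ ?_ ?_
      · intro y hy
        rw [Finset.mem_erase]
        refine ⟨?_, h1 hy⟩
        rintro rfl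
        exact hxR hy
      · exact (Finset.erase_subset _ _).trans h2
      · have h6 : (S.erase x) \ R = (S \ R).erase x := by
          ext y
          simp only [Finset.mem_sdiff, Finset.mem_erase]
          tauto
        rw [h6, Finset.card_erase_of_mem (Finset.mem_sdiff.2 ⟨hxS, hxR⟩), h3]
        rfl

/-- the undeleted part, for all subgraphs -/
def StmtDWs : Prop := ∀ (V : Type) [Fintype V] (T : Finset (Finset V)), Surf T →
  ∀ B : Finset V, B.Nonempty → ConW T B → ∃ R W : Finset V, R ⊆ W ∧ Disjoint W B ∧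
    (∀ G ≤ sk T, AllEq (rs G (R : Set V)) → AllEq (rs G ((univ \ B : Finset V) : Set V))) ∧
    ConW T (univ \ W) ∧
    (∀ x ∈ W, (∃ u, u ∉ W ∧ (sk T).Adj x u) → 5 ≤ dR (sk T) W x)

theorem dws (hD4 : StmtD4) : StmtDWs := by
  intro V _ T hT B hB hBc
  obtain ⟨b, hb⟩ := hB
  let Fam : Finset (Finset V) := univ.filter fun R' => R' ⊆ univ \ B ∧ ∀ x ∈ R', 5 ≤ dR (sk T) R' x
  let R : Finset V := Fam.sup id
  have hsub : ∀ R' ∈ Fam, R' ⊆ R := fun R' h => Finset.le_sup (f := id) h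
  have hmem : ∀ x ∈ R, ∃ R' ∈ Fam, x ∈ R' := by
    intro x hx
    obtain ⟨R', h1, h2⟩ := Finset.mem_sup.1 hx
    exact ⟨R', h1, h2⟩
  have hR1 : R ⊆ univ \ B := by
    intro x hx
    obtain ⟨R', h1, h2⟩ := hmem x hx
    exact (Finset.mem_filter.1 h1).2.1 h2
  have hR2 : ∀ x ∈ R, 5 ≤ dR (sk T) R x := by
    intro x hx
    obtain ⟨R', h1, h2⟩ := hmem x hx
    refine le_trans ((Finset.mem_filter.1 h1).2.2 x h2) ?_
    exact dR_mono (fun y hy _ => hsub R' h1 hy)
  have hR3 : ∀ R' ⊆ univ \ B, (∀ x ∈ R', 5 ≤ dR (sk T) R' x) → R' ⊆ R := by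
    intro R' h1 h2
    exact hsub R' (Finset.mem_filter.2 ⟨Finset.mem_univ _, h1, h2⟩)
  let U : Finset V := univ.filter fun x => (rs (sk T) (Rᶜ : Set V)).Reachable b x
  have hU : ∀ x, x ∈ U ↔ (rs (sk T) (Rᶜ : Set V)).Reachable b x := by
    intro x
    show x ∈ univ.filter _ ↔ _
    rw [Finset.mem_filter]
    simp
  have hbR : b ∉ R := by
    intro h
    exact (Finset.mem_sdiff.1 (hR1 h)).2 hb
  have hUR : ∀ x ∈ U, x ∉ R := by
    intro x hx
    rw [hU, SimpleGraph.reachable_iff_reflTransGen] at hx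
    cases hx with
    | refl => exact hbR
    | tail h1 h2 => exact h2.2.2
  have hbU : b ∈ U := (hU b).2 (SimpleGraph.Reachable.refl _)
  have hstep : ∀ x y, x ∈ U → y ∉ R → (sk T).Adj x y → y ∈ U := by
    intro x y hx hy hxy
    rw [hU] at hx ⊢
    refine hx.trans (SimpleGraph.Adj.reachable ?_)
    exact ⟨hxy, hUR x ((hU x).2 hx), hy⟩
  have hBU : B ⊆ U := by
    intro x hx
    have h1 := hBc b hb x hx
    rw [SimpleGraph.reachable_iff_reflTransGen] at h1
    clear hx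
    induction h1 with
    | refl => exact hbU
    | tail h1 h2 ih =>
      rw [gr_adj] at h2
      refine hstep _ _ ih ?_ h2.1
      intro h3
      exact (Finset.mem_sdiff.1 (hR1 h3)).2 h2.2.2
  have hUU : univ \ (univ \ U) = U := Finset.sdiff_sdiff_eq_self (Finset.subset_univ _)
  refine ⟨R, univ \ U, ?_, ?_, ?_, ?_, ?_⟩
  · intro x hx
    rw [Finset.mem_sdiff]
    exact ⟨Finset.mem_univ _, fun h => hUR x h hx⟩
  · rw [Finset.disjoint_left]
    intro x hx hxB
    exact (Finset.mem_sdiff.1 hx).2 (hBU hxB)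
  · intro G hG hall
    exact sgrow hD4 (sk T) G hG R (univ \ B) hR2 hR3 hall _ (univ \ B) hR1 (le_refl _) rfl
  · rw [hUU]
    have h1 : ∀ x ∈ U, (gr (edW T U)).Reachable b x := by
      intro x hx
      rw [hU, SimpleGraph.reachable_iff_reflTransGen] at hx
      induction hx with
      | refl => exact SimpleGraph.Reachable.refl _
      | tail h1 h2 ih =>
        refine ih.trans (SimpleGraph.Adj.reachable ?_)
        rw [gr_adj]
        rw [← SimpleGraph.reachable_iff_reflTransGen] at h1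
        have h3 := (hU _).2 h1
        exact ⟨h2.1, h3, hstep _ _ h3 h2.2.2 h2.1⟩
    intro x hx y hy
    exact (h1 x hx).symm.trans (h1 y hy)
  · rintro x hx ⟨u, hu, hxu⟩
    have hxU : x ∉ U := (Finset.mem_sdiff.1 hx).2
    have huU : u ∈ U := by
      by_contra h
      exact hu (Finset.mem_sdiff.2 ⟨Finset.mem_univ _, h⟩)
    have hxR : x ∈ R := by
      by_contra h
      exact hxU (hstep u x huU h hxu.symm)
    refine le_trans (hR2 x hxR) (dR_mono (fun y hy _ => ?_))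
    rw [Finset.mem_sdiff]
    exact ⟨Finset.mem_univ _, fun h => hUR y h hy⟩


/-- the complement of a patch, for all subgraphs -/
theorem dps (V : Type) [Fintype V] (T : Finset (Finset V)) (ρ l : ℕ) (hS : Surf T)
    (hHD : HD T ρ) (hEW : EW T (2 * ρ + 6)) (x₀ : V) (w : (sk T).Walk x₀ x₀)
    (hw : Shortest T w) (x : V) (hx : x ∈ w.support) (i : ℤ × ℤ → V) (hi : Patch (sk T) i)
    (hdx : (sk T).dist (i (0, 0)) x ≤ l)
    (hhub : ∀ h, 7 ≤ dg T h → l + 2 * ρ + 4 < (sk T).dist (i (0, 0)) h)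
    (G : SimpleGraph V) (hG : G ≤ sk T) :
    AllEq (rs G ((univ \ core i : Finset V) : Set V)) := by
  have h00 : i (0, 0) ∈ core i := by
    unfold core
    exact mem_image_of_mem _ ((mem_hB _ _).2 (by simp [hn]))
  have h10 : i (1, 0) ∈ core i := by
    unfold core
    exact mem_image_of_mem _ ((mem_hB _ _).2 (by simp [hn]))
  obtain ⟨R, W, hRW, hdis, hAll, hconU, hstk⟩ :=
    dws Pool.Agent.Helper30.ML.d4 V T hS (core i) ⟨_, h00⟩ (core_conn T i hi)
  have hx0 : i (0, 0) ∉ W := fun h => disjoint_left.mp hdis h h00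
  have hu0 : i (1, 0) ∉ W := fun h => disjoint_left.mp hdis h h10
  have hadj : (sk T).Adj (i (0, 0)) (i (1, 0)) :=
    (hi.nb (0, 0) (by simp [hn]) _).2 ⟨(1, 0), by simp [hn], rfl⟩
  have hbm := bm V T hS W (i (0, 0)) (i (1, 0)) l hstk hx0 hu0 hadj
    (fun h h7 => by have := hhub h h7; omega)
  have hxW : ∀ y, (sk T).dist x y ≤ 1 → y ∉ W := fun y hy =>
    hbm y (by have := hS.conn.dist_triangle (u := i (0, 0)) (v := x) (w := y); omega)
  have hxh : ∀ h, 7 ≤ dg T h → 2 * ρ + 4 < (sk T).dist x h := fun h h7 => by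
    have h1 := hhub h h7
    have h2 := hS.conn.dist_triangle (u := i (0, 0)) (v := x) (w := h)
    omega
  have hfw := fw V T W ρ hS hHD hEW hconU ⟨_, _, hx0, hu0, hadj⟩ hstk x₀ w hw x hx hxh hxW
  have hmacW : Mac (rs (sk T) (W : Set V)) := Pool.Agent.Helper30.ML.br V T hS W hfw
  have hmacR : Mac (rs G (R : Set V)) := by
    refine Pool.Agent.Helper30.ML.su V _ _ ?_ hmacW
    intro a b hab
    exact ⟨hG hab.1, hRW hab.2.1, hRW hab.2.2⟩
  exact hAll G hG (Pool.Agent.Helper30.ML.meyniel V _ hmacR)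

/-- hubs do not percolate: all subgraphs -/
def StmtTIs : Prop := ∀ (V : Type) [Fintype V] (T : Finset (Finset V)) (ρ l : ℕ), Surf T →
  HD T ρ → EW T (2 * ρ + 6) → ∀ (x₀ : V) (w : (sk T).Walk x₀ x₀), Shortest T w →
  ∀ (x₁ x₂ : V) (i₁ i₂ : ℤ × ℤ → V), x₁ ∈ w.support → x₂ ∈ w.support →
  Patch (sk T) i₁ → Patch (sk T) i₂ → (∀ p q, hn p ≤ 6 → hn q ≤ 6 → i₁ p ≠ i₂ q) →
  (sk T).dist (i₁ (0, 0)) x₁ ≤ l → (sk T).dist (i₂ (0, 0)) x₂ ≤ l →
  (∀ h, 7 ≤ dg T h → l + 2 * ρ + 4 < (sk T).dist (i₁ (0, 0)) h ∧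
    l + 2 * ρ + 4 < (sk T).dist (i₂ (0, 0)) h) → ∀ G ≤ sk T, AllEq G

theorem tis (LLs : StmtLLs) : StmtTIs := by
  intro V _ T ρ l hT hD hE x₀ w hw x₁ x₂ i₁ i₂ h1 h2 p1 p2 hd d1 d2 hh G hG
  have e1 := dps V T ρ l hT hD hE x₀ w hw x₁ h1 i₁ p1 d1 (fun h h7 => (hh h h7).1) G hG
  have e2 := dps V T ρ l hT hD hE x₀ w hw x₂ h2 i₂ p2 d2 (fun h h7 => (hh h h7).2) G hG
  exact tas LLs G i₁ i₂ (p1.sub hG) (p2.sub hG) hd e1 e2

end Pool.Agent.Helper94.KC
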