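import Pool.Agent.Helper30.KC.GoalsT
import Pool.Agent.Helper96.KT.TT
import Pool.Agent.Helper94.KC.TIS

/-!
# Project KC (MP_bf413e_co): boundedly many vertices of degree at most 5, all subgraphs
-/

set_option autoImplicit false

namespace Pool.Agent.Helper94.KC

open scoped Classical
open Finset
open Pool.Agent.Helper30.KC
open Pool.Agent.Helper96.KT (ew_mono dev_dist)
open Pool.Agent.Helper30.ML (Mac rs del StmtBR StmtMEY)

/-- for every surface and every `t`: all subgraphs of triangulations of large edge-width and of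
total deficiency at most `t` -/
def StmtTTs : Prop := ∀ N t : ℕ, ∃ c : ℕ, ∀ (V : Type) [Fintype V] (T : Finset (Finset V)),
  Surf T → -(N : ℤ) ≤ chi T → ∑ v : V, (6 - dg T v) ≤ t → EW T c → ∀ G ≤ sk T, AllEq G

theorem tts_of (hTI : StmtTIs) (hIJ : StmtIJ2) (hDV : StmtDV) (hDS : StmtDS) (hEX : StmtEX2)
    (hNH : StmtNH) (hHM : StmtHM) (hSZ : StmtSZ) (hBR : StmtBR) (hMEY : StmtMEY) : StmtTTs := by
  intro N t
  refine ⟨(6 * N + 2 * t) * (4 * (2 * (2 * (6 * N + t)) + 20) + 1) + 161 * (t + 2) +
    2 * (2 * (6 * N + t)) + 20, ?_⟩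
  intro V _ T hT hchi hdef hEW G hG
  by_cases hb : ∀ z ⊆ ed T, Even2 z → Bounds T z
  · have h1 := hBR V T hT univ (by
      intro z hz hev
      have hz' : z ⊆ ed T := fun e he => (mem_filter.1 (hz he)).1
      obtain ⟨D, hD, hDz⟩ := hb z hz' hev
      refine ⟨D, fun s hs => mem_filter.2 ⟨hD hs, subset_univ s⟩, hDz⟩)
    have h2 : rs (sk T) ((univ : Finset V) : Set V) = sk T := by
      ext a b
      simp [rs]
    rw [h2] at h1
    exact hMEY V G (Pool.Agent.Helper30.ML.su V _ _ hG h1)
  · push Not at hb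
    obtain ⟨x₀, w, hw, hcw⟩ := hSZ V T _ hT hEW hb
    obtain ⟨hhub, hZ⟩ := hNH V T N t hT hchi hdef
    have hHD := hHM V T (6 * N + t) hT hhub
    obtain ⟨x, hxw, hxx, hxZ⟩ := hEX V T hT x₀ w hw (univ.filter (fun v => dg T v ≠ 6)) (t + 2)
      (2 * (2 * (6 * N + t)) + 20) 40 (by
        have h1 : (univ.filter (fun v => dg T v ≠ 6)).card *
            (4 * (2 * (2 * (6 * N + t)) + 20) + 1) ≤
            (6 * N + 2 * t) * (4 * (2 * (2 * (6 * N + t)) + 20) + 1) :=
          Nat.mul_le_mul_right _ hZ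
        omega)
    have hfar : ∀ j, ∀ h, dg T h ≠ 6 → 2 * (2 * (6 * N + t)) + 20 < (sk T).dist (x j) h :=
      fun j h hh => hxZ j h (mem_filter.2 ⟨mem_univ _, hh⟩)
    have hdev : ∀ j, ∃ f : ℤ × ℤ → V, f (0, 0) = x j ∧ Dev T 6 f := by
      intro j
      refine hDV V T (x j) 6 hT ?_
      intro y hy
      by_contra hne
      have := hfar j y hne
      omega
    choose f hf0 hfD using hdev
    -- two patches
    have htwo : ∃ j k, j ≠ k ∧ Patch (sk T) (f j) ∧ Patch (sk T) (f k) := by
      by_contra hno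
      push Not at hno
      -- the indices without a patch
      set B : Finset (Fin (t + 2)) := univ.filter (fun j => ¬ Patch (sk T) (f j)) with hB
      have hBc : (univ \ B).card ≤ 1 := by
        rw [card_le_one]
        intro a ha b hb'
        by_contra hab
        have ha' : Patch (sk T) (f a) := by
          by_contra h
          exact (mem_sdiff.1 ha).2 (mem_filter.2 ⟨mem_univ _, h⟩)
        have hb'' : Patch (sk T) (f b) := by
          by_contra h
          exact (mem_sdiff.1 hb').2 (mem_filter.2 ⟨mem_univ _, h⟩)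
        exact hno a b hab ha' hb''
      have hBcard : t + 1 ≤ B.card := by
        have h1 := card_sdiff_add_card_eq_card (subset_univ B)
        rw [card_univ, Fintype.card_fin] at h1
        omega
      have hdata : ∀ j : Fin (t + 2), ∃ v : V, j ∈ B →
          ∃ (y : V) (w' : (sk T).Walk y y) (D : Finset (Finset V)), w'.IsCycle ∧
          w'.length ≤ 12 ∧ (∀ z ∈ w'.support, (sk T).dist (x j) z ≤ 6) ∧ Disc T D (wed w') ∧
          v ∈ vs D ∧ v ∉ w'.support ∧ dg T v ≤ 5 := by
        intro j
        by_cases hj : j ∈ B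
        · rcases hIJ V T (f j) hT (ew_mono hEW (by omega)) (hfD j) with h | h
          · exact absurd h (mem_filter.1 hj).2
          · obtain ⟨y, w', D, v, h1, h2, h3, h4, h5, h6, h7⟩ := h
            rw [hf0 j] at h3
            exact ⟨v, fun _ => ⟨y, w', D, h1, h2, h3, h4, h5, h6, h7⟩⟩
        · exact ⟨x j, fun h => absurd h hj⟩
      choose v hv using hdata
      have hinj : Set.InjOn v (B : Set (Fin (t + 2))) := by
        intro j hj k hk hjk
        by_contra hne
        obtain ⟨y₁, w₁, D₁, a1, a2, a3, a4, a5, a6, _⟩ := hv j (mem_coe.1 hj)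
        obtain ⟨y₂, w₂, D₂, b1, b2, b3, b4, b5, b6, _⟩ := hv k (mem_coe.1 hk)
        rw [← hjk] at b5 b6
        exact hDS V T hT x₀ w hw (x j) (hxw j) (x k) (hxw k) (hxx j k hne) y₁ y₂ w₁ w₂ D₁ D₂
          a1 b1 a2 b2 a3 b3 a4 b4 (v j) a5 a6 b5 b6
      have hsum : (B.image v).card ≤ ∑ u : V, (6 - dg T u) := by
        calc (B.image v).card = ∑ _u ∈ B.image v, 1 := by simp
          _ ≤ ∑ u ∈ B.image v, (6 - dg T u) := by
            refine sum_le_sum fun u hu => ?_
            obtain ⟨j, hj, rfl⟩ := mem_image.1 hu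
            obtain ⟨_, _, _, _, _, _, _, _, _, h7⟩ := hv j hj
            omega
          _ ≤ ∑ u : V, (6 - dg T u) :=
            sum_le_sum_of_subset (subset_univ _)
      rw [card_image_of_injOn hinj] at hsum
      omega
    obtain ⟨j, k, hjk, hpj, hpk⟩ := htwo
    have hdist : ∀ i, ∀ p, hn p ≤ 6 → (sk T).dist (x i) (f i p) ≤ 6 := by
      intro i p hp
      have h1 := dev_dist hT (hfD i) (hn p) hp p rfl
      rw [hf0 i] at h1
      omega
    refine hTI V T (2 * (6 * N + t)) 0 hT hHD (ew_mono hEW (by omega)) x₀ w hw (x j) (x k)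
      (f j) (f k) (hxw j) (hxw k) hpj hpk ?_ ?_ ?_ ?_ G hG
    · intro p q hp hq h
      have h1 := hdist j p hp
      have h2 := hdist k q hq
      have h3 := hxx j k hjk
      have h4 := hT.conn.dist_triangle (u := x j) (v := f j p) (w := x k)
      rw [h, SimpleGraph.dist_comm (u := f k q)] at h4
      rw [h] at h1
      omega
    · rw [hf0 j, SimpleGraph.dist_self]
    · rw [hf0 k, SimpleGraph.dist_self]
    · intro h h7
      have h1 := hfar j h (by omega)
      have h2 := hfar k h (by omega)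
      rw [hf0 j, hf0 k]
      constructor <;> omega

end Pool.Agent.Helper94.KC
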