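import Pool.Agent.Helper94.KC.LLs
import Pool.Agent.Helper94.KC.TTS
import Pool.Agent.Helper30.KC.FinT

/-!
# Project KC (MP_bf413e_co): theorems TI and TT for all subgraphs of the triangulations
-/

set_option autoImplicit false

namespace Pool.Agent.Helper94.KC

open Pool.Agent.Helper30.KC

/-- hubs do not percolate, all subgraphs -/
theorem tiS : StmtTIs := tis lls

/-- boundedly many vertices of degree at most 5, all subgraphs -/
theorem ttS : StmtTTs := tts_of tiS ij2 dv ds ex2 nh hm sz
  Pool.Agent.Helper30.ML.br Pool.Agent.Helper30.ML.meyniel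

end Pool.Agent.Helper94.KC
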