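import Pool.Agent.Helper94.KC.Goals
import Pool.Agent.Helper94.KC.L.G00
import Pool.Agent.Helper94.KC.L.G01
import Pool.Agent.Helper94.KC.L.G02
import Pool.Agent.Helper94.KC.L.G03
import Pool.Agent.Helper94.KC.L.G04
import Pool.Agent.Helper94.KC.L.G05
import Pool.Agent.Helper94.KC.L.G06
import Pool.Agent.Helper94.KC.L.G07
import Pool.Agent.Helper94.KC.L.G08
import Pool.Agent.Helper94.KC.L.G09
import Pool.Agent.Helper94.KC.L.G10
import Pool.Agent.Helper94.KC.L.G11
import Pool.Agent.Helper94.KC.L.G12
import Pool.Agent.Helper94.KC.L.G13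
import Pool.Agent.Helper94.KC.L.G14
import Pool.Agent.Helper94.KC.L.T00
import Pool.Agent.Helper94.KC.L.T01
import Pool.Agent.Helper94.KC.L.T02
import Pool.Agent.Helper94.KC.L.T03
import Pool.Agent.Helper94.KC.L.T04
import Pool.Agent.Helper94.KC.L.T05
import Pool.Agent.Helper94.KC.L.T06
import Pool.Agent.Helper94.KC.L.T07
import Pool.Agent.Helper94.KC.L.T08
import Pool.Agent.Helper94.KC.L.T09
import Pool.Agent.Helper94.KC.L.T10

/-!
# Project KC (MP_bf413e_co): the local lemma
-/

set_option autoImplicit false

namespace Pool.Agent.Helper94.KC.LL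

theorem good_all (i : ℕ) (h : i < 6671) : Good (rOf (dec 6 (rec i))) := by
  by_cases h0 : i < 476
  · exact good_0 i (by omega) h0
  by_cases h1 : i < 952
  · exact good_1 i (by omega) h1
  by_cases h2 : i < 1428
  · exact good_2 i (by omega) h2
  by_cases h3 : i < 1904
  · exact good_3 i (by omega) h3
  by_cases h4 : i < 2380
  · exact good_4 i (by omega) h4
  by_cases h5 : i < 2856
  · exact good_5 i (by omega) h5
  by_cases h6 : i < 3332
  · exact good_6 i (by omega) h6
  by_cases h7 : i < 3808
  · exact good_7 i (by omega) h7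
  by_cases h8 : i < 4284
  · exact good_8 i (by omega) h8
  by_cases h9 : i < 4760
  · exact good_9 i (by omega) h9
  by_cases h10 : i < 5236
  · exact good_10 i (by omega) h10
  by_cases h11 : i < 5712
  · exact good_11 i (by omega) h11
  by_cases h12 : i < 6188
  · exact good_12 i (by omega) h12
  by_cases h13 : i < 6664
  · exact good_13 i (by omega) h13
  exact good_14 i (by omega) h

theorem parts (j : ℕ) (h : j < 55) : OK rec 6671 (sts j) (stu j) := by
  interval_cases j
  · exact t0
  · exact t1
  · exact t2
  · exact t3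
  · exact t4
  · exact t5
  · exact t6
  · exact t7
  · exact t8
  · exact t9
  · exact t10
  · exact t11
  · exact t12
  · exact t13
  · exact t14
  · exact t15
  · exact t16
  · exact t17
  · exact t18
  · exact t19
  · exact t20
  · exact t21
  · exact t22
  · exact t23
  · exact t24
  · exact t25
  · exact t26
  · exact t27
  · exact t28
  · exact t29
  · exact t30
  · exact t31
  · exact t32
  · exact t33
  · exact t34
  · exact t35
  · exact t36
  · exact t37
  · exact t38
  · exact t39
  · exact t40
  · exact t41
  · exact t42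
  · exact t43
  · exact t44
  · exact t45
  · exact t46
  · exact t47
  · exact t48
  · exact t49
  · exact t50
  · exact t51
  · exact t52
  · exact t53
  · exact t54

theorem top : OK rec 6671 0 0 := by
  have h := run_spec rec 6671 (fun j s u => cond (Nat.blt j 55) (cond (Nat.beq s (sts j))
    (Nat.beq u (stu j)) false) false) (by
      intro j s u h
      cases h1 : Nat.blt j 55 with
      | false => rw [h1] at h; exact absurd h (by simp)
      | true =>
        rw [h1, cond_true] at h
        cases h2 : Nat.beq s (sts j) with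
        | false => rw [h2] at h; exact absurd h (by simp)
        | true =>
          rw [h2, cond_true] at h
          rw [Nat.eq_of_beq_eq_true h2, Nat.eq_of_beq_eq_true h]
          exact parts j (Nat.ble_eq.mp h1)) 40 0 0
    0xea96ea95ea94ea930085ea92ea91ea900058ea8fea8eea8d0055ea8c00740057ea8bea8aea89ea880074ea8700570056ea86ea85ea84ea830047ea820056ea810057ea80ea7fea7eea7dea7cea7b007700860084ea7aea79ea780086ea77ea76ea75ea74007700860084ea730074ea72ea71ea700047ea6f0057ea6eea6dea6cea6b0047ea6a00570056ea69ea68ea67007400850065ea66ea65ea64ea630055ea620057ea610056ea6000650075007600670066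
    (fun _ => true) (by decide +kernel)
  exact h.1

end Pool.Agent.Helper94.KC.LL

namespace Pool.Agent.Helper94.KC

open LL in
/-- the local lemma: every proper colouring of the ball of radius 3 respects a good
identification -/
theorem local_lemma : StmtLL := by
  intro c hc
  have hpr : Pr (fun t => (c (p6 t) : ℕ)) := by
    refine ⟨fun t _ => (c (p6 t)).2, fun t w ht hw h e => ?_⟩
    exact hc (p6 t) (p6 w) (b3_p6 ht) (b3_p6 hw) (nb_conv ht hw h) (Fin.ext e)
  obtain ⟨i, hi, hq⟩ := top _ hpr (fun j hj => by simp at hj)
  have hg := good_all i hi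
  refine ⟨_, hg, fun p hp => ?_⟩
  rw [rOf_3 hp]
  rcases rr_or (dec 6 (rec i)) (c6 p) with e | e
  · rw [e, p6_c6 (by omega)]
  · have := hq _ e
    have h2 : c (p6 (rr (dec 6 (rec i)) (c6 p))) = c (p6 (c6 p)) := Fin.ext this
    rw [h2, p6_c6 (by omega)]

end Pool.Agent.Helper94.KC
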