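import Pool.Agent.Helper94.KC.M.Good
import Pool.Agent.Helper94.KC.M.O0
import Pool.Agent.Helper94.KC.M.O1
import Pool.Agent.Helper94.KC.M.O2
import Pool.Agent.Helper94.KC.M.O3
import Pool.Agent.Helper94.KC.M.O4
import Pool.Agent.Helper94.KC.M.O5
import Pool.Agent.Helper94.KC.M.O6
import Pool.Agent.Helper94.KC.M.O7
import Pool.Agent.Helper94.KC.M.O8
import Pool.Agent.Helper94.KC.M.O9

/-!
# Project KC (MP_bf413e_co): the local lemma for subgraphs
-/

set_option autoImplicit false

namespace Pool.Agent.Helper94.KC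

open MM in
/-- the local lemma for subgraphs -/
theorem lls : StmtLLs := by
  apply lls_of
  intro i hi c hc hp
  interval_cases i
  · exact orbit_of 0 (by norm_num) pt0 rec2 11530 pt0_chk orb0 seq_all c hc hp
  · exact orbit_of 1 (by norm_num) pt1 rec2 11530 pt1_chk orb1 seq_all c hc hp
  · exact orbit_of 2 (by norm_num) pt2 rec2 11530 pt2_chk orb2 seq_all c hc hp
  · exact orbit_of 3 (by norm_num) pt3 rec2 11530 pt3_chk orb3 seq_all c hc hp
  · exact orbit_of 4 (by norm_num) pt4 rec2 11530 pt4_chk orb4 seq_all c hc hp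
  · exact orbit_of 5 (by norm_num) pt5 rec2 11530 pt5_chk orb5 seq_all c hc hp
  · exact orbit_of 6 (by norm_num) pt6 rec2 11530 pt6_chk orb6 seq_all c hc hp
  · exact orbit_of 7 (by norm_num) pt7 rec2 11530 pt7_chk orb7 seq_all c hc hp
  · exact orbit_of 8 (by norm_num) pt8 rec2 11530 pt8_chk orb8 seq_all c hc hp
  · exact orbit_of 9 (by norm_num) pt9 rec2 11530 pt9_chk orb9 seq_all c hc hp

end Pool.Agent.Helper94.KC
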