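import Pool.Agent.Helper94.KC.Goals

/-!
# Project KC (MP_bf413e_co): subgraphs of flat patches, definitions
-/

set_option autoImplicit false

namespace Pool.Agent.Helper94.KC

open scoped Classical
open Finset

/-- adjacency in the triangular lattice without the monochromatic edges of the ball of radius 3 -/
def LA (c : ℤ × ℤ → Fin 5) (p q : ℤ × ℤ) : Prop :=
  hn (q - p) = 1 ∧ ¬ (hn p ≤ 3 ∧ hn q ≤ 3 ∧ c p = c q)

/-- a good identification for the colouring `c` (not necessarily proper) of the ball of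
radius 3 -/
structure GoodC (c : ℤ × ℤ → Fin 5) (r : ℤ × ℤ → ℤ × ℤ) : Prop where
  idem : ∀ p, r (r p) = r p
  out : ∀ p, 3 < hn p → r p = p
  inn : ∀ p, hn p ≤ 3 → hn (r p) ≤ 3
  col : ∀ p, hn p ≤ 3 → c (r p) = c p
  del : ∀ R : Finset (ℤ × ℤ), R.Nonempty → (∀ x ∈ R, hn x ≤ 5 ∧ r x = x) →
    ∃ x ∈ R, ((hB 6).filter (fun y => (y ∈ R ∨ hn y = 6) ∧ y ≠ x ∧
      ∃ p q, r p = x ∧ r q = y ∧ LA c p q)).card ≤ 4

/-- the local lemma for subgraphs of the lattice: every colouring of the ball of radius 3 (proper or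
not) has a good identification -/
def StmtLLs : Prop := ∀ c : ℤ × ℤ → Fin 5, ∃ r, GoodC c r

/-- a subflat patch: the vertices `i p` with `hn p ≤ 5` have only neighbours `i q` with `p`, `q`
adjacent in the lattice (edges and vertices may be missing) -/
structure SPatch {V : Type} (G : SimpleGraph V) (i : ℤ × ℤ → V) : Prop where
  inj : ∀ p q, hn p ≤ 6 → hn q ≤ 6 → i p = i q → p = q
  nb : ∀ p, hn p ≤ 5 → ∀ v, G.Adj (i p) v → ∃ q, hn (q - p) = 1 ∧ i q = v

theorem Patch.sub {V : Type} {G H : SimpleGraph V} {i : ℤ × ℤ → V} (h : Patch H i) (hGH : G ≤ H) :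
    SPatch G i := ⟨h.inj, fun p hp v hv => (h.nb p hp v).1 (hGH hv)⟩

end Pool.Agent.Helper94.KC
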