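import Pool.Agent.Helper94.KC.FinS

/-!
# Project KC (MP_bf413e_co): reducibility of flat patches; planarizing flat regions
-/

set_option autoImplicit false

namespace Pool.Agent.Helper94.KC

open scoped Classical
open Finset
open Pool.Agent.Helper30.ML (Mac rs del)
open Pool.Agent.Helper53.KC (GS)
open Pool.Agent.Helper23.KC (dR_mono)

theorem gs_le {V : Type} (G : SimpleGraph V) (S : Finset V) : GS G S ≤ G := fun _ _ h => h.1

theorem del_le {V : Type} (G : SimpleGraph V) (x : V) : del G x ≤ G := fun _ _ h => h.1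

theorem SPatch.mono {V : Type} {G H : SimpleGraph V} {i : ℤ × ℤ → V} (h : SPatch G i)
    (hHG : H ≤ G) : SPatch H i := ⟨h.inj, fun p hp v hv => h.nb p hp v (hHG hv)⟩

variable {V : Type} [Fintype V]

/-- number of ordered pairs of adjacent vertices -/
noncomputable def nE (G : SimpleGraph V) : ℕ := (univ.filter (fun p : V × V => G.Adj p.1 p.2)).card

theorem nE_lt {G H : SimpleGraph V} (h : H ≤ G) (u v : V) (h1 : G.Adj u v) (h2 : ¬ H.Adj u v) :
    nE H < nE G := by
  apply card_lt_card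
  rw [Finset.ssubset_iff_of_subset]
  · exact ⟨(u, v), by simpa using h1, by simpa using h2⟩
  · intro p hp
    rw [mem_filter] at hp ⊢
    exact ⟨hp.1, h hp.2⟩

/-- minimal counterexamples: reduction to graphs without vertices of degree 1 to 4, not planar, and
without two disjoint flat patches -/
theorem minred (C : SimpleGraph V → Prop) (hC : ∀ G H, H ≤ G → C G → C H)
    (h : ∀ G, C G → (∀ x, dR G univ x = 0 ∨ 5 ≤ dR G univ x) → ¬ Mac G →
      (∀ i₁ i₂ : ℤ × ℤ → V, SPatch G i₁ → SPatch G i₂ →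
        (∀ p q, hn p ≤ 6 → hn q ≤ 6 → i₁ p ≠ i₂ q) →
        (∀ x ∈ core i₁, ∀ y, ¬ G.Adj x y) ∨ (∀ x ∈ core i₂, ∀ y, ¬ G.Adj x y)) → AllEq G) :
    ∀ G, C G → AllEq G := by
  have key : ∀ n : ℕ, ∀ G, nE G = n → C G → AllEq G := by
    intro n
    induction n using Nat.strong_induction_on with
    | _ n ih =>
      intro G hn' hG
      by_cases hdeg : ∀ x, dR G univ x = 0 ∨ 5 ≤ dR G univ x
      · by_cases hM : Mac G
        · exact Pool.Agent.Helper30.ML.meyniel V G hM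
        · by_cases hno : ∀ i₁ i₂ : ℤ × ℤ → V, SPatch G i₁ → SPatch G i₂ →
              (∀ p q, hn p ≤ 6 → hn q ≤ 6 → i₁ p ≠ i₂ q) →
              (∀ x ∈ core i₁, ∀ y, ¬ G.Adj x y) ∨ (∀ x ∈ core i₂, ∀ y, ¬ G.Adj x y)
          · exact h G hG hdeg hM hno
          push Not at hno
          obtain ⟨i₁, i₂, h1, h2, h3, ⟨x₁, hx₁, y₁, a₁⟩, ⟨x₂, hx₂, y₂, a₂⟩⟩ := hno
          have hlt : ∀ (i : ℤ × ℤ → V) x y, x ∈ core i → G.Adj x y →
              AllEq (GS G (univ \ core i)) := by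
            intro i x y hx hxy
            refine ih _ ?_ _ rfl (hC _ _ (gs_le _ _) hG)
            rw [← hn']
            exact nE_lt (gs_le _ _) x y hxy (fun hh => (mem_sdiff.1 hh.2.1).2 hx)
          exact tas lls G i₁ i₂ h1 h2 h3 (hlt i₁ x₁ y₁ hx₁ a₁) (hlt i₂ x₂ y₂ hx₂ a₂)
      · push Not at hdeg
        obtain ⟨x, hx0, hx5⟩ := hdeg
        have hex : ∃ y, G.Adj x y := by
          by_contra hc
          push Not at hc
          apply hx0
          unfold dR
          rw [card_eq_zero, filter_eq_empty_iff]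
          intro y _
          exact hc y
        obtain ⟨y, hy⟩ := hex
        refine Pool.Agent.Helper30.ML.d4 V G x (by omega) (ih _ ?_ _ rfl
          (hC _ _ (del_le _ _) hG))
        rw [← hn']
        exact nE_lt (del_le _ _) x y hy (fun hh => hh.2.1 rfl)
  exact fun G hG => key _ G rfl hG

/-- deletion of vertices of degree at most 4, down to planar stuck sets -/
theorem clos (G H : SimpleGraph V) (hHG : H ≤ G) (S₀ : Finset V)
    (hR : ∀ R ⊆ S₀, (∀ x ∈ R, 5 ≤ dR G R x) → Mac (rs G (R : Set V))) :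
    AllEq (rs H (S₀ : Set V)) := by
  let Fam : Finset (Finset V) := univ.filter fun R' => R' ⊆ S₀ ∧ ∀ x ∈ R', 5 ≤ dR G R' x
  let R : Finset V := Fam.sup id
  have hsub : ∀ R' ∈ Fam, R' ⊆ R := fun R' h => Finset.le_sup (f := id) h
  have hmem : ∀ x ∈ R, ∃ R' ∈ Fam, x ∈ R' := by
    intro x hx
    obtain ⟨R', h1, h2⟩ := Finset.mem_sup.1 hx
    exact ⟨R', h1, h2⟩
  have hR1 : R ⊆ S₀ := by
    intro x hx
    obtain ⟨R', h1, h2⟩ := hmem x hx
    exact (Finset.mem_filter.1 h1).2.1 h2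
  have hR2 : ∀ x ∈ R, 5 ≤ dR G R x := by
    intro x hx
    obtain ⟨R', h1, h2⟩ := hmem x hx
    refine le_trans ((Finset.mem_filter.1 h1).2.2 x h2) ?_
    exact dR_mono (fun y hy _ => hsub R' h1 hy)
  have hR3 : ∀ R' ⊆ S₀, (∀ x ∈ R', 5 ≤ dR G R' x) → R' ⊆ R := by
    intro R' h1 h2
    exact hsub R' (Finset.mem_filter.2 ⟨Finset.mem_univ _, h1, h2⟩)
  have hM : AllEq (rs H (R : Set V)) := by
    apply Pool.Agent.Helper30.ML.meyniel
    refine Pool.Agent.Helper30.ML.su V _ _ ?_ (hR R hR1 hR2)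
    intro a b hab
    exact ⟨hHG hab.1, hab.2.1, hab.2.2⟩
  exact sgrow Pool.Agent.Helper30.ML.d4 G H hHG R S₀ hR2 hR3 hM _ S₀ hR1 (le_refl _) rfl

/-- two disjoint flat regions, each of which can be deleted with a planar rest (up to vertices of
degree at most 4): all 5-colourings are Kempe equivalent, for all subgraphs -/
theorem fstar (G : SimpleGraph V) (A B : Set (ℤ × ℤ → V)) (hA : ∀ i ∈ A, SPatch G i)
    (hB : ∀ i ∈ B, SPatch G i)
    (hAB : ∀ i ∈ A, ∀ j ∈ B, ∀ p q, hn p ≤ 6 → hn q ≤ 6 → i p ≠ j q)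
    (hRA : ∀ R : Finset V, (∀ i ∈ A, Disjoint R (core i)) → (∀ x ∈ R, 5 ≤ dR G R x) →
      Mac (rs G (R : Set V)))
    (hRB : ∀ R : Finset V, (∀ i ∈ B, Disjoint R (core i)) → (∀ x ∈ R, 5 ≤ dR G R x) →
      Mac (rs G (R : Set V))) : ∀ H ≤ G, AllEq H := by
  -- all cores of one family are isolated
  have base : ∀ (A : Set (ℤ × ℤ → V)), (∀ R : Finset V, (∀ i ∈ A, Disjoint R (core i)) →
      (∀ x ∈ R, 5 ≤ dR G R x) → Mac (rs G (R : Set V))) → ∀ H ≤ G,
      (∀ i ∈ A, ∀ x ∈ core i, ∀ y, ¬ H.Adj x y) → AllEq H := by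
    intro A hRA H hH hiso
    have h1 := clos G H hH (univ.filter (fun x => ∀ i ∈ A, x ∉ core i)) (by
      intro R hR h5
      refine hRA R ?_ h5
      intro i hi
      rw [disjoint_left]
      intro x hx
      exact (mem_filter.1 (hR hx)).2 i hi)
    have h2 : rs H ((univ.filter (fun x => ∀ i ∈ A, x ∉ core i) : Finset V) : Set V) = H := by
      ext a b
      constructor
      · intro h
        exact h.1
      · intro h
        refine ⟨h, ?_, ?_⟩
        · rw [mem_coe, mem_filter]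
          exact ⟨mem_univ _, fun i hi ha => hiso i hi a ha b h⟩
        · rw [mem_coe, mem_filter]
          exact ⟨mem_univ _, fun i hi hb => hiso i hi b hb a h.symm⟩
    rwa [h2] at h1
  have key : ∀ n : ℕ, ∀ H, nE H = n → H ≤ G → AllEq H := by
    intro n
    induction n using Nat.strong_induction_on with
    | _ n ih =>
      intro H hn' hH
      by_cases h1 : ∀ i ∈ A, ∀ x ∈ core i, ∀ y, ¬ H.Adj x y
      · exact base A hRA H hH h1
      by_cases h2 : ∀ i ∈ B, ∀ x ∈ core i, ∀ y, ¬ H.Adj x y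
      · exact base B hRB H hH h2
      push Not at h1 h2
      obtain ⟨i₁, hi₁, x₁, hx₁, y₁, a₁⟩ := h1
      obtain ⟨i₂, hi₂, x₂, hx₂, y₂, a₂⟩ := h2
      have hlt : ∀ (i : ℤ × ℤ → V) x y, x ∈ core i → H.Adj x y →
          AllEq (GS H (univ \ core i)) := by
        intro i x y hx hxy
        refine ih _ ?_ _ rfl ((gs_le _ _).trans hH)
        rw [← hn']
        exact nE_lt (gs_le _ _) x y hxy (fun hh => (mem_sdiff.1 hh.2.1).2 hx)
      exact tas lls H i₁ i₂ ((hA i₁ hi₁).mono hH) ((hB i₂ hi₂).mono hH) (hAB i₁ hi₁ i₂ hi₂)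
        (hlt i₁ x₁ y₁ hx₁ a₁) (hlt i₂ x₂ y₂ hx₂ a₂)
  exact fun H hH => key _ H rfl hH

end Pool.Agent.Helper94.KC
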