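import Pool.Agent.Helper53.KC.LV
import Pool.Agent.Helper4.KC.QD
import Pool.Agent.Helper86.KC.UN
import Pool.Agent.Helper15.KC.KL
import Pool.Agent.Helper94.KC.LLproof

/-!
# Project KC (MP_bf413e_co): theorem A in the form A' (two flat patches)
-/

set_option autoImplicit false

namespace Pool.Agent.Helper94.KC

open scoped Classical
open Finset Pool.Agent.Helper53.KC Pool.Agent.Helper4.KC

/-- adding a vertex of degree at most 4 -/
theorem add_vertex {V : Type} [Fintype V] (G : SimpleGraph V) (S : Finset V) (x : V) (hxS : x ∈ S)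
    (hx4 : dR G S x ≤ 4) (hE0 : AllEq (GS G (S.erase x))) : AllEq (GS G S) := by
  intro f g hf hg
  have hsub : ∀ u v, (GS G (S.erase x)).Adj u v → (GS G S).Adj u v := fun u v h =>
    ⟨h.1, Finset.mem_of_mem_erase h.2.1, Finset.mem_of_mem_erase h.2.2⟩
  have hE := hE0 f g (fun u v h => hf u v (hsub u v h)) (fun u v h => hg u v (hsub u v h))
  have hdeg : (univ.filter (fun y => (GS G S).Adj x y)).card ≤ 4 := by
    refine le_trans (Finset.card_le_card ?_) hx4
    intro y hy
    have h1 := (Finset.mem_filter.1 hy).2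
    exact Finset.mem_filter.2 ⟨h1.2.2, h1.1⟩
  have key : ∀ h, KEq (GS G (S.erase x)) f h → ∃ F, KEq (GS G S) f F ∧
      ∀ y, y ≠ x → F y = h y := by
    intro h hh
    induction hh with
    | refl => exact ⟨f, Relation.ReflTransGen.refl, fun _ _ => rfl⟩
    | tail _ hst ihh =>
      rename_i h1 h2 _
      obtain ⟨F, hF, hoff⟩ := ihh
      obtain ⟨a, b, z, hz, hch⟩ := hst
      have hFp : Proper (GS G S) F := eq_proper hF hf
      set C : Finset V := univ.filter (fun y => y ≠ x ∧ InChain (GS G (S.erase x)) h1 a b z y)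
        with hC
      have hCm : ∀ y, y ∈ C ↔ (y ≠ x ∧ InChain (GS G (S.erase x)) h1 a b z y) := by
        intro y
        simp [hC]
      obtain ⟨F', hF', hF'2⟩ := core_step (GS G S) x a b hdeg F hFp C
        (fun h => ((hCm x).1 h).1 rfl)
        (fun y hy => by
          have h3 := (hCm y).1 hy
          rw [hoff y h3.1]
          exact chain_mem h3.2)
        (by
          intro u hu v hvx ha hv
          have h3 := (hCm u).1 hu
          rw [hoff v hvx] at hv
          refine (hCm v).2 ⟨hvx, chain_step h3.2 ?_ hv⟩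
          exact ⟨ha.1, Finset.mem_erase.2 ⟨h3.1, ha.2.1⟩, Finset.mem_erase.2 ⟨hvx, ha.2.2⟩⟩)
      refine ⟨F', hF.trans hF', fun y hy => ?_⟩
      rw [hF'2 y hy, hoff y hy]
      by_cases hyc : InChain (GS G (S.erase x)) h1 a b z y
      · rw [(hch y).1 hyc, if_pos ((hCm y).2 ⟨hy, hyc⟩)]
      · rw [(hch y).2 hyc, if_neg (fun h => hyc ((hCm y).1 h).2)]
  obtain ⟨F, hF, hoff⟩ := key g hE
  have hFp : Proper (GS G S) F := eq_proper hF hf
  have hlast := recolor (GS G S) F x (g x) (fun y hy => ⟨(hFp x y hy).symm, by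
    have hyx : y ≠ x := fun h => (GS G S).loopless.irrefl x (h ▸ hy)
    rw [hoff y hyx]
    exact (hg x y hy).symm⟩)
  have h5 : Function.update F x (g x) = g := by
    funext y
    by_cases hy : y = x
    · subst hy
      simp
    · rw [Function.update_of_ne hy, hoff y hy]
  rw [h5] at hlast
  exact hF.trans hlast

/-- all the vertices outside `S` can be deleted one after the other, each having at most 4
remaining neighbours -/
def Rel4 {V : Type} (G : SimpleGraph V) (S : Finset V) : Prop :=
  ∀ R : Finset V, R.Nonempty → Disjoint R S → ∃ x ∈ R, dR G (R ∪ S) x ≤ 4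

theorem gs_univ {V : Type} [Fintype V] (G : SimpleGraph V) : GS G univ = G := by
  ext u v
  simp [GS]

theorem alleq_rel {V : Type} [Fintype V] (G : SimpleGraph V) (S : Finset V) (h : Rel4 G S)
    (hS : AllEq (GS G S)) : ∀ (n : ℕ) (R : Finset V), R.card = n → Disjoint R S →
    AllEq (GS G (R ∪ S)) := by
  intro n
  induction n with
  | zero =>
    intro R hR _
    rw [Finset.card_eq_zero.1 hR, Finset.empty_union]
    exact hS
  | succ n ih =>
    intro R hR hd
    obtain ⟨x, hx, hx4⟩ := h R (Finset.card_pos.1 (by omega)) hd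
    have h1 := ih (R.erase x) (by rw [Finset.card_erase_of_mem hx, hR]; rfl)
      (Finset.disjoint_of_subset_left (Finset.erase_subset x R) hd)
    have hxS : x ∉ S := Finset.disjoint_left.1 hd hx
    have h2 : (R ∪ S).erase x = R.erase x ∪ S := by
      ext y
      simp only [Finset.mem_erase, Finset.mem_union]
      constructor
      · rintro ⟨h1, h2 | h2⟩
        · exact Or.inl ⟨h1, h2⟩
        · exact Or.inr h2
      · rintro (⟨h1, h2⟩ | h2)
        · exact ⟨h1, Or.inl h2⟩
        · exact ⟨fun e => hxS (e ▸ h2), Or.inr h2⟩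
    apply add_vertex G _ x (Finset.mem_union_left _ hx) hx4
    rw [h2]
    exact h1

theorem alleq_of_rel {V : Type} [Fintype V] (G : SimpleGraph V) (S : Finset V) (h : Rel4 G S)
    (hS : AllEq (GS G S)) : AllEq G := by
  have h1 := alleq_rel G S h hS _ (univ \ S) rfl Finset.sdiff_disjoint
  rw [Finset.sdiff_union_of_subset (Finset.subset_univ S), gs_univ] at h1
  exact h1

/-- extension of a colouring -/
theorem col_rel {V : Type} [Fintype V] (G : SimpleGraph V) (S : Finset V) (h : Rel4 G S)
    (f : V → Fin 5) (hS : Proper (GS G S) f) : ∀ (n : ℕ) (R : Finset V), R.card = n →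
    Disjoint R S → ∃ g : V → Fin 5, Proper (GS G (R ∪ S)) g := by
  intro n
  induction n with
  | zero =>
    intro R hR _
    rw [Finset.card_eq_zero.1 hR, Finset.empty_union]
    exact ⟨f, hS⟩
  | succ n ih =>
    intro R hR hd
    obtain ⟨x, hx, hx4⟩ := h R (Finset.card_pos.1 (by omega)) hd
    obtain ⟨g, hg⟩ := ih (R.erase x) (by rw [Finset.card_erase_of_mem hx, hR]; rfl)
      (Finset.disjoint_of_subset_left (Finset.erase_subset x R) hd)
    set N : Finset V := (R ∪ S).filter (fun y => G.Adj x y) with hN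
    have hcard : (N.image g).card < (univ : Finset (Fin 5)).card := by
      have h1 : (N.image g).card ≤ N.card := Finset.card_image_le
      have h2 : N.card ≤ 4 := hx4
      simp only [Finset.card_univ, Fintype.card_fin]
      omega
    obtain ⟨e, _, he⟩ := Finset.exists_mem_notMem_of_card_lt_card hcard
    have hxS : x ∉ S := Finset.disjoint_left.1 hd hx
    refine ⟨Function.update g x e, ?_⟩
    have hmem : ∀ y, y ≠ x → y ∈ R ∪ S → y ∈ R.erase x ∪ S := by
      intro y hy h1
      rcases Finset.mem_union.1 h1 with h1 | h1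
      · exact Finset.mem_union_left _ (Finset.mem_erase.2 ⟨hy, h1⟩)
      · exact Finset.mem_union_right _ h1
    have hxe : ∀ v, G.Adj x v → v ∈ R ∪ S → g v ≠ e := by
      intro v hv h1 h2
      exact he (Finset.mem_image.2 ⟨v, Finset.mem_filter.2 ⟨h1, hv⟩, h2⟩)
    rintro u v ⟨ha, hu, hv⟩
    have hne := ha.ne
    by_cases hux : u = x
    · subst hux
      rw [Function.update_self, Function.update_of_ne (Ne.symm hne)]
      exact (hxe v ha hv).symm
    · by_cases hvx : v = x
      · subst hvx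
        rw [Function.update_self, Function.update_of_ne hux]
        exact hxe u ha.symm hu
      · rw [Function.update_of_ne hux, Function.update_of_ne hvx]
        exact hg u v ⟨ha, hmem u hux hu, hmem v hvx hv⟩

theorem col_of_rel {V : Type} [Fintype V] (G : SimpleGraph V) (S : Finset V) (h : Rel4 G S)
    (f : V → Fin 5) (hS : Proper (GS G S) f) : ∃ g : V → Fin 5, Proper G g := by
  have h1 := col_rel G S h f hS _ (univ \ S) rfl Finset.sdiff_disjoint
  rw [Finset.sdiff_union_of_subset (Finset.subset_univ S), gs_univ] at h1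
  exact h1

section

variable {V : Type} [Fintype V] {G : SimpleGraph V} {I : Type} [Fintype I]
  {i : I → ℤ × ℤ → V} {r : I → ℤ × ℤ → ℤ × ℤ}

/-- the union of the cores -/
noncomputable def cores (i : I → ℤ × ℤ → V) : Finset V := univ.biUnion (fun k => core (i k))

theorem mem_cores (v : V) : v ∈ cores i ↔ ∃ k p, hn p ≤ 5 ∧ i k p = v := by
  unfold cores core
  simp only [mem_biUnion, mem_univ, true_and, mem_image, mem_hB]

/-- the quotient is relatively 4-degenerate -/
theorem qd_rel (hP : ∀ k, Patch G (i k)) (hG : ∀ k, Good (r k))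
    (hD : ∀ k l p q, k ≠ l → hn p ≤ 6 → hn q ≤ 6 → i k p ≠ i l q) :
    Rel4 (QG G (comb i r)) (univ \ cores i) := by
  intro R hR hdis
  by_cases hfix : ∃ x ∈ R, comb i r x ≠ x
  · obtain ⟨x, hx, hne⟩ := hfix
    refine ⟨x, hx, ?_⟩
    have h0 : ((R ∪ (univ \ cores i)).filter (fun y => (QG G (comb i r)).Adj x y)) = ∅ := by
      apply filter_eq_empty_iff.2
      rintro y _ ⟨_, u, v, hu, _, _⟩
      apply hne
      rw [← hu]
      exact comb_idem hP hG hD u
    unfold dR
    rw [h0]
    simp
  · push Not at hfix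
    obtain ⟨x₀, hx₀⟩ := hR
    have hx0c : x₀ ∈ cores i := by
      by_contra hc
      exact Finset.disjoint_left.1 hdis hx₀ (mem_sdiff.2 ⟨mem_univ _, hc⟩)
    obtain ⟨k, p₀, hp₀, rfl⟩ := (mem_cores x₀).1 hx0c
    set R' : Finset (ℤ × ℤ) := (hB 5).filter (fun p => i k p ∈ R) with hR'
    have hmR' : ∀ q, q ∈ R' ↔ hn q ≤ 5 ∧ i k q ∈ R := by
      intro q
      rw [hR', mem_filter, mem_hB]
    have hne : R'.Nonempty := ⟨p₀, (hmR' p₀).2 ⟨hp₀, hx₀⟩⟩
    have hall : ∀ x ∈ R', hn x ≤ 5 ∧ r k x = x := by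
      intro x hx
      obtain ⟨h1, h2⟩ := (hmR' x).1 hx
      refine ⟨h1, ?_⟩
      have h3 := hfix _ h2
      rw [comb_six hP hG hD k x (by omega)] at h3
      exact (hP k).inj _ _ (r_six hG k x (by omega)) (by omega) h3
    obtain ⟨x, hx, hcard⟩ := (hG k).del R' hne hall
    have hx' := (hmR' x).1 hx
    refine ⟨i k x, hx'.2, le_trans ?_ hcard⟩
    refine le_trans (card_le_card ?_) (card_image_le (f := i k))
    intro y hy
    rw [mem_filter] at hy
    obtain ⟨hyR, hne', u, v, hu, hv, huv⟩ := hy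
    obtain ⟨p, rfl, hrp, hp5⟩ := comb_pre hP hG hD u k x hx'.1 (hall x hx).2 hu
    obtain ⟨q, hq1, rfl⟩ := ((hP k).nb p hp5 v).1 huv
    have hq6 : hn q ≤ 6 := by
      have := hn_step p q hq1
      omega
    rw [comb_six hP hG hD k q hq6] at hv
    rw [mem_image]
    refine ⟨r k q, ?_, hv⟩
    rw [mem_filter, mem_hB]
    have h6 := r_six hG k q hq6
    refine ⟨h6, ?_, ?_, p, q, hrp, rfl, hq1⟩
    · by_cases h5 : hn (r k q) ≤ 5
      · left
        rw [hmR']
        refine ⟨h5, ?_⟩
        rw [hv]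
        rcases mem_union.1 hyR with h | h
        · exact h
        · exfalso
          apply (mem_sdiff.1 h).2
          rw [mem_cores]
          exact ⟨k, _, h5, hv⟩
      · right
        omega
    · intro he
      apply hne'
      rw [← hv, he]

/-- outside the cores the quotient is the graph -/
theorem gs_quot (hP : ∀ k, Patch G (i k)) (hG : ∀ k, Good (r k))
    (hD : ∀ k l p q, k ≠ l → hn p ≤ 6 → hn q ≤ 6 → i k p ≠ i l q) :
    GS (QG G (comb i r)) (univ \ cores i) = GS G (univ \ cores i) := by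
  have key : ∀ z, z ∉ cores i → ∀ w, comb i r w = z → w = z := by
    intro z hz w hw
    rcases comb_cases hP hG hD w with h1 | ⟨l, p, hp, hu', hc, hr⟩
    · rw [← h1, hw]
    · exfalso
      apply hz
      rw [mem_cores]
      exact ⟨l, r l p, by omega, by rw [← hc, hw]⟩
  have key2 : ∀ z, z ∉ cores i → comb i r z = z := by
    intro z hz
    rcases comb_cases hP hG hD z with h1 | ⟨l, p, hp, hu', hc, hr⟩
    · exact h1
    · exfalso
      apply hz
      rw [mem_cores]
      exact ⟨l, p, by omega, hu'.symm⟩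
  ext u v
  constructor
  · rintro ⟨⟨hne, a, b, ha, hb, hab⟩, hu, hv⟩
    have hu' := (mem_sdiff.1 hu).2
    have hv' := (mem_sdiff.1 hv).2
    rw [key u hu' a ha, key v hv' b hb] at hab
    exact ⟨hab, hu, hv⟩
  · rintro ⟨hab, hu, hv⟩
    have hu' := (mem_sdiff.1 hu).2
    have hv' := (mem_sdiff.1 hv).2
    exact ⟨⟨hab.ne, u, v, key2 u hu', key2 v hv', hab⟩, hu, hv⟩

end

/-- a map which preserves a proper colouring gives a proper colouring of the quotient -/
theorem proper_quot {V : Type} {G : SimpleGraph V} {ρ : V → V} {f : V → Fin 5}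
    (hf : Proper G f) (h : ∀ v, f (ρ v) = f v) : Proper (QG G ρ) f := by
  rintro x y ⟨_, u, v, rfl, rfl, huv⟩
  rw [h, h]
  exact hf u v huv

theorem keq_symm_proper {V : Type} [Fintype V] {G : SimpleGraph V} (h : AllEq G) {f g : V → Fin 5}
    (hf : Proper G f) (hg : Proper G g) : KEq G g f := h g f hg hf

/-- `K(P)` is one class: two colourings which respect a good identification of a patch -/
theorem one_class {V : Type} [Fintype V] (G : SimpleGraph V) (i₁ : ℤ × ℤ → V) (hP : Patch G i₁)
    (r₁ : ℤ × ℤ → ℤ × ℤ) (hG : Good r₁) (hA : AllEq (GS G (univ \ core i₁))) (f h : V → Fin 5)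
    (hf : Proper G f) (hh : Proper G h)
    (hf' : ∀ v, f (comb (fun _ : Unit => i₁) (fun _ => r₁) v) = f v)
    (hh' : ∀ v, h (comb (fun _ : Unit => i₁) (fun _ => r₁) v) = h v) : KEq G f h := by
  have hD : ∀ (k l : Unit) (p q : ℤ × ℤ), k ≠ l → hn p ≤ 6 → hn q ≤ 6 →
      (fun _ : Unit => i₁) k p ≠ (fun _ : Unit => i₁) l q := fun k l _ _ h => absurd rfl h
  have hc : cores (fun _ : Unit => i₁) = core i₁ := by
    unfold cores
    simp
  have h1 := qd_rel (i := fun _ : Unit => i₁) (r := fun _ => r₁) (fun _ => hP) (fun _ => hG) hD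
  have h2 := gs_quot (i := fun _ : Unit => i₁) (r := fun _ => r₁) (fun _ => hP) (fun _ => hG) hD
  rw [hc] at h1 h2
  have h3 : AllEq (QG G (comb (fun _ : Unit => i₁) (fun _ => r₁))) := by
    apply alleq_of_rel _ _ h1
    rw [h2]
    exact hA
  have h4 := Pool.Agent.Helper15.KC.kl Pool.Agent.Helper86.KC.un V G _ f h
    (h3 f h (proper_quot hf hf') (proper_quot hh hh'))
  have e1 : f ∘ comb (fun _ : Unit => i₁) (fun _ => r₁) = f := funext hf'
  have e2 : h ∘ comb (fun _ : Unit => i₁) (fun _ => r₁) = h := funext hh'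
  rwa [e1, e2] at h4

/-- Theorem A': two flat patches with disjoint images -/
theorem ta' {V : Type} [Fintype V] (G : SimpleGraph V) (i₁ i₂ : ℤ × ℤ → V)
    (hP1 : Patch G i₁) (hP2 : Patch G i₂) (hdis : ∀ p q, hn p ≤ 6 → hn q ≤ 6 → i₁ p ≠ i₂ q)
    (hA1 : AllEq (GS G (univ \ core i₁))) (hA2 : AllEq (GS G (univ \ core i₂))) : AllEq G := by
  intro f g hf hg
  have loc : ∀ (i : ℤ × ℤ → V), Patch G i → ∀ c : V → Fin 5, Proper G c →
      ∃ r, Good r ∧ ∀ p, hn p ≤ 3 → c (i (r p)) = c (i p) := by
    intro i hP c hc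
    obtain ⟨r, hr, h⟩ := local_lemma (fun p => c (i p)) (by
      intro p q hp hq hpq
      exact hc _ _ ((hP.nb p (by omega) _).2 ⟨q, hpq, rfl⟩))
    exact ⟨r, hr, h⟩
  obtain ⟨r₁, hG1, hr1⟩ := loc i₁ hP1 f hf
  obtain ⟨r₂, hG2, hr2⟩ := loc i₂ hP2 g hg
  -- the two patches together
  let ii : Bool → ℤ × ℤ → V := fun b => if b then i₁ else i₂
  let rr : Bool → ℤ × ℤ → ℤ × ℤ := fun b => if b then r₁ else r₂
  have hPb : ∀ k, Patch G (ii k) := by
    intro k
    cases k
    · exact hP2
    · exact hP1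
  have hGb : ∀ k, Good (rr k) := by
    intro k
    cases k
    · exact hG2
    · exact hG1
  have hDb : ∀ k l p q, k ≠ l → hn p ≤ 6 → hn q ≤ 6 → ii k p ≠ ii l q := by
    intro k l p q hkl hp hq
    cases k <;> cases l
    · exact absurd rfl hkl
    · exact (hdis q p hq hp).symm
    · exact hdis p q hp hq
    · exact absurd rfl hkl
  have hDu : ∀ (i : ℤ × ℤ → V) (k l : Unit) (p q : ℤ × ℤ), k ≠ l → hn p ≤ 6 → hn q ≤ 6 →
      (fun _ : Unit => i) k p ≠ (fun _ : Unit => i) l q := fun i k l _ _ h => absurd rfl h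
  have q1 := qd_rel hPb hGb hDb
  have q2 := gs_quot hPb hGb hDb
  obtain ⟨h0, hh0⟩ := col_of_rel _ _ q1 f (by
    rw [q2]
    intro u v h
    exact hf u v h.1)
  set ρ := comb ii rr with hρ
  let h : V → Fin 5 := fun v => h0 (ρ v)
  -- vertices with the same image
  have same : ∀ u v, G.Adj u v → ρ u ≠ ρ v := by
    intro u v huv e
    have hne := huv.ne
    rcases comb_cases hPb hGb hDb u with hu | ⟨k, p, hp, hu, hcu, hru⟩
    · rcases comb_cases hPb hGb hDb v with hv | ⟨l, q, hq, hv, hcv, hrv⟩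
      · exact hne (by rw [← hu, ← hv]; exact e)
      · -- `u = ρ v` is in the patch `l`
        have e2 : u = ii l (rr l q) := by rw [← hcv, ← hu]; exact e
        cases l
        · have : g (i₂ (r₂ q)) = g (i₂ q) := hr2 q hq
          have h1 : u = i₂ (r₂ q) := e2
          have h2 : v = i₂ q := hv
          exact hg u v huv (by rw [h1, h2, this])
        · have : f (i₁ (r₁ q)) = f (i₁ q) := hr1 q hq
          have h1 : u = i₁ (r₁ q) := e2
          have h2 : v = i₁ q := hv
          exact hf u v huv (by rw [h1, h2, this])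
    · rcases comb_cases hPb hGb hDb v with hv | ⟨l, q, hq, hv, hcv, hrv⟩
      · have e2 : v = ii k (rr k p) := by rw [← hcu, ← hv]; exact e.symm
        cases k
        · have : g (i₂ (r₂ p)) = g (i₂ p) := hr2 p hp
          have h1 : v = i₂ (r₂ p) := e2
          have h2 : u = i₂ p := hu
          exact hg u v huv (by rw [h1, h2, this])
        · have : f (i₁ (r₁ p)) = f (i₁ p) := hr1 p hp
          have h1 : v = i₁ (r₁ p) := e2
          have h2 : u = i₁ p := hu
          exact hf u v huv (by rw [h1, h2, this])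
      · have e2 : ii k (rr k p) = ii l (rr l q) := by rw [← hcu, ← hcv]; exact e
        have hkl : k = l := by
          by_contra hkl
          exact hDb k l _ _ hkl (by omega) (by omega) e2
        subst hkl
        have e3 := (hPb k).inj _ _ (by omega) (by omega) e2
        cases k
        · have h1 : g (i₂ (r₂ p)) = g (i₂ p) := hr2 p hp
          have h2 : g (i₂ (r₂ q)) = g (i₂ q) := hr2 q hq
          have e4 : r₂ p = r₂ q := e3
          have h3 : u = i₂ p := hu
          have h4 : v = i₂ q := hv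
          exact hg u v huv (by rw [h3, h4, ← h1, ← h2, e4])
        · have h1 : f (i₁ (r₁ p)) = f (i₁ p) := hr1 p hp
          have h2 : f (i₁ (r₁ q)) = f (i₁ q) := hr1 q hq
          have e4 : r₁ p = r₁ q := e3
          have h3 : u = i₁ p := hu
          have h4 : v = i₁ q := hv
          exact hf u v huv (by rw [h3, h4, ← h1, ← h2, e4])
  have hh : Proper G h := by
    intro u v huv
    exact hh0 _ _ ⟨same u v huv, u, v, rfl, rfl, huv⟩
  -- compatibility of the identifications
  have comp : ∀ (k : Bool) (v : V),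
      ρ (comb (fun _ : Unit => ii k) (fun _ => rr k) v) = ρ v := by
    intro k v
    rcases comb_cases (i := fun _ : Unit => ii k) (r := fun _ => rr k) (fun _ => hPb k)
      (fun _ => hGb k) (hDu (ii k)) v with hv | ⟨_, p, hp, hv, hc, hr⟩
    · rw [hv]
    · rw [hc, hv]
      show comb ii rr (ii k (rr k p)) = comb ii rr (ii k p)
      have hr' : hn (rr k p) ≤ 3 := hr
      rw [comb_six hPb hGb hDb k _ (by omega), comb_six hPb hGb hDb k p (by omega), (hGb k).idem]
  have fix : ∀ (i : ℤ × ℤ → V) (r : ℤ × ℤ → ℤ × ℤ) (c : V → Fin 5), Patch G i → Good r →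
      (∀ p, hn p ≤ 3 → c (i (r p)) = c (i p)) →
      ∀ v, c (comb (fun _ : Unit => i) (fun _ => r) v) = c v := by
    intro i r c hP hG hr v
    rcases comb_cases (i := fun _ : Unit => i) (r := fun _ => r) (fun _ => hP)
      (fun _ => hG) (hDu i) v with hv | ⟨_, p, hp, hv, hc, _⟩
    · rw [hv]
    · rw [hc, hv]
      exact hr p hp
  have s1 : KEq G f h := one_class G i₁ hP1 r₁ hG1 hA1 f h hf hh (fix i₁ r₁ f hP1 hG1 hr1)
    (fun v => by
      show h0 (ρ (comb (fun _ : Unit => ii true) (fun _ => rr true) v)) = h0 (ρ v)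
      rw [comp true v])
  have s2 : KEq G h g := one_class G i₂ hP2 r₂ hG2 hA2 h g hh hg
    (fun v => by
      show h0 (ρ (comb (fun _ : Unit => ii false) (fun _ => rr false) v)) = h0 (ρ v)
      rw [comp false v]) (fix i₂ r₂ g hP2 hG2 hr2)
  exact s1.trans s2

theorem ta : StmtTA := by
  intro V _ G i₁ i₂ hP1 hP2 hdis h1 h2
  exact ta' G i₁ i₂ hP1 hP2 hdis (Pool.Agent.Helper53.KC.main G _ _ rfl h1)
    (Pool.Agent.Helper53.KC.main G _ _ rfl h2)

end Pool.Agent.Helper94.KC
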