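import Pool.Agent.Helper94.KC.SubDefs
import Pool.Agent.Helper94.KC.TA

/-!
# Project KC (MP_bf413e_co): theorem A' for subflat patches
-/

set_option autoImplicit false

namespace Pool.Agent.Helper94.KC

open scoped Classical
open Finset Pool.Agent.Helper53.KC Pool.Agent.Helper4.KC

/-- the algebraic part of a good identification -/
structure RP (r : ℤ × ℤ → ℤ × ℤ) : Prop where
  idem : ∀ p, r (r p) = r p
  out : ∀ p, 3 < hn p → r p = p
  inn : ∀ p, hn p ≤ 3 → hn (r p) ≤ 3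

theorem GoodC.rp {c : ℤ × ℤ → Fin 5} {r : ℤ × ℤ → ℤ × ℤ} (h : GoodC c r) : RP r :=
  ⟨h.idem, h.out, h.inn⟩

section

variable {V : Type} [Fintype V] {I : Type} {i : I → ℤ × ℤ → V} {r : I → ℤ × ℤ → ℤ × ℤ}

theorem scomb_in (hP : ∀ k p q, hn p ≤ 6 → hn q ≤ 6 → i k p = i k q → p = q)
    (hD : ∀ k l p q, k ≠ l → hn p ≤ 6 → hn q ≤ 6 → i k p ≠ i l q) (k : I) (p : ℤ × ℤ)
    (hp : hn p ≤ 3) : comb i r (i k p) = i k (r k p) := by
  have h : ∃ kp : I × (ℤ × ℤ), hn kp.2 ≤ 3 ∧ i kp.1 kp.2 = i k p := ⟨(k, p), hp, rfl⟩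
  unfold comb
  rw [dif_pos h]
  have hs := h.choose_spec
  set kp := h.choose with hkp
  have h1 : kp.1 = k := by
    by_contra hne
    exact hD kp.1 k kp.2 p hne (by omega) (by omega) hs.2
  have h2 : kp.2 = p := by
    have h3 := hs.2
    rw [h1] at h3
    exact hP k _ _ (by omega) (by omega) h3
  rw [h1, h2]

theorem scomb_six (hP : ∀ k p q, hn p ≤ 6 → hn q ≤ 6 → i k p = i k q → p = q)
    (hG : ∀ k, RP (r k))
    (hD : ∀ k l p q, k ≠ l → hn p ≤ 6 → hn q ≤ 6 → i k p ≠ i l q) (k : I) (p : ℤ × ℤ)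
    (hp : hn p ≤ 6) : comb i r (i k p) = i k (r k p) := by
  by_cases h3 : hn p ≤ 3
  · exact scomb_in hP hD k p h3
  · rw [(hG k).out p (by omega)]
    apply comb_out
    intro l q hq he
    by_cases hl : l = k
    · subst hl
      have := hP l _ _ (by omega) hp he
      subst this
      exact h3 hq
    · exact hD l k q p hl (by omega) hp he

theorem sr_six (hG : ∀ k, RP (r k)) (k : I) (q : ℤ × ℤ) (hq : hn q ≤ 6) : hn (r k q) ≤ 6 := by
  by_cases h3 : hn q ≤ 3
  · have := (hG k).inn q h3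
    omega
  · rw [(hG k).out q (by omega)]
    exact hq

theorem scomb_cases (hP : ∀ k p q, hn p ≤ 6 → hn q ≤ 6 → i k p = i k q → p = q)
    (hG : ∀ k, RP (r k))
    (hD : ∀ k l p q, k ≠ l → hn p ≤ 6 → hn q ≤ 6 → i k p ≠ i l q) (u : V) :
    comb i r u = u ∨ ∃ l p, hn p ≤ 3 ∧ u = i l p ∧ comb i r u = i l (r l p) ∧ hn (r l p) ≤ 3 := by
  by_cases h : ∃ l p, hn p ≤ 3 ∧ i l p = u
  · obtain ⟨l, p, hp, rfl⟩ := h
    exact Or.inr ⟨l, p, hp, rfl, scomb_in hP hD l p hp, (hG l).inn p hp⟩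
  · left
    apply comb_out
    intro k p hp he
    exact h ⟨k, p, hp, he⟩

theorem scomb_idem (hP : ∀ k p q, hn p ≤ 6 → hn q ≤ 6 → i k p = i k q → p = q)
    (hG : ∀ k, RP (r k))
    (hD : ∀ k l p q, k ≠ l → hn p ≤ 6 → hn q ≤ 6 → i k p ≠ i l q) (v : V) :
    comb i r (comb i r v) = comb i r v := by
  rcases scomb_cases hP hG hD v with h | ⟨l, p, hp, hu, hc, hr⟩
  · rw [h, h]
  · rw [hc, scomb_in hP hD l _ hr, (hG l).idem]

theorem scomb_pre (hP : ∀ k p q, hn p ≤ 6 → hn q ≤ 6 → i k p = i k q → p = q)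
    (hG : ∀ k, RP (r k))
    (hD : ∀ k l p q, k ≠ l → hn p ≤ 6 → hn q ≤ 6 → i k p ≠ i l q) (u : V) (k : I) (x : ℤ × ℤ)
    (hx : hn x ≤ 5) (hrx : r k x = x) (h : comb i r u = i k x) :
    ∃ p, u = i k p ∧ r k p = x ∧ hn p ≤ 5 := by
  rcases scomb_cases hP hG hD u with h1 | ⟨l, p, hp, hu, hc, hr⟩
  · exact ⟨x, by rw [← h1, h], hrx, hx⟩
  · rw [hc] at h
    have hl : l = k := by
      by_contra hne
      exact hD l k _ _ hne (by omega) (by omega) h
    subst hl
    exact ⟨p, hu, hP l _ _ (by omega) (by omega) h, by omega⟩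

variable [Fintype I] {G : SimpleGraph V}

/-- the quotient is relatively 4-degenerate -/
theorem sqd_rel (hS : ∀ k, SPatch G (i k)) (c : I → V → Fin 5) (hc : ∀ k, Proper G (c k))
    (hG : ∀ k, GoodC (fun p => c k (i k p)) (r k))
    (hD : ∀ k l p q, k ≠ l → hn p ≤ 6 → hn q ≤ 6 → i k p ≠ i l q) :
    Rel4 (QG G (comb i r)) (univ \ cores i) := by
  have hP : ∀ k p q, hn p ≤ 6 → hn q ≤ 6 → i k p = i k q → p = q := fun k => (hS k).inj
  have hR : ∀ k, RP (r k) := fun k => (hG k).rp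
  intro R hRn hdis
  by_cases hfix : ∃ x ∈ R, comb i r x ≠ x
  · obtain ⟨x, hx, hne⟩ := hfix
    refine ⟨x, hx, ?_⟩
    have h0 : ((R ∪ (univ \ cores i)).filter (fun y => (QG G (comb i r)).Adj x y)) = ∅ := by
      apply filter_eq_empty_iff.2
      rintro y _ ⟨_, u, v, hu, _, _⟩
      apply hne
      rw [← hu]
      exact scomb_idem hP hR hD u
    unfold dR
    rw [h0]
    simp
  · push Not at hfix
    obtain ⟨x₀, hx₀⟩ := hRn
    have hx0c : x₀ ∈ cores i := by
      by_contra hc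
      exact Finset.disjoint_left.1 hdis hx₀ (mem_sdiff.2 ⟨mem_univ _, hc⟩)
    obtain ⟨k, p₀, hp₀, rfl⟩ := (mem_cores x₀).1 hx0c
    set R' : Finset (ℤ × ℤ) := (hB 5).filter (fun p => i k p ∈ R) with hR'
    have hmR' : ∀ q, q ∈ R' ↔ hn q ≤ 5 ∧ i k q ∈ R := by
      intro q
      rw [hR', mem_filter, mem_hB]
    have hne : R'.Nonempty := ⟨p₀, (hmR' p₀).2 ⟨hp₀, hx₀⟩⟩
    have hall : ∀ x ∈ R', hn x ≤ 5 ∧ r k x = x := by
      intro x hx
      obtain ⟨h1, h2⟩ := (hmR' x).1 hx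
      refine ⟨h1, ?_⟩
      have h3 := hfix _ h2
      rw [scomb_six hP hR hD k x (by omega)] at h3
      exact hP k _ _ (sr_six hR k x (by omega)) (by omega) h3
    obtain ⟨x, hx, hcard⟩ := (hG k).del R' hne hall
    have hx' := (hmR' x).1 hx
    refine ⟨i k x, hx'.2, le_trans ?_ hcard⟩
    refine le_trans (card_le_card ?_) (card_image_le (f := i k))
    intro y hy
    rw [mem_filter] at hy
    obtain ⟨hyR, hne', u, v, hu, hv, huv⟩ := hy
    obtain ⟨p, rfl, hrp, hp5⟩ := scomb_pre hP hR hD u k x hx'.1 (hall x hx).2 hu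
    obtain ⟨q, hq1, rfl⟩ := (hS k).nb p hp5 v huv
    have hq6 : hn q ≤ 6 := by
      have := hn_step p q hq1
      omega
    rw [scomb_six hP hR hD k q hq6] at hv
    rw [mem_image]
    refine ⟨r k q, ?_, hv⟩
    rw [mem_filter, mem_hB]
    have h6 := sr_six hR k q hq6
    refine ⟨h6, ?_, ?_, p, q, hrp, rfl, hq1, ?_⟩
    · by_cases h5 : hn (r k q) ≤ 5
      · left
        rw [hmR']
        refine ⟨h5, ?_⟩
        rw [hv]
        rcases mem_union.1 hyR with h | h
        · exact h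
        · exfalso
          apply (mem_sdiff.1 h).2
          rw [mem_cores]
          exact ⟨k, _, h5, hv⟩
      · right
        omega
    · intro he
      apply hne'
      rw [← hv, he]
    · rintro ⟨_, _, he⟩
      exact hc k _ _ huv he

/-- outside the cores the quotient is the graph -/
theorem sgs_quot (hP : ∀ k p q, hn p ≤ 6 → hn q ≤ 6 → i k p = i k q → p = q)
    (hG : ∀ k, RP (r k))
    (hD : ∀ k l p q, k ≠ l → hn p ≤ 6 → hn q ≤ 6 → i k p ≠ i l q) :
    GS (QG G (comb i r)) (univ \ cores i) = GS G (univ \ cores i) := by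
  have key : ∀ z, z ∉ cores i → ∀ w, comb i r w = z → w = z := by
    intro z hz w hw
    rcases scomb_cases hP hG hD w with h1 | ⟨l, p, hp, hu', hc, hr⟩
    · rw [← h1, hw]
    · exfalso
      apply hz
      rw [mem_cores]
      exact ⟨l, r l p, by omega, by rw [← hc, hw]⟩
  have key2 : ∀ z, z ∉ cores i → comb i r z = z := by
    intro z hz
    rcases scomb_cases hP hG hD z with h1 | ⟨l, p, hp, hu', hc, hr⟩
    · exact h1
    · exfalso
      apply hz
      rw [mem_cores]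
      exact ⟨l, p, by omega, hu'.symm⟩
  ext u v
  constructor
  · rintro ⟨⟨hne, a, b, ha, hb, hab⟩, hu, hv⟩
    have hu' := (mem_sdiff.1 hu).2
    have hv' := (mem_sdiff.1 hv).2
    rw [key u hu' a ha, key v hv' b hb] at hab
    exact ⟨hab, hu, hv⟩
  · rintro ⟨hab, hu, hv⟩
    have hu' := (mem_sdiff.1 hu).2
    have hv' := (mem_sdiff.1 hv).2
    exact ⟨⟨hab.ne, u, v, key2 u hu', key2 v hv', hab⟩, hu, hv⟩

end

/-- `K(P)` is one class: two colourings which respect a good identification of a patch -/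
theorem sone_class {V : Type} [Fintype V] (G : SimpleGraph V) (i₁ : ℤ × ℤ → V)
    (hP : SPatch G i₁) (r₁ : ℤ × ℤ → ℤ × ℤ) (f h : V → Fin 5) (hf : Proper G f)
    (hG : GoodC (fun p => f (i₁ p)) r₁) (hA : AllEq (GS G (univ \ core i₁)))
    (hh : Proper G h)
    (hf' : ∀ v, f (comb (fun _ : Unit => i₁) (fun _ => r₁) v) = f v)
    (hh' : ∀ v, h (comb (fun _ : Unit => i₁) (fun _ => r₁) v) = h v) :
    KEq G f h ∧ KEq G h f := by
  have hD : ∀ (k l : Unit) (p q : ℤ × ℤ), k ≠ l → hn p ≤ 6 → hn q ≤ 6 →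
      (fun _ : Unit => i₁) k p ≠ (fun _ : Unit => i₁) l q := fun k l _ _ h => absurd rfl h
  have hc : cores (fun _ : Unit => i₁) = core i₁ := by
    unfold cores
    simp
  have h1 := sqd_rel (i := fun _ : Unit => i₁) (r := fun _ => r₁) (fun _ => hP) (fun _ => f)
    (fun _ => hf) (fun _ => hG) hD
  have h2 := sgs_quot (G := G) (i := fun _ : Unit => i₁) (r := fun _ => r₁) (fun _ => hP.inj)
    (fun _ => hG.rp) hD
  rw [hc] at h1 h2
  have h3 : AllEq (QG G (comb (fun _ : Unit => i₁) (fun _ => r₁))) := by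
    apply alleq_of_rel _ _ h1
    rw [h2]
    exact hA
  have e1 : f ∘ comb (fun _ : Unit => i₁) (fun _ => r₁) = f := funext hf'
  have e2 : h ∘ comb (fun _ : Unit => i₁) (fun _ => r₁) = h := funext hh'
  have h4 := Pool.Agent.Helper15.KC.kl Pool.Agent.Helper86.KC.un V G _ f h
    (h3 f h (proper_quot hf hf') (proper_quot hh hh'))
  have h5 := Pool.Agent.Helper15.KC.kl Pool.Agent.Helper86.KC.un V G _ h f
    (h3 h f (proper_quot hh hh') (proper_quot hf hf'))
  rw [e1, e2] at h4 h5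
  exact ⟨h4, h5⟩

/-- Theorem A' for two subflat patches with disjoint images -/
theorem tas (LLs : StmtLLs) {V : Type} [Fintype V] (G : SimpleGraph V) (i₁ i₂ : ℤ × ℤ → V)
    (hP1 : SPatch G i₁) (hP2 : SPatch G i₂)
    (hdis : ∀ p q, hn p ≤ 6 → hn q ≤ 6 → i₁ p ≠ i₂ q)
    (hA1 : AllEq (GS G (univ \ core i₁))) (hA2 : AllEq (GS G (univ \ core i₂))) : AllEq G := by
  intro f g hf hg
  obtain ⟨r₁, hG1⟩ := LLs (fun p => f (i₁ p))
  obtain ⟨r₂, hG2⟩ := LLs (fun p => g (i₂ p))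
  let ii : Bool → ℤ × ℤ → V := fun b => if b then i₁ else i₂
  let rr : Bool → ℤ × ℤ → ℤ × ℤ := fun b => if b then r₁ else r₂
  let cc : Bool → V → Fin 5 := fun b => if b then f else g
  have hPb : ∀ k, SPatch G (ii k) := by
    intro k
    cases k
    · exact hP2
    · exact hP1
  have hcb : ∀ k, Proper G (cc k) := by
    intro k
    cases k
    · exact hg
    · exact hf
  have hGb : ∀ k, GoodC (fun p => cc k (ii k p)) (rr k) := by
    intro k
    cases k
    · exact hG2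
    · exact hG1
  have hIb : ∀ k p q, hn p ≤ 6 → hn q ≤ 6 → ii k p = ii k q → p = q := fun k => (hPb k).inj
  have hRb : ∀ k, RP (rr k) := fun k => (hGb k).rp
  have hDb : ∀ k l p q, k ≠ l → hn p ≤ 6 → hn q ≤ 6 → ii k p ≠ ii l q := by
    intro k l p q hkl hp hq
    cases k <;> cases l
    · exact absurd rfl hkl
    · exact (hdis q p hq hp).symm
    · exact hdis p q hp hq
    · exact absurd rfl hkl
  have hDu : ∀ (i : ℤ × ℤ → V) (k l : Unit) (p q : ℤ × ℤ), k ≠ l → hn p ≤ 6 → hn q ≤ 6 →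
      (fun _ : Unit => i) k p ≠ (fun _ : Unit => i) l q := fun i k l _ _ h => absurd rfl h
  have q1 := sqd_rel hPb cc hcb hGb hDb
  have q2 := sgs_quot (G := G) hIb hRb hDb
  obtain ⟨h0, hh0⟩ := col_of_rel _ _ q1 f (by
    rw [q2]
    intro u v h
    exact hf u v h.1)
  set ρ := comb ii rr with hρ
  let h : V → Fin 5 := fun v => h0 (ρ v)
  have same : ∀ u v, G.Adj u v → ρ u ≠ ρ v := by
    intro u v huv e
    have hne := huv.ne
    rcases scomb_cases hIb hRb hDb u with hu | ⟨k, p, hp, hu, hcu, hru⟩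
    · rcases scomb_cases hIb hRb hDb v with hv | ⟨l, q, hq, hv, hcv, hrv⟩
      · exact hne (by rw [← hu, ← hv]; exact e)
      · have e2 : u = ii l (rr l q) := by rw [← hcv, ← hu]; exact e
        have h3 : cc l (ii l (rr l q)) = cc l (ii l q) := (hGb l).col q hq
        exact hcb l u v huv (by rw [e2, hv, h3])
    · rcases scomb_cases hIb hRb hDb v with hv | ⟨l, q, hq, hv, hcv, hrv⟩
      · have e2 : v = ii k (rr k p) := by rw [← hcu, ← hv]; exact e.symm
        have h3 : cc k (ii k (rr k p)) = cc k (ii k p) := (hGb k).col p hp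
        exact hcb k u v huv (by rw [e2, hu, h3])
      · have e2 : ii k (rr k p) = ii l (rr l q) := by rw [← hcu, ← hcv]; exact e
        have hkl : k = l := by
          by_contra hkl
          exact hDb k l _ _ hkl (by omega) (by omega) e2
        subst hkl
        have e3 := hIb k _ _ (by omega) (by omega) e2
        have h3 : cc k (ii k (rr k p)) = cc k (ii k p) := (hGb k).col p hp
        have h4 : cc k (ii k (rr k q)) = cc k (ii k q) := (hGb k).col q hq
        exact hcb k u v huv (by rw [hu, hv, ← h3, ← h4, e3])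
  have hh : Proper G h := by
    intro u v huv
    exact hh0 _ _ ⟨same u v huv, u, v, rfl, rfl, huv⟩
  have comp : ∀ (k : Bool) (v : V),
      ρ (comb (fun _ : Unit => ii k) (fun _ => rr k) v) = ρ v := by
    intro k v
    rcases scomb_cases (i := fun _ : Unit => ii k) (r := fun _ => rr k) (fun _ => hIb k)
      (fun _ => hRb k) (hDu (ii k)) v with hv | ⟨_, p, hp, hv, hc, hr⟩
    · rw [hv]
    · rw [hc, hv]
      show comb ii rr (ii k (rr k p)) = comb ii rr (ii k p)
      have hr' : hn (rr k p) ≤ 3 := hr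
      rw [scomb_six hIb hRb hDb k _ (by omega), scomb_six hIb hRb hDb k p (by omega),
        (hRb k).idem]
  have fix : ∀ (i : ℤ × ℤ → V) (r : ℤ × ℤ → ℤ × ℤ) (c : V → Fin 5),
      (∀ p q, hn p ≤ 6 → hn q ≤ 6 → i p = i q → p = q) → RP r →
      (∀ p, hn p ≤ 3 → c (i (r p)) = c (i p)) →
      ∀ v, c (comb (fun _ : Unit => i) (fun _ => r) v) = c v := by
    intro i r c hP hG hr v
    rcases scomb_cases (i := fun _ : Unit => i) (r := fun _ => r) (fun _ => hP)
      (fun _ => hG) (hDu i) v with hv | ⟨_, p, hp, hv, hc, _⟩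
    · rw [hv]
    · rw [hc, hv]
      exact hr p hp
  have s1 := (sone_class G i₁ hP1 r₁ f h hf hG1 hA1 hh
    (fix i₁ r₁ f hP1.inj hG1.rp hG1.col)
    (fun v => by
      show h0 (ρ (comb (fun _ : Unit => ii true) (fun _ => rr true) v)) = h0 (ρ v)
      rw [comp true v])).1
  have s2 := (sone_class G i₂ hP2 r₂ g h hg hG2 hA2 hh
    (fix i₂ r₂ g hP2.inj hG2.rp hG2.col)
    (fun v => by
      show h0 (ρ (comb (fun _ : Unit => ii false) (fun _ => rr false) v)) = h0 (ρ v)
      rw [comp false v])).2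
  exact s1.trans s2

end Pool.Agent.Helper94.KC
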