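import Pool.Agent.Helper94.KC.TA
import Pool.Agent.Helper3.KC.L1
import Pool.Agent.Helper83.KC.GH
import Pool.Agent.Helper22.KC.GL

/-!
# Project KC (MP_bf413e_co): theorem B
-/

set_option autoImplicit false

namespace Pool.Agent.Helper94.KC

open scoped Classical
open Finset

theorem hn_zero : hn (0, 0) = 0 := by decide

theorem tb_deg {V : Type} [Fintype V] (T : Finset (Finset V)) (G : SimpleGraph V)
    (i₁ : ℤ × ℤ → V) (hS : Surf T) (hGT : G ≤ sk T)
    (hh : ∀ v x y, (sk T).Adj v x → (sk T).Adj v y → 7 ≤ dg T x → 7 ≤ dg T y → x = y)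
    (hP : Patch G i₁) : Deg4 G (univ \ core i₁) := by
  intro R hR hne
  by_contra hc
  push Not at hc
  have h5 : ∀ x ∈ R, 5 ≤ dR (sk T) R x := by
    intro x hx
    have h1 := hc x hx
    have h2 : dR G R x ≤ dR (sk T) R x := by
      apply Finset.card_le_card
      intro y hy
      rw [Finset.mem_filter] at hy ⊢
      exact ⟨hy.1, hGT hy.2⟩
    omega
  have hcore : ∀ p, hn p ≤ 5 → i₁ p ∉ R := by
    intro p hp h
    have := Finset.mem_sdiff.1 (hR h)
    apply this.2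
    unfold core
    exact Finset.mem_image.2 ⟨p, (Pool.Agent.Helper4.KC.mem_hB 5 p).2 hp, rfl⟩
  have hadj : (sk T).Adj (i₁ (0, 0)) (i₁ (1, 0)) := by
    apply hGT
    exact (hP.nb (0, 0) (by decide) _).2 ⟨(1, 0), by decide, rfl⟩
  have h0 := Pool.Agent.Helper22.KC.gl Pool.Agent.Helper3.KC.l1 Pool.Agent.Helper83.KC.gh V T R hS
    hh h5 ⟨i₁ (0, 0), i₁ (1, 0), hcore _ (by decide), hcore _ (by decide), hadj⟩
  rw [h0] at hne
  exact absurd hne (by simp)

theorem tb : StmtTB := by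
  intro V _ T G i₁ i₂ hS hGT hh hP1 hP2 hdis
  exact ta V G i₁ i₂ hP1 hP2 hdis (tb_deg T G i₁ hS hGT hh hP1) (tb_deg T G i₂ hS hGT hh hP2)

end Pool.Agent.Helper94.KC
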