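import Pool.Agent.Helper94.KC.TB
import Pool.Agent.Helper70.KC.EV
import Pool.Agent.Helper59.KC.CY
import Pool.Agent.Helper28.KC.CN2
import Pool.Agent.Helper28.KC.MZ
import Pool.Agent.Helper36.KC.RK
import Pool.Agent.Helper77.KC.CN
import Pool.Agent.Helper15.KC.XN
import Pool.Agent.Helper33.KC.AC
import Pool.Agent.Helper73.KC.SH
import Pool.Agent.Helper25.KC.EX
import Pool.Agent.Helper13.KC.DB
import Pool.Agent.Helper85.KC.IN
import Pool.Agent.Helper66.KC.NB
import Pool.Agent.Helper34.KC.DD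
import Pool.Agent.Helper39.KC.AR
import Pool.Agent.Helper41.KC.FD
import Pool.Agent.Helper83.KC.BL
import Pool.Agent.Helper23.KC.CO
import Pool.Agent.Helper12.KC.DG
import Pool.Agent.Helper32.KC.DV
import Pool.Agent.Helper64.KC.GB
import Pool.Agent.Helper14.KC.ST
import Pool.Agent.Helper86.KC.MM
import Pool.Agent.Helper1.KC.IJ

/-!
# Project KC (MP_bf413e_co): theorem C
-/

set_option autoImplicit false

namespace Pool.Agent.Helper94.KC

open scoped Classical
open Finset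

theorem pEV : StmtEV := Pool.Agent.Helper70.KC.ev
theorem pCY : StmtCY := Pool.Agent.Helper59.KC.cy
theorem pCN2 : StmtCN2 := Pool.Agent.Helper28.KC.cn2 pEV pCY
theorem pRK : StmtRK := Pool.Agent.Helper36.KC.rk
theorem pMZ : StmtMZ := Pool.Agent.Helper28.KC.mz pEV pCN2 pRK
theorem pCN : StmtCN := Pool.Agent.Helper77.KC.cn
theorem pL1 : StmtL1 := Pool.Agent.Helper3.KC.l1
theorem pGH : StmtGH := Pool.Agent.Helper83.KC.gh
theorem pXN : StmtXN := Pool.Agent.Helper15.KC.xn pCN pL1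
theorem pMM : StmtMM := Pool.Agent.Helper86.KC.mm pCN
theorem pAC : StmtAC := Pool.Agent.Helper33.KC.ac
theorem pSH : StmtSH := Pool.Agent.Helper73.KC.sh pEV
theorem pEX : StmtEX := Pool.Agent.Helper25.KC.ex pMM pAC pSH
theorem pDB : StmtDB := Pool.Agent.Helper13.KC.db pEV pRK
theorem pIN : StmtIN := Pool.Agent.Helper85.KC.inn pEV
theorem pNB : StmtNB := Pool.Agent.Helper66.KC.nb pXN pRK pIN pCN2
theorem pDD : StmtDD := Pool.Agent.Helper34.KC.dd pEV pCY
theorem pAR : StmtAR := Pool.Agent.Helper39.KC.ar pEV pDB pAC pSH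
theorem pFD : StmtFD := Pool.Agent.Helper41.KC.fd pEV pDB pDD pAR
theorem pBL : StmtBL := Pool.Agent.Helper83.KC.bl pGH
theorem pCO : StmtCO := Pool.Agent.Helper23.KC.co
theorem pDG : StmtDG := Pool.Agent.Helper12.KC.dg pXN pMM pNB pFD pBL pCO
theorem pDV : StmtDV := Pool.Agent.Helper32.KC.dv pL1
theorem pGB : StmtGB := Pool.Agent.Helper64.KC.gb pEV pDB pL1
theorem pST : StmtST := Pool.Agent.Helper14.KC.st
theorem pIJ : StmtIJ := Pool.Agent.Helper1.KC.ij pGB pST pAC pEV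

theorem EW_mono {V : Type} [Fintype V] {T : Finset (Finset V)} {c d : ℕ} (h : EW T d)
    (hcd : c ≤ d) : EW T c := fun x w hw hl => h x w hw (by omega)

/-- a point of a patch is near its centre -/
theorem patch_dist {V : Type} [Fintype V] {T : Finset (Finset V)} {i : ℤ × ℤ → V}
    (hP : Patch (sk T) i) : ∀ n ≤ 6, ∀ p, hn p ≤ n → (sk T).Reachable (i (0, 0)) (i p) ∧
      (sk T).dist (i (0, 0)) (i p) ≤ n := by
  intro n
  induction n with
  | zero =>
    intro _ p hp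
    have : p = (0, 0) := by
      have := LL.hn_le hp
      ext <;> simp only <;> omega
    subst this
    exact ⟨SimpleGraph.Reachable.refl _, by rw [SimpleGraph.dist_self]⟩
  | succ n ih =>
    intro hn6 p hp
    by_cases hpn : hn p ≤ n
    · obtain ⟨h1, h2⟩ := ih (by omega) p hpn
      exact ⟨h1, by omega⟩
    · -- there is a neighbour of smaller norm
      have hb := LL.hn_le hp
      have hq : ∃ q, hn q ≤ n ∧ hn (p - q) = 1 := by
        have hn1 : hn p = n + 1 := by omega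
        unfold hn at hn1
        rcases (by omega : 0 < p.1 ∧ 0 < p.2 ∨ 0 < p.1 ∧ p.2 ≤ 0 ∧ 0 < p.1 + p.2 ∨
          0 < p.1 ∧ p.2 < 0 ∧ p.1 + p.2 ≤ 0 ∨ p.1 < 0 ∧ p.2 < 0 ∨
          p.1 < 0 ∧ 0 ≤ p.2 ∧ p.1 + p.2 < 0 ∨ p.1 < 0 ∧ 0 < p.2 ∧ 0 ≤ p.1 + p.2 ∨
          p.1 = 0 ∧ 0 < p.2 ∨ p.1 = 0 ∧ p.2 < 0 ∨ p.1 = 0 ∧ p.2 = 0) with
          h | h | h | h | h | h | h | h | h
        · refine ⟨(p.1 - 1, p.2), LL.hn_of ?_, ?_⟩
          · simp only; omega
          · unfold hn; simp only [Prod.fst_sub, Prod.snd_sub]; omega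
        · refine ⟨(p.1 - 1, p.2), LL.hn_of ?_, ?_⟩
          · simp only; omega
          · unfold hn; simp only [Prod.fst_sub, Prod.snd_sub]; omega
        · refine ⟨(p.1 - 1, p.2 + 1), LL.hn_of ?_, ?_⟩
          · simp only; omega
          · unfold hn; simp only [Prod.fst_sub, Prod.snd_sub]; omega
        · refine ⟨(p.1 + 1, p.2), LL.hn_of ?_, ?_⟩
          · simp only; omega
          · unfold hn; simp only [Prod.fst_sub, Prod.snd_sub]; omega
        · refine ⟨(p.1 + 1, p.2), LL.hn_of ?_, ?_⟩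
          · simp only; omega
          · unfold hn; simp only [Prod.fst_sub, Prod.snd_sub]; omega
        · refine ⟨(p.1 + 1, p.2 - 1), LL.hn_of ?_, ?_⟩
          · simp only; omega
          · unfold hn; simp only [Prod.fst_sub, Prod.snd_sub]; omega
        · refine ⟨(p.1, p.2 - 1), LL.hn_of ?_, ?_⟩
          · simp only; omega
          · unfold hn; simp only [Prod.fst_sub, Prod.snd_sub]; omega
        · refine ⟨(p.1, p.2 + 1), LL.hn_of ?_, ?_⟩
          · simp only; omega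
          · unfold hn; simp only [Prod.fst_sub, Prod.snd_sub]; omega
        · omega
      obtain ⟨q, hq1, hq2⟩ := hq
      obtain ⟨h1, h2⟩ := ih (by omega) q hq1
      have hadj : (sk T).Adj (i q) (i p) := (hP.nb q (by omega) _).2 ⟨p, hq2, rfl⟩
      refine ⟨h1.trans hadj.reachable, ?_⟩
      have h3 : (sk T).dist (i q) (i p) ≤ 1 := by
        rw [SimpleGraph.dist_eq_one_iff_adj.2 hadj]
      have h4 := h1.dist_triangle_left (i p)
      omega

theorem tc : StmtTC := by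
  intro N
  refine ⟨6 * N * (4 * (6 * N + 20) + 1) + 100, ?_⟩
  intro V _ T hS hchi hdeg hEW
  have hchi0 : chi T ≤ 0 := by
    have := (pMM V T hS hdeg).1
    have h0 : (0 : ℤ) ≤ ((univ.filter (fun v => 7 ≤ dg T v)).card : ℤ) := by positivity
    omega
  obtain ⟨x, w, hw, hlen⟩ := pMZ V T hS hchi0 _ hEW
  obtain ⟨x₁, x₂, hx1, hx2, h12, hfar⟩ := pEX V T N (6 * N + 20) hS hdeg hchi x w hw hlen
  have hflat : ∀ x₁ : V, (∀ h, 7 ≤ dg T h → 6 * N + 20 < (sk T).dist x₁ h) →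
      ∃ i : ℤ × ℤ → V, Patch (sk T) i ∧ i (0, 0) = x₁ := by
    intro x₁ h1
    obtain ⟨f, hf0, hf⟩ := pDV V T x₁ 6 hS (by
      intro y hy
      have h2 := hdeg y
      by_contra hc
      have := h1 y (by omega)
      omega)
    exact ⟨f, pIJ V T f hS hdeg (EW_mono hEW (by omega)) hf, hf0⟩
  obtain ⟨i₁, hP1, hi1⟩ := hflat x₁ (fun h hh => (hfar h hh).1)
  obtain ⟨i₂, hP2, hi2⟩ := hflat x₂ (fun h hh => (hfar h hh).2)
  have hE : EW T (6 * N + 1) := EW_mono hEW (by nlinarith)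
  have hd1 := pDG V T N hS hdeg hchi hE x w hw x₁ hx1
    (fun h hh => by have := (hfar h hh).1; omega) i₁ hP1 hi1
  have hd2 := pDG V T N hS hdeg hchi hE x w hw x₂ hx2
    (fun h hh => by have := (hfar h hh).2; omega) i₂ hP2 hi2
  apply ta V (sk T) i₁ i₂ hP1 hP2 ?_ hd1 hd2
  intro p q hp hq e
  obtain ⟨a1, a2⟩ := patch_dist hP1 6 le_rfl p hp
  obtain ⟨b1, b2⟩ := patch_dist hP2 6 le_rfl q hq
  rw [hi1] at a1 a2
  rw [hi2] at b1 b2
  rw [e] at a1 a2
  have h3 := a1.dist_triangle_left x₂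
  rw [SimpleGraph.dist_comm (u := i₂ q)] at h3
  omega

end Pool.Agent.Helper94.KC
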