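import Pool.Agent.Helper94.KC.FinS

/-!
# Project KC (MP_bf413e_co): all vertices of degree different from 6 are in few balls
-/

set_option autoImplicit false

namespace Pool.Agent.Helper94.KC

open scoped Classical
open Finset
open Pool.Agent.Helper30.KC
open Pool.Agent.Helper96.KT (ew_mono dev_dist)
open Pool.Agent.Helper77.KT (dist_le_two)
open Pool.Agent.Helper30.ML (Mac rs del StmtBR StmtMEY)

/-- the hubs are in few balls: chains of hubs have bounded diameter -/
theorem hd_balls {V : Type} [Fintype V] (T : Finset (Finset V)) (hc : (sk T).Connected)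
    (Z : Finset V) (m r : ℕ) (hZ : Z.card ≤ m)
    (hh : ∀ v, 7 ≤ dg T v → ∃ z ∈ Z, (sk T).dist z v ≤ r) : HD T (m * (2 * r + 2)) := by
  -- the graph of the centres
  let CG : SimpleGraph V :=
    { Adj := fun a b => a ≠ b ∧ a ∈ Z ∧ b ∈ Z ∧ (sk T).dist a b ≤ 2 * r + 2
      symm := ⟨fun a b h => ⟨h.1.symm, h.2.2.1, h.2.1, by
        rw [SimpleGraph.dist_comm]; exact h.2.2.2⟩⟩
      loopless := ⟨fun a h => h.1 rfl⟩ }
  -- a chain of hubs gives a chain of centres
  have key : ∀ a b, (HG T).Walk a b → a ≠ b → ∀ z ∈ Z, (sk T).dist z a ≤ r →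
      ∃ z' ∈ Z, (sk T).dist z' b ≤ r ∧ CG.Reachable z z' := by
    intro a b w
    induction w with
    | nil => intro h; exact absurd rfl h
    | @cons u v w' hadj p ih =>
      intro _ z hz hzu
      obtain ⟨z₁, hz₁, hzv⟩ := hh v hadj.2.2.1
      have h2 := dist_le_two T hadj
      have h3 := hc.dist_triangle (u := z) (v := u) (w := v)
      have h4 := hc.dist_triangle (u := z) (v := v) (w := z₁)
      have h5 : (sk T).dist v z₁ = (sk T).dist z₁ v := SimpleGraph.dist_comm
      have h1 : CG.Reachable z z₁ := by
        by_cases he : z = z₁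
        · rw [he]
        · exact SimpleGraph.Adj.reachable ⟨he, hz, hz₁, by omega⟩
      by_cases hvb : v = w'
      · subst hvb
        exact ⟨z₁, hz₁, hzv, h1⟩
      · obtain ⟨z', hz', hd, hr⟩ := ih hvb z₁ hz₁ hzv
        exact ⟨z', hz', hd, h1.trans hr⟩
  have hub : ∀ a b, (HG T).Walk a b → a ≠ b → 7 ≤ dg T a := by
    intro a b w
    cases w with
    | nil => intro h; exact absurd rfl h
    | cons h p => intro _; exact h.2.1
  -- chains of centres
  have dw : ∀ a b (w : CG.Walk a b), (sk T).dist a b ≤ (2 * r + 2) * w.length := by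
    intro a b w
    induction w with
    | nil => simp
    | @cons u v w' hadj p ih =>
      have h2 := hc.dist_triangle (u := u) (v := v) (w := w')
      have h3 := hadj.2.2.2
      rw [SimpleGraph.Walk.length_cons, Nat.mul_add, Nat.mul_one]
      omega
  have cz : ∀ a b (w : CG.Walk a b), a ∈ Z → ∀ x ∈ w.support, x ∈ Z := by
    intro a b w
    induction w with
    | nil =>
      intro ha x hx
      rw [SimpleGraph.Walk.support_nil, List.mem_singleton] at hx
      rw [hx]; exact ha
    | @cons u v w' hadj p ih =>
      intro ha x hx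
      rw [SimpleGraph.Walk.support_cons, List.mem_cons] at hx
      rcases hx with rfl | hx
      · exact ha
      · exact ih hadj.2.2.1 x hx
  intro a b hr
  by_cases hab : a = b
  · rw [hab, SimpleGraph.dist_self]
    exact Nat.zero_le _
  obtain ⟨w⟩ := hr
  obtain ⟨z, hz, hza⟩ := hh a (hub a b w hab)
  obtain ⟨z', hz', hzb, hzz⟩ := key a b w hab z hz hza
  obtain ⟨q⟩ := hzz
  let p := q.toPath
  have h1 := dw z z' (p : CG.Walk z z')
  have h2 : (p : CG.Walk z z').support.toFinset ⊆ Z := by
    intro x hx
    rw [List.mem_toFinset] at hx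
    exact cz _ _ _ hz x hx
  have h3 := card_le_card h2
  rw [List.toFinset_card_of_nodup p.2.support_nodup, SimpleGraph.Walk.length_support] at h3
  have h4 : (2 * r + 2) * (p : CG.Walk z z').length ≤ (2 * r + 2) * (m - 1) :=
    Nat.mul_le_mul_left _ (by omega)
  have h5 := hc.dist_triangle (u := a) (v := z) (w := b)
  have h6 := hc.dist_triangle (u := z) (v := z') (w := b)
  have h7 : (sk T).dist a z = (sk T).dist z a := SimpleGraph.dist_comm
  have h8 : m * (2 * r + 2) = (2 * r + 2) * (m - 1) + (2 * r + 2) := by
    obtain ⟨k, hk⟩ : ∃ k, m = k + 1 := ⟨m - 1, by omega⟩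
    subst hk
    rw [Nat.add_sub_cancel]
    ring
  omega

/-- all vertices of degree different from 6 are in `m` balls of radius `r`: all subgraphs of
triangulations of large edge-width, for all surfaces -/
theorem tus (m r : ℕ) : ∃ c : ℕ, ∀ (V : Type) [Fintype V] (T : Finset (Finset V)),
    Surf T → (∃ Z : Finset V, Z.card ≤ m ∧ ∀ v, dg T v ≠ 6 → ∃ z ∈ Z, (sk T).dist z v ≤ r) →
    EW T c → ∀ G ≤ sk T, AllEq G := by
  refine ⟨m * (4 * (2 * (m * (2 * r + 2)) + 20 + r) + 1) + 161 * (m + 2) +
    2 * (m * (2 * r + 2)) + 20, ?_⟩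
  intro V _ T hT hZ hEW G hG
  obtain ⟨Z, hZc, hZ⟩ := hZ
  by_cases hb : ∀ z ⊆ ed T, Even2 z → Bounds T z
  · have h1 := Pool.Agent.Helper30.ML.br V T hT univ (by
      intro z hz hev
      have hz' : z ⊆ ed T := fun e he => (mem_filter.1 (hz he)).1
      obtain ⟨D, hD, hDz⟩ := hb z hz' hev
      refine ⟨D, fun s hs => mem_filter.2 ⟨hD hs, subset_univ s⟩, hDz⟩)
    have h2 : rs (sk T) ((univ : Finset V) : Set V) = sk T := by
      ext a b
      simp [rs]
    rw [h2] at h1
    exact Pool.Agent.Helper30.ML.meyniel V G (Pool.Agent.Helper30.ML.su V _ _ hG h1)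
  · push Not at hb
    obtain ⟨x₀, w, hw, hcw⟩ := sz V T _ hT hEW hb
    have hHD := hd_balls T hT.conn Z m r hZc (fun v hv => hZ v (by omega))
    obtain ⟨x, hxw, hxx, hxZ⟩ := ex2 V T hT x₀ w hw Z (m + 2)
      (2 * (m * (2 * r + 2)) + 20 + r) 40 (by
        have h1 : Z.card * (4 * (2 * (m * (2 * r + 2)) + 20 + r) + 1) ≤
            m * (4 * (2 * (m * (2 * r + 2)) + 20 + r) + 1) :=
          Nat.mul_le_mul_right _ hZc
        omega)
    have hfar : ∀ j, ∀ h, dg T h ≠ 6 → 2 * (m * (2 * r + 2)) + 20 < (sk T).dist (x j) h := by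
      intro j h hh
      obtain ⟨z, hz, hd⟩ := hZ h hh
      have h1 := hxZ j z hz
      have h2 := hT.conn.dist_triangle (u := x j) (v := h) (w := z)
      have h3 : (sk T).dist h z = (sk T).dist z h := SimpleGraph.dist_comm
      omega
    have hdev : ∀ j, ∃ f : ℤ × ℤ → V, f (0, 0) = x j ∧ Dev T 6 f := by
      intro j
      refine dv V T (x j) 6 hT ?_
      intro y hy
      by_contra hne
      have := hfar j y hne
      omega
    choose f hf0 hfD using hdev
    -- two patches
    have htwo : ∃ j k, j ≠ k ∧ Patch (sk T) (f j) ∧ Patch (sk T) (f k) := by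
      by_contra hno
      push Not at hno
      -- the indices without a patch
      set B : Finset (Fin (m + 2)) := univ.filter (fun j => ¬ Patch (sk T) (f j)) with hB
      have hBc : (univ \ B).card ≤ 1 := by
        rw [card_le_one]
        intro a ha b hb'
        by_contra hab
        have ha' : Patch (sk T) (f a) := by
          by_contra h
          exact (mem_sdiff.1 ha).2 (mem_filter.2 ⟨mem_univ _, h⟩)
        have hb'' : Patch (sk T) (f b) := by
          by_contra h
          exact (mem_sdiff.1 hb').2 (mem_filter.2 ⟨mem_univ _, h⟩)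
        exact hno a b hab ha' hb''
      have hBcard : m + 1 ≤ B.card := by
        have h1 := card_sdiff_add_card_eq_card (subset_univ B)
        rw [card_univ, Fintype.card_fin] at h1
        omega
      have hdata : ∀ j : Fin (m + 2), ∃ v : V, j ∈ B → v ∈ Z ∧
          ∃ (y : V) (w' : (sk T).Walk y y) (D : Finset (Finset V)), w'.IsCycle ∧
          w'.length ≤ 12 ∧ (∀ z ∈ w'.support, (sk T).dist (x j) z ≤ 6) ∧ Disc T D (wed w') ∧
          v ∈ vs D ∧ v ∉ w'.support := by
        intro j
        by_cases hj : j ∈ B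
        · rcases ij2 V T (f j) hT (ew_mono hEW (by omega)) (hfD j) with h | h
          · exact absurd h (mem_filter.1 hj).2
          · obtain ⟨y, w', D, v, h1, h2, h3, h4, h5, h6, h7⟩ := h
            rw [hf0 j] at h3
            obtain ⟨z, hz, hd⟩ := hZ v (by omega)
            -- the path from `v` to `z` avoids `w'`
            obtain ⟨p, hp⟩ := hT.conn.exists_walk_length_eq_dist v z
            have hav : ∀ u ∈ p.support, u ∉ w'.support := by
              intro u hu huw
              have e1 := h3 u huw
              have e2 := hfar j v (by omega)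
              have e3 := hT.conn.dist_triangle (u := x j) (v := u) (w := v)
              have e4 : (sk T).dist v u ≤ p.length := by
                refine le_trans (SimpleGraph.dist_le (p.takeUntil u hu)) ?_
                exact p.length_takeUntil_le hu
              have e5 : (sk T).dist u v = (sk T).dist v u := SimpleGraph.dist_comm
              have e6 : (sk T).dist v z = (sk T).dist z v := SimpleGraph.dist_comm
              have e7 := hxZ j z hz
              have e8 := hT.conn.dist_triangle (u := x j) (v := u) (w := z)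
              have e9 : (sk T).dist u z ≤ p.length := by
                refine le_trans (SimpleGraph.dist_le (p.dropUntil u hu)) ?_
                exact p.length_dropUntil_le hu
              omega
            exact ⟨z, fun _ => ⟨hz, y, w', D, h1, h2, h3, h4,
              Pool.Agent.Helper86.KT.along db hT w' h1 h4 p hav h5,
              hav z (SimpleGraph.Walk.end_mem_support p)⟩⟩
        · exact ⟨x j, fun h => absurd h hj⟩
      choose v hv using hdata
      have hinj : Set.InjOn v (B : Set (Fin (m + 2))) := by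
        intro j hj k hk hjk
        by_contra hne
        obtain ⟨_, y₁, w₁, D₁, a1, a2, a3, a4, a5, a6⟩ := hv j (mem_coe.1 hj)
        obtain ⟨_, y₂, w₂, D₂, b1, b2, b3, b4, b5, b6⟩ := hv k (mem_coe.1 hk)
        rw [← hjk] at b5 b6
        exact ds V T hT x₀ w hw (x j) (hxw j) (x k) (hxw k) (hxx j k hne) y₁ y₂ w₁ w₂ D₁ D₂
          a1 b1 a2 b2 a3 b3 a4 b4 (v j) a5 a6 b5 b6
      have hsub : B.image v ⊆ Z := by
        intro u hu
        obtain ⟨j, hj, rfl⟩ := mem_image.1 hu
        exact (hv j hj).1
      have hsum := card_le_card hsub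
      rw [card_image_of_injOn hinj] at hsum
      omega
    obtain ⟨j, k, hjk, hpj, hpk⟩ := htwo
    have hdist : ∀ i, ∀ p, hn p ≤ 6 → (sk T).dist (x i) (f i p) ≤ 6 := by
      intro i p hp
      have h1 := dev_dist hT (hfD i) (hn p) hp p rfl
      rw [hf0 i] at h1
      omega
    refine tiS V T (m * (2 * r + 2)) 0 hT hHD (ew_mono hEW (by omega)) x₀ w hw (x j) (x k)
      (f j) (f k) (hxw j) (hxw k) hpj hpk ?_ ?_ ?_ ?_ G hG
    · intro p q hp hq h
      have h1 := hdist j p hp
      have h2 := hdist k q hq
      have h3 := hxx j k hjk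
      have h4 := hT.conn.dist_triangle (u := x j) (v := f j p) (w := x k)
      rw [h, SimpleGraph.dist_comm (u := f k q)] at h4
      rw [h] at h1
      omega
    · rw [hf0 j, SimpleGraph.dist_self]
    · rw [hf0 k, SimpleGraph.dist_self]
    · intro h h7
      have h1 := hfar j h (by omega)
      have h2 := hfar k h (by omega)
      rw [hf0 j, hf0 k]
      constructor <;> omega

end Pool.Agent.Helper94.KC
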